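import Mathlib

set_option autoImplicit false

/-!
# Jump inequality for averages over intervals: statements (project JV, helper610)
-/

namespace Pool.Agent.N610.JV

open Finset

/-- increment of `G` over the aligned dyadic block number `c` of level `i` -/
def S (G : ℕ → ℝ) (i c : ℕ) : ℝ := G ((c + 1) * 2 ^ i) - G (c * 2 ^ i)

/-- mean slope of `G` on the aligned dyadic block of level `i` which contains `n` -/
noncomputable def blk (G : ℕ → ℝ) (i n : ℕ) : ℝ := S G i (n / 2 ^ i) / 2 ^ i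

/-- mean slope of `G` on `[n, n + H]` -/
noncomputable def avg (G : ℕ → ℝ) (n H : ℕ) : ℝ := (G (n + H) - G n) / H

/-- there are `k` non-overlapping pairs in `[lo, hi]` between which `a` changes by at least `lam` -/
def Jumps (a : ℕ → ℝ) (lo hi : ℕ) (lam : ℝ) (k : ℕ) : Prop :=
  ∃ s t : ℕ → ℕ, (∀ i < k, lo ≤ s i ∧ s i < t i ∧ t i ≤ hi ∧ lam ≤ |a (t i) - a (s i)|) ∧
    ∀ i, i + 1 < k → t i ≤ s (i + 1)

/-- energy of the level `i` on `[0, 2 ^ r)` -/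
noncomputable def En (G : ℕ → ℝ) (i r : ℕ) : ℝ := ∑ n ∈ range (2 ^ r), blk G i n ^ 2

/-- the local square function of the window of level `j`, number `P` (see `S_WIN`) -/
noncomputable def Z (G : ℕ → ℝ) (b j P : ℕ) (κ : ℝ) : ℝ :=
  ∑ i ∈ Icc b (j + 1), (3 / 2 : ℝ) ^ (j + 1 - i) *
      ∑ c ∈ Ico (P * 2 ^ (j + 1 - i)) ((P + 2) * 2 ^ (j + 1 - i)), (S G i c - κ * 2 ^ i) ^ 2 +
    ∑ c ∈ Ico (P * 2 ^ (j + 1 - b)) ((P + 2) * 2 ^ (j + 1 - b)), (S G b c + κ * 2 ^ b) ^ 2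

/-- martingale jumps -/
def S_MART : Prop := ∀ (G : ℕ → ℝ) (b r : ℕ), b ≤ r → ∀ lam : ℝ, 0 < lam → ∀ N : ℕ → ℕ,
  (∀ n < 2 ^ r, Jumps (fun j => blk G j n) b r lam (N n)) →
    lam ^ 2 * ∑ n ∈ range (2 ^ r), (N n : ℝ) ≤ 4 * En G b r

/-- one window -/
def S_WIN : Prop := ∃ C : ℝ, 0 < C ∧ ∀ (G : ℕ → ℝ), Monotone G → ∀ b j : ℕ, b ≤ j →
  ∀ (n : ℕ) (κ : ℝ), 0 ≤ κ →
    (∀ H : ℕ, 2 ^ j ≤ H → H ≤ 2 ^ (j + 1) →
      (G (n + H) - G n - κ * H) ^ 2 ≤ C * Z G b j (n / 2 ^ (j + 1)) κ) ∧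
    (∀ lam : ℝ, 0 < lam → ∀ k : ℕ, Jumps (avg G n) (2 ^ j) (2 ^ (j + 1)) lam k →
      lam ^ 2 * 4 ^ j * k ≤ C * Z G b j (n / 2 ^ (j + 1)) κ)

/-- energy identity -/
def S_DROP : Prop := ∀ (G : ℕ → ℝ) (i j r : ℕ), i ≤ j → j ≤ r →
  ∑ n ∈ range (2 ^ r), (blk G i n - blk G j n) ^ 2 = En G i r - En G j r

/-- neighbouring blocks -/
def S_NB : Prop := ∃ C : ℝ, 0 < C ∧ ∀ (G : ℕ → ℝ) (b r : ℕ), b ≤ r →
  ∑ j ∈ Ico b r, ∑ n ∈ range (2 ^ r), (blk G (j + 1) n - blk G (j + 1) (n + 2 ^ (j + 1))) ^ 2 ≤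
    C * En G b (r + 1)

/-- the sum of the square functions over all windows -/
def S_SUM : Prop := ∃ C : ℝ, 0 < C ∧ ∀ (G : ℕ → ℝ), Monotone G → ∀ b r : ℕ, b ≤ r →
  ∑ j ∈ Ico b r, ∑ P ∈ range (2 ^ (r - j - 1)), 2 ^ (j + 1) / 4 ^ j *
    Z G b j P (S G (j + 1) P / 2 ^ (j + 1)) ≤ C * En G b (r + 1)

/-- the abstract jump inequality -/
def S_JUMP : Prop := ∃ C : ℝ, 0 < C ∧ ∀ (G : ℕ → ℝ), Monotone G → ∀ b r : ℕ, b ≤ r →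
  ∀ lam : ℝ, 0 < lam → ∀ N : ℕ → ℕ,
    (∀ n < 2 ^ r, Jumps (avg G n) (2 ^ b) (2 ^ r) lam (N n)) →
      lam ^ 2 * ∑ n ∈ range (2 ^ r), (N n : ℝ) ≤ C * En G b (r + 1)

/-! ### Primes -/

open Classical in
/-- the number of elements of `A` in `(a, b]` -/
noncomputable def count (A : Set ℕ) (a b : ℕ) : ℕ := ((Finset.Ioc a b).filter (fun m => m ∈ A)).card

/-- the density `#(A ∩ (n, n + H]) log X / H` of `A` in `(n, n + H]` relative to `1 / log X` -/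
noncomputable def density (A : Set ℕ) (X n H : ℕ) : ℝ := (count A n (n + H) : ℝ) * Real.log X / H

/-- The density changes at least `k` times by at least `lam`: there are `k` non-overlapping pairs of
lengths between `log X` and `Y` such that the densities at the two lengths of every pair differ by at
least `lam`. -/
def Changes (A : Set ℕ) (X Y n : ℕ) (lam : ℝ) (k : ℕ) : Prop :=
  ∃ s t : ℕ → ℕ, (∀ i < k, Real.log X ≤ s i ∧ s i < t i ∧ t i ≤ Y ∧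
      lam ≤ |density A X n (t i) - density A X n (s i)|) ∧
    ∀ i, i + 1 < k → t i ≤ s (i + 1)

/-- upper bound -/
def S_UP : Prop := ∀ (θ : ℝ), 0 < θ → θ ≤ 1 → ∀ r : ℕ, 1 ≤ r →
  ∃ C : ℝ, 0 < C ∧ ∀ᶠ X : ℕ in Filter.atTop, ∀ Y : ℕ, (X : ℝ) ^ θ ≤ Y → 2 * Y ≤ X →
    ∀ A : Set ℕ, (∀ n ∈ A, ∀ p : ℕ, p.Prime → p ∣ n → (n : ℝ) ^ (1 / (r : ℝ)) ≤ p) →
      ∀ lam : ℝ, 0 < lam → ∀ N : ℕ → ℕ, (∀ n, X < n → n ≤ X + Y → Changes A X Y n lam (N n)) →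
        ∑ n ∈ Finset.Ioc X (X + Y), (N n : ℝ) ≤ C * Y / lam ^ 2

/-- the exponent two is optimal -/
def S_LOW : Prop := ∃ c lam0 : ℝ, 0 < c ∧ 0 < lam0 ∧ ∀ lam : ℝ, 0 < lam → lam ≤ lam0 →
  ∀ᶠ X : ℕ in Filter.atTop, ∃ A : Set ℕ, (∀ n ∈ A, n.Prime) ∧ ∃ N : ℕ → ℕ,
    (∀ n, X < n → n ≤ X + X / 2 → Changes A X (X / 2) n lam (N n)) ∧
      c * X / lam ^ 2 ≤ ∑ n ∈ Finset.Ioc X (X + X / 2), (N n : ℝ)

/-- Riesz product with the digits in base 4 of the cell `q < 4 ^ M'`, `M ≤ M'`: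
`rp M M' k q = (1 / 2) ∏_{i < k} (1 + ε_i √-1 / √M)`, `ε_i = 1` or `-1` according to the parity of
`q / 4 ^ (M' - 1 - i)`. -/
noncomputable def rp (M M' k q : ℕ) : ℂ :=
  (∏ i ∈ range k, (1 + (-1 : ℂ) ^ (q / 4 ^ (M' - 1 - i)) * Complex.I / (Real.sqrt M : ℂ))) / 2

/-- Riesz product: modulus, increments, and sums over windows of `4 ^ (M' - k) / 2` cells inside
a cell of level `k` -/
def S_RIESZ : Prop := ∀ M M' : ℕ, 1 ≤ M → M ≤ M' →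
  (∀ k q : ℕ, k ≤ M → 1 / 2 ≤ ‖rp M M' k q‖ ∧ ‖rp M M' k q‖ ≤ 9 / 10) ∧
  (∀ k q : ℕ, k + 1 ≤ M → ‖rp M M' (k + 1) q - rp M M' k q‖ = ‖rp M M' k q‖ / Real.sqrt M) ∧
  (∀ k q : ℕ, k < M → q % 4 ^ (M' - k) + 4 ^ (M' - k) / 2 ≤ 4 ^ (M' - k) →
    ∑ m ∈ Ico q (q + 4 ^ (M' - k) / 2), rp M M' M m = ((4 ^ (M' - k) / 2 : ℕ) : ℂ) * rp M M' k q)

/-- sets of primes with prescribed densities on `T` cells of length `(X / 2) / T` -/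
def S_SET : Prop := ∀ T : ℕ, 1 ≤ T → ∀ η : ℝ, 0 < η → ∀ᶠ X : ℕ in Filter.atTop,
  ∀ w : ℕ → ℝ, (∀ c, 0 ≤ w c ∧ w c ≤ 1) → ∃ A : Set ℕ, (∀ n ∈ A, n.Prime) ∧
    ∀ q m v : ℕ, 1 ≤ m → q + m < T → v ≤ (X / 2) / T →
      |density A X (X + q * ((X / 2) / T) + v) (m * ((X / 2) / T)) -
        (∑ c ∈ Ico q (q + m), w c) / m| ≤ η + 2 / m

end Pool.Agent.N610.JV
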