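import Mathlib
import Pool.Agent.N610.JV.Stm

/-!
# Energy identity and neighbouring blocks (helper322, project JV)
-/

set_option autoImplicit false
set_option maxHeartbeats 400000

namespace Pool.Agent.N610.JV

open Finset

namespace DROPNB_

/-- grouping a sum into blocks -/
theorem sum_blocks (f : ℕ → ℝ) (a b : ℕ) :
    ∑ n ∈ range (a * b), f n = ∑ c ∈ range a, ∑ m ∈ range b, f (c * b + m) := by
  induction a with
  | zero => simp
  | succ a ih =>
    rw [Finset.sum_range_succ, ← ih, Nat.succ_mul, Finset.sum_range_add]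

theorem sum_blocks_pow (f : ℕ → ℝ) {j r : ℕ} (h : j ≤ r) :
    ∑ n ∈ range (2 ^ r), f n =
      ∑ c ∈ range (2 ^ (r - j)), ∑ m ∈ range (2 ^ j), f (c * 2 ^ j + m) := by
  rw [← sum_blocks, ← pow_add, Nat.sub_add_cancel h]

theorem div_block (i c m : ℕ) (hm : m < 2 ^ i) : (c * 2 ^ i + m) / 2 ^ i = c := by
  rw [mul_comm, Nat.mul_add_div (by positivity), Nat.div_eq_of_lt hm, Nat.add_zero]

theorem blk_block (G : ℕ → ℝ) (i c m : ℕ) (hm : m < 2 ^ i) :
    blk G i (c * 2 ^ i + m) = S G i c / 2 ^ i := by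
  unfold blk
  rw [div_block i c m hm]

theorem tele (G : ℕ → ℝ) (i c N : ℕ) :
    ∑ a ∈ range N, S G i (c + a) = G ((c + N) * 2 ^ i) - G (c * 2 ^ i) := by
  induction N with
  | zero => simp
  | succ N ih =>
    rw [Finset.sum_range_succ, ih]
    unfold S
    rw [show c + N + 1 = c + (N + 1) by ring]
    ring

/-- the mean of the finer slopes -/
theorem mean (G : ℕ → ℝ) {i j : ℕ} (hij : i ≤ j) (c : ℕ) :
    ∑ m ∈ range (2 ^ j), blk G i (c * 2 ^ j + m) = S G j c := by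
  rw [sum_blocks_pow _ hij]
  have h1 : ∀ a ∈ range (2 ^ (j - i)),
      ∑ m ∈ range (2 ^ i), blk G i (c * 2 ^ j + (a * 2 ^ i + m)) =
        S G i (c * 2 ^ (j - i) + a) := by
    intro a _
    have h2 : ∀ m ∈ range (2 ^ i), blk G i (c * 2 ^ j + (a * 2 ^ i + m)) =
        S G i (c * 2 ^ (j - i) + a) / 2 ^ i := by
      intro m hm
      rw [← blk_block G i _ m (Finset.mem_range.1 hm)]
      congr 1
      have : 2 ^ j = 2 ^ (j - i) * 2 ^ i := by rw [← pow_add, Nat.sub_add_cancel hij]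
      rw [this]
      ring
    rw [Finset.sum_congr rfl h2, Finset.sum_const, card_range, nsmul_eq_mul]
    push_cast
    field_simp
  rw [Finset.sum_congr rfl h1, tele]
  unfold S
  have : 2 ^ j = 2 ^ (j - i) * 2 ^ i := by rw [← pow_add, Nat.sub_add_cancel hij]
  rw [this]
  congr 2 <;> ring

/-- orthogonality -/
theorem cross (G : ℕ → ℝ) {i j r : ℕ} (hij : i ≤ j) (hjr : j ≤ r) :
    ∑ n ∈ range (2 ^ r), blk G i n * blk G j n = En G j r := by
  unfold En
  rw [sum_blocks_pow _ hjr, sum_blocks_pow (fun n => blk G j n ^ 2) hjr]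
  refine Finset.sum_congr rfl fun c _ => ?_
  have h1 : ∀ m ∈ range (2 ^ j), blk G i (c * 2 ^ j + m) * blk G j (c * 2 ^ j + m) =
      blk G i (c * 2 ^ j + m) * (S G j c / 2 ^ j) := fun m hm => by
    rw [blk_block G j c m (Finset.mem_range.1 hm)]
  have h2 : ∀ m ∈ range (2 ^ j), blk G j (c * 2 ^ j + m) ^ 2 =
      blk G j (c * 2 ^ j + m) * (S G j c / 2 ^ j) := fun m hm => by
    rw [blk_block G j c m (Finset.mem_range.1 hm)]
    ring
  rw [Finset.sum_congr rfl h1, Finset.sum_congr rfl h2, ← Finset.sum_mul, ← Finset.sum_mul,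
    mean G hij, mean G le_rfl]

end DROPNB_

open DROPNB_ in
theorem t_DROP : S_DROP := by
  intro G i j r hij hjr
  have h1 : ∀ n ∈ range (2 ^ r), (blk G i n - blk G j n) ^ 2 =
      blk G i n ^ 2 - 2 * (blk G i n * blk G j n) + blk G j n ^ 2 := fun n _ => by ring
  rw [Finset.sum_congr rfl h1, Finset.sum_add_distrib, Finset.sum_sub_distrib, ← Finset.mul_sum,
    cross G hij hjr]
  unfold En
  ring

namespace DROPNB_

/-- the martingale difference -/
noncomputable def dd (G : ℕ → ℝ) (l n : ℕ) : ℝ := blk G l n - blk G (l + 1) n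

/-- the martingale difference on a block -/
noncomputable def xx (G : ℕ → ℝ) (l q : ℕ) : ℝ := S G l q / 2 ^ l - S G (l + 1) (q / 2) / 2 ^ (l + 1)

theorem dd_eq (G : ℕ → ℝ) (l n : ℕ) : dd G l n = xx G l (n / 2 ^ l) := by
  unfold dd xx blk
  rw [Nat.div_div_eq_div_mul, ← pow_succ]

theorem dd_block (G : ℕ → ℝ) (l q m : ℕ) (hm : m < 2 ^ l) :
    dd G l (q * 2 ^ l + m) = xx G l q := by
  rw [dd_eq, div_block l q m hm]

/-- the energy of the martingale difference -/
noncomputable def ee (G : ℕ → ℝ) (r l : ℕ) : ℝ := ∑ n ∈ range (2 ^ (r + 1)), dd G l n ^ 2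

theorem ee_nonneg (G : ℕ → ℝ) (r l : ℕ) : 0 ≤ ee G r l :=
  Finset.sum_nonneg fun _ _ => sq_nonneg _

theorem ee_eq (G : ℕ → ℝ) {r l : ℕ} (h : l ≤ r) :
    ee G r l = 2 ^ l * ∑ q ∈ range (2 ^ (r + 1 - l)), xx G l q ^ 2 := by
  unfold ee
  rw [sum_blocks_pow _ (show l ≤ r + 1 by omega), Finset.mul_sum]
  refine Finset.sum_congr rfl fun q _ => ?_
  have h1 : ∀ m ∈ range (2 ^ l), dd G l (q * 2 ^ l + m) ^ 2 = xx G l q ^ 2 := fun m hm => by
    rw [dd_block G l q m (Finset.mem_range.1 hm)]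
  rw [Finset.sum_congr rfl h1, Finset.sum_const, card_range, nsmul_eq_mul]
  push_cast
  ring

/-- sum of the energies -/
theorem sum_ee (G : ℕ → ℝ) {b r : ℕ} (h : b ≤ r) :
    ∑ l ∈ Ico b (r + 1), ee G r l ≤ En G b (r + 1) := by
  have h1 : ∀ l ∈ Ico b (r + 1), ee G r l = En G l (r + 1) - En G (l + 1) (r + 1) := by
    intro l hl
    rw [Finset.mem_Ico] at hl
    exact t_DROP G l (l + 1) (r + 1) (Nat.le_succ l) (by omega)
  rw [Finset.sum_congr rfl h1]
  have h2 : ∀ N, b ≤ N → ∑ l ∈ Ico b N, (En G l (r + 1) - En G (l + 1) (r + 1)) =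
      En G b (r + 1) - En G N (r + 1) := by
    intro N hN
    induction N, hN using Nat.le_induction with
    | base => simp
    | succ N hN ih =>
      rw [Finset.sum_Ico_succ_top hN, ih]
      ring
  rw [h2 (r + 1) (by omega)]
  have h3 : 0 ≤ En G (r + 1) (r + 1) := Finset.sum_nonneg fun _ _ => sq_nonneg _
  linarith

/-- differences at distance `h` -/
theorem shift_le (G : ℕ → ℝ) {r l h : ℕ} (hl : l ≤ r) (hh : h ≤ 2 ^ l) :
    ∑ n ∈ range (2 ^ r), (dd G l n - dd G l (n + h)) ^ 2 ≤ 4 * h / 2 ^ l * ee G r l := by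
  rw [sum_blocks_pow _ hl]
  have h1 : ∀ q ∈ range (2 ^ (r - l)),
      ∑ m ∈ range (2 ^ l), (dd G l (q * 2 ^ l + m) - dd G l (q * 2 ^ l + m + h)) ^ 2 =
        h * (xx G l q - xx G l (q + 1)) ^ 2 := by
    intro q _
    have h2 : ∀ m ∈ range (2 ^ l),
        (dd G l (q * 2 ^ l + m) - dd G l (q * 2 ^ l + m + h)) ^ 2 =
          if 2 ^ l - h ≤ m then (xx G l q - xx G l (q + 1)) ^ 2 else 0 := by
      intro m hm
      rw [Finset.mem_range] at hm
      rw [dd_block G l q m hm]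
      split_ifs with hc
      · rw [show q * 2 ^ l + m + h = (q + 1) * 2 ^ l + (m + h - 2 ^ l) by
          rw [Nat.add_mul, one_mul]; omega, dd_block G l _ _ (by omega)]
      · rw [show q * 2 ^ l + m + h = q * 2 ^ l + (m + h) by ring, dd_block G l _ _ (by omega)]
        ring
    rw [Finset.sum_congr rfl h2, ← Finset.sum_filter, Finset.sum_const, nsmul_eq_mul]
    congr 1
    have h3 : (range (2 ^ l)).filter (fun m => 2 ^ l - h ≤ m) = Ico (2 ^ l - h) (2 ^ l) := by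
      ext m
      simp only [Finset.mem_filter, Finset.mem_range, Finset.mem_Ico]
      omega
    rw [h3, Nat.card_Ico]
    congr 1
    omega
  rw [Finset.sum_congr rfl h1, ← Finset.mul_sum]
  have h4 : ∑ q ∈ range (2 ^ (r - l)), (xx G l q - xx G l (q + 1)) ^ 2 ≤
      4 * ∑ q ∈ range (2 ^ (r + 1 - l)), xx G l q ^ 2 := by
    have h5 : ∑ q ∈ range (2 ^ (r - l)), (xx G l q - xx G l (q + 1)) ^ 2 ≤
        ∑ q ∈ range (2 ^ (r - l)), (2 * xx G l q ^ 2 + 2 * xx G l (q + 1) ^ 2) := by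
      refine Finset.sum_le_sum fun q _ => ?_
      nlinarith [sq_nonneg (xx G l q + xx G l (q + 1))]
    have hp : 2 ^ (r - l) + 1 ≤ 2 ^ (r + 1 - l) := by
      rw [show r + 1 - l = r - l + 1 by omega, pow_succ]
      have : 1 ≤ 2 ^ (r - l) := Nat.one_le_two_pow
      omega
    have h6 : ∑ q ∈ range (2 ^ (r - l)), xx G l q ^ 2 ≤
        ∑ q ∈ range (2 ^ (r + 1 - l)), xx G l q ^ 2 := by
      refine Finset.sum_le_sum_of_subset_of_nonneg ?_ fun _ _ _ => sq_nonneg _
      intro q hq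
      rw [Finset.mem_range] at hq ⊢
      omega
    have h7 : ∑ q ∈ range (2 ^ (r - l)), xx G l (q + 1) ^ 2 ≤
        ∑ q ∈ range (2 ^ (r + 1 - l)), xx G l q ^ 2 := by
      have h8 := Finset.sum_range_succ' (fun q => xx G l q ^ 2) (2 ^ (r - l))
      have h9 : ∑ q ∈ range (2 ^ (r - l) + 1), xx G l q ^ 2 ≤
          ∑ q ∈ range (2 ^ (r + 1 - l)), xx G l q ^ 2 := by
        refine Finset.sum_le_sum_of_subset_of_nonneg ?_ fun _ _ _ => sq_nonneg _
        intro q hq
        rw [Finset.mem_range] at hq ⊢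
        omega
      have h10 : 0 ≤ xx G l 0 ^ 2 := sq_nonneg _
      linarith
    rw [Finset.sum_add_distrib, ← Finset.mul_sum, ← Finset.mul_sum] at h5
    linarith
  have h5 := ee_eq G hl
  have h6 : (0 : ℝ) ≤ h := by positivity
  calc (h : ℝ) * ∑ q ∈ range (2 ^ (r - l)), (xx G l q - xx G l (q + 1)) ^ 2
      ≤ h * (4 * ∑ q ∈ range (2 ^ (r + 1 - l)), xx G l q ^ 2) :=
        mul_le_mul_of_nonneg_left h4 h6
    _ = 4 * h / 2 ^ l * ee G r l := by
        rw [h5]
        field_simp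

theorem geom (x : ℝ) (h0 : 0 ≤ x) (h1 : x < 1) (N : ℕ) : ∑ m ∈ range N, x ^ m ≤ 1 / (1 - x) := by
  have h2 := geom_sum_eq h1.ne N
  rw [h2, le_div_iff₀ (by linarith)]
  have h3 : (x ^ N - 1) / (x - 1) * (1 - x) = 1 - x ^ N := by
    have : x - 1 ≠ 0 := by linarith
    field_simp
    ring
  rw [h3]
  have := pow_nonneg h0 N
  linarith

/-- weighted Cauchy inequality -/
theorem wcauchy (y : ℕ → ℝ) (N : ℕ) :
    (∑ m ∈ range N, y m) ^ 2 ≤ 3 * ∑ m ∈ range N, (3 / 2 : ℝ) ^ m * y m ^ 2 := by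
  have h1 := Finset.sum_sq_le_sum_mul_sum_of_sq_eq_mul (range N) (r := y)
    (f := fun m => (2 / 3 : ℝ) ^ m) (g := fun m => (3 / 2 : ℝ) ^ m * y m ^ 2)
    (fun m _ => by positivity) (fun m _ => by positivity) (fun m _ => by
      have : (2 / 3 : ℝ) ^ m * (3 / 2 : ℝ) ^ m = 1 := by
        rw [← mul_pow]; norm_num
      rw [← mul_assoc, this, one_mul])
  refine h1.trans ?_
  refine mul_le_mul_of_nonneg_right ?_ (Finset.sum_nonneg fun m _ => by positivity)
  refine (geom (2 / 3) (by norm_num) (by norm_num) N).trans ?_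
  norm_num

/-- the telescoping identity -/
theorem expand (G : ℕ → ℝ) {j r n : ℕ} (hj : j < r) (hn : n < 2 ^ r) :
    blk G (j + 1) n - blk G (j + 1) (n + 2 ^ (j + 1)) =
      ∑ m ∈ range (r - j), (dd G (j + 1 + m) n - dd G (j + 1 + m) (n + 2 ^ (j + 1))) := by
  have h1 : ∀ k N : ℕ, ∑ m ∈ range N, dd G (j + 1 + m) k =
      blk G (j + 1) k - blk G (j + 1 + N) k := by
    intro k N
    induction N with
    | zero => simp
    | succ N ih =>
      rw [Finset.sum_range_succ, ih]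
      unfold dd
      rw [show j + 1 + (N + 1) = j + 1 + N + 1 by ring]
      ring
  rw [Finset.sum_sub_distrib, h1, h1, show j + 1 + (r - j) = r + 1 by omega]
  have h2 : (2 : ℕ) ^ (j + 1) ≤ 2 ^ r := Nat.pow_le_pow_right (by norm_num) hj
  have h3 : (2 : ℕ) ^ (r + 1) = 2 * 2 ^ r := by ring
  have h4 : blk G (r + 1) n = blk G (r + 1) (n + 2 ^ (j + 1)) := by
    unfold blk
    rw [Nat.div_eq_of_lt (by omega), Nat.div_eq_of_lt (by omega)]
  rw [h4]
  ring

/-- one level -/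
theorem level (G : ℕ → ℝ) {j r : ℕ} (hj : j < r) :
    ∑ n ∈ range (2 ^ r), (blk G (j + 1) n - blk G (j + 1) (n + 2 ^ (j + 1))) ^ 2 ≤
      12 * ∑ m ∈ range (r - j), (3 / 4 : ℝ) ^ m * ee G r (j + 1 + m) := by
  have h1 : ∑ n ∈ range (2 ^ r), (blk G (j + 1) n - blk G (j + 1) (n + 2 ^ (j + 1))) ^ 2 ≤
      ∑ n ∈ range (2 ^ r), 3 * ∑ m ∈ range (r - j), (3 / 2 : ℝ) ^ m *
        (dd G (j + 1 + m) n - dd G (j + 1 + m) (n + 2 ^ (j + 1))) ^ 2 := by
    refine Finset.sum_le_sum fun n hn => ?_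
    rw [expand G hj (Finset.mem_range.1 hn)]
    exact wcauchy _ _
  refine h1.trans ?_
  rw [← Finset.mul_sum, Finset.sum_comm, Finset.mul_sum, Finset.mul_sum]
  refine Finset.sum_le_sum fun m hm => ?_
  rw [Finset.mem_range] at hm
  rw [← Finset.mul_sum]
  have h2 := shift_le G (r := r) (l := j + 1 + m) (h := 2 ^ (j + 1)) (by omega)
    (Nat.pow_le_pow_right (by norm_num) (by omega))
  have h3 : (4 : ℝ) * ((2 ^ (j + 1) : ℕ) : ℝ) / 2 ^ (j + 1 + m) = 4 * (1 / 2) ^ m := by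
    push_cast
    rw [pow_add (2 : ℝ) (j + 1) m, one_div, inv_pow]
    field_simp
  rw [h3] at h2
  calc 3 * ((3 / 2 : ℝ) ^ m * ∑ n ∈ range (2 ^ r),
        (dd G (j + 1 + m) n - dd G (j + 1 + m) (n + 2 ^ (j + 1))) ^ 2)
      ≤ 3 * ((3 / 2 : ℝ) ^ m * (4 * (1 / 2) ^ m * ee G r (j + 1 + m))) := by
        gcongr
    _ = 12 * ((3 / 4 : ℝ) ^ m * ee G r (j + 1 + m)) := by
        have : (3 / 4 : ℝ) ^ m = (3 / 2) ^ m * (1 / 2) ^ m := by
          rw [← mul_pow]; norm_num
        rw [this]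
        ring

end DROPNB_

open DROPNB_ in
theorem t_NB (_h : S_DROP) : S_NB := by
  refine ⟨48, by norm_num, ?_⟩
  intro G b r hbr
  have h1 : ∑ j ∈ Ico b r, ∑ n ∈ range (2 ^ r),
      (blk G (j + 1) n - blk G (j + 1) (n + 2 ^ (j + 1))) ^ 2 ≤
      ∑ j ∈ Ico b r, 12 * ∑ m ∈ range r,
        if m < r - j then (3 / 4 : ℝ) ^ m * ee G r (j + 1 + m) else 0 := by
    refine Finset.sum_le_sum fun j hj => ?_
    rw [Finset.mem_Ico] at hj
    refine (level G hj.2).trans (le_of_eq ?_)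
    rw [← Finset.sum_filter]
    congr 2
    ext m
    simp only [Finset.mem_range, Finset.mem_filter]
    omega
  refine h1.trans ?_
  rw [← Finset.mul_sum, Finset.sum_comm]
  have h2 : ∀ m ∈ range r, ∑ j ∈ Ico b r,
      (if m < r - j then (3 / 4 : ℝ) ^ m * ee G r (j + 1 + m) else 0) ≤
        (3 / 4 : ℝ) ^ m * En G b (r + 1) := by
    intro m _
    rw [← Finset.sum_filter, ← Finset.mul_sum]
    refine mul_le_mul_of_nonneg_left ?_ (by positivity)
    refine le_trans ?_ (sum_ee G hbr)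
    have h3 : ∑ j ∈ (Ico b r).filter (fun j => m < r - j), ee G r (j + 1 + m) =
        ∑ l ∈ ((Ico b r).filter (fun j => m < r - j)).image (fun j => j + 1 + m), ee G r l := by
      rw [Finset.sum_image]
      intro x _ y _ hxy
      simp only at hxy
      omega
    rw [h3]
    refine Finset.sum_le_sum_of_subset_of_nonneg ?_ fun _ _ _ => ee_nonneg _ _ _
    intro l hl
    rw [Finset.mem_image] at hl
    obtain ⟨j, hj, rfl⟩ := hl
    rw [Finset.mem_filter, Finset.mem_Ico] at hj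
    rw [Finset.mem_Ico]
    omega
  have h4 : 0 ≤ En G b (r + 1) := Finset.sum_nonneg fun _ _ => sq_nonneg _
  calc 12 * ∑ m ∈ range r, ∑ j ∈ Ico b r,
        (if m < r - j then (3 / 4 : ℝ) ^ m * ee G r (j + 1 + m) else 0)
      ≤ 12 * ∑ m ∈ range r, (3 / 4 : ℝ) ^ m * En G b (r + 1) := by
        refine mul_le_mul_of_nonneg_left (Finset.sum_le_sum h2) (by norm_num)
    _ = 12 * (∑ m ∈ range r, (3 / 4 : ℝ) ^ m) * En G b (r + 1) := by
        rw [← Finset.sum_mul]
        ring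
    _ ≤ 12 * 4 * En G b (r + 1) := by
        refine mul_le_mul_of_nonneg_right ?_ h4
        refine mul_le_mul_of_nonneg_left ?_ (by norm_num)
        refine (geom (3 / 4) (by norm_num) (by norm_num) r).trans ?_
        norm_num
    _ = 48 * En G b (r + 1) := by ring

end Pool.Agent.N610.JV
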