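import Pool.Agent.N610.JV.Stm

set_option autoImplicit false

namespace Pool.Agent.N610.JV.JUMP_

open Finset Pool.Agent.N610.JV

/-- enumeration of a subfamily -/
lemma enum (I : Finset ℕ) (s t : ℕ → ℕ) (a : ℕ → ℝ) (lo hi : ℕ) (lam : ℝ)
    (h : ∀ i ∈ I, lo ≤ s i ∧ s i < t i ∧ t i ≤ hi ∧ lam ≤ |a (t i) - a (s i)|)
    (hord : ∀ i ∈ I, ∀ i' ∈ I, i < i' → t i ≤ s i') : Jumps a lo hi lam I.card := by
  classical
  set e := I.orderEmbOfFin rfl with he
  have hmem : ∀ m, e m ∈ I := fun m => Finset.orderEmbOfFin_mem I rfl m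
  refine ⟨fun m => if hm : m < I.card then s (e ⟨m, hm⟩) else 0,
    fun m => if hm : m < I.card then t (e ⟨m, hm⟩) else 0, ?_, ?_⟩
  · intro m hm
    simp only [dif_pos hm]
    exact h _ (hmem _)
  · intro m hm
    have hm' : m < I.card := by omega
    simp only [dif_pos hm, dif_pos hm']
    apply hord _ (hmem _) _ (hmem _)
    apply e.strictMono
    rw [Fin.lt_def]
    exact Nat.lt_succ_self m

/-- the window of a length -/
def win (r H : ℕ) : ℕ := min (Nat.log 2 H) (r - 1)

lemma win_mono (r : ℕ) {H H' : ℕ} (h : H ≤ H') : win r H ≤ win r H' :=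
  min_le_min (Nat.log_mono_right h) le_rfl

lemma win_spec {b r H : ℕ} (hbr : b < r) (h1 : 2 ^ b ≤ H) (h2 : H ≤ 2 ^ r) :
    b ≤ win r H ∧ win r H < r ∧ 2 ^ win r H ≤ H ∧ H ≤ 2 ^ (win r H + 1) := by
  have hH : H ≠ 0 := by
    have : 0 < 2 ^ b := by positivity
    omega
  have h3 : b ≤ Nat.log 2 H := by
    rw [Nat.le_log_iff_pow_le (by norm_num) hH]
    exact h1
  have h4 : 2 ^ Nat.log 2 H ≤ H := Nat.pow_log_le_self 2 hH
  have h5 : H < 2 ^ (Nat.log 2 H + 1) := Nat.lt_pow_succ_log_self (by norm_num) H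
  unfold win
  refine ⟨le_min h3 (by omega), by omega, ?_, ?_⟩
  · exact (Nat.pow_le_pow_right (by norm_num) (min_le_left _ _)).trans h4
  · rcases le_total (Nat.log 2 H) (r - 1) with h | h
    · rw [min_eq_left h]
      exact h5.le
    · rw [min_eq_right h]
      have : r - 1 + 1 = r := by omega
      rw [this]
      exact h2

lemma Z_nonneg (G : ℕ → ℝ) (b j P : ℕ) (κ : ℝ) : 0 ≤ Z G b j P κ := by
  unfold Z
  positivity

lemma chain {k : ℕ} {s t : ℕ → ℕ} (hst : ∀ i < k, s i < t i) (hord : ∀ i, i + 1 < k → t i ≤ s (i + 1)) :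
    ∀ i i', i < i' → i' < k → t i ≤ s i' := by
  intro i i' hii
  induction i', hii using Nat.le_induction with
  | base => intro h; exact hord i h
  | succ m hm ih =>
    intro h
    have h1 := ih (by omega)
    have h2 := hst m (by omega)
    have h3 := hord m h
    omega

/-- the pointwise inequality -/
lemma point (C1 : ℝ) (hC1 : 0 < C1) (G : ℕ → ℝ) (hG : Monotone G) (b r : ℕ) (hbr : b < r) (n : ℕ)
    (hW : ∀ j : ℕ, b ≤ j → ∀ κ : ℝ, 0 ≤ κ →
    (∀ H : ℕ, 2 ^ j ≤ H → H ≤ 2 ^ (j + 1) →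
      (G (n + H) - G n - κ * H) ^ 2 ≤ C1 * Z G b j (n / 2 ^ (j + 1)) κ) ∧
    (∀ lam : ℝ, 0 < lam → ∀ k : ℕ, Jumps (avg G n) (2 ^ j) (2 ^ (j + 1)) lam k →
      lam ^ 2 * 4 ^ j * k ≤ C1 * Z G b j (n / 2 ^ (j + 1)) κ))
    (lam : ℝ) (hlam : 0 < lam) (k : ℕ) (hk : Jumps (avg G n) (2 ^ b) (2 ^ r) lam k) :
    ∃ km : ℕ, Jumps (fun j => blk G j n) b r (lam / 3) km ∧
      lam ^ 2 * k ≤ 19 * ∑ j ∈ Ico b r, C1 * Z G b j (n / 2 ^ (j + 1)) (blk G (j + 1) n) / 4 ^ j +
        lam ^ 2 * km := by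
  classical
  obtain ⟨s, t, hst, hord⟩ := hk
  set z : ℕ → ℝ := fun j => C1 * Z G b j (n / 2 ^ (j + 1)) (blk G (j + 1) n) / 4 ^ j with hz
  have hz0 : ∀ j, 0 ≤ z j := fun j => by
    have := Z_nonneg G b j (n / 2 ^ (j + 1)) (blk G (j + 1) n)
    simp only [hz]
    positivity
  have hκ0 : ∀ j, 0 ≤ blk G j n := by
    intro j
    unfold blk S
    apply div_nonneg _ (by positivity)
    rw [sub_nonneg]
    exact hG (Nat.mul_le_mul_right _ (Nat.le_succ _))
  have hchain := chain (fun i hi => (hst i hi).2.1) hord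
  set a : ℕ → ℕ := fun i => win r (s i) with ha
  set c : ℕ → ℕ := fun i => win r (t i) with hc
  have hs : ∀ i < k, b ≤ a i ∧ a i < r ∧ 2 ^ a i ≤ s i ∧ s i ≤ 2 ^ (a i + 1) := by
    intro i hi
    obtain ⟨h1, h2, h3, -⟩ := hst i hi
    exact win_spec hbr h1 (by omega)
  have ht : ∀ i < k, b ≤ c i ∧ c i < r ∧ 2 ^ c i ≤ t i ∧ t i ≤ 2 ^ (c i + 1) := by
    intro i hi
    obtain ⟨h1, h2, h3, -⟩ := hst i hi
    exact win_spec hbr (by omega) h3
  have hac : ∀ i < k, a i ≤ c i := fun i hi => win_mono r (hst i hi).2.1.le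
  have hca : ∀ i i', i < i' → i' < k → c i ≤ a i' := fun i i' h1 h2 => win_mono r (hchain i i' h1 h2)
  -- closeness to the block mean
  have hclose : ∀ j, b ≤ j → ∀ H : ℕ, 2 ^ j ≤ H → H ≤ 2 ^ (j + 1) →
      (avg G n H - blk G (j + 1) n) ^ 2 ≤ z j := by
    intro j hj H h1 h2
    have h3 := (hW j hj _ (hκ0 (j + 1))).1 H h1 h2
    have hHpos : (0 : ℝ) < H := by
      have : 0 < 2 ^ j := by positivity
      exact_mod_cast (by omega : 0 < H)
    have hH2 : (4 : ℝ) ^ j ≤ (H : ℝ) ^ 2 := by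
      have : ((2 : ℝ) ^ j) ≤ H := by exact_mod_cast h1
      calc (4 : ℝ) ^ j = ((2 : ℝ) ^ j) ^ 2 := by rw [← pow_mul, mul_comm, pow_mul]; norm_num
        _ ≤ (H : ℝ) ^ 2 := by gcongr
    have e : avg G n H - blk G (j + 1) n = (G (n + H) - G n - blk G (j + 1) n * H) / H := by
      unfold avg
      field_simp
    rw [e, div_pow]
    simp only [hz]
    rw [div_le_div_iff₀ (by positivity) (by positivity)]
    have h4 : 0 ≤ C1 * Z G b j (n / 2 ^ (j + 1)) (blk G (j + 1) n) := (sq_nonneg _).trans h3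
    calc (G (n + H) - G n - blk G (j + 1) n * H) ^ 2 * 4 ^ j
        ≤ (C1 * Z G b j (n / 2 ^ (j + 1)) (blk G (j + 1) n)) * 4 ^ j := by gcongr
      _ ≤ _ := by gcongr
  -- the four classes
  set I := range k with hI
  set I0 := I.filter (fun i => a i = c i) with hI0
  set I1 := I.filter (fun i => a i < c i ∧ lam ^ 2 ≤ 9 * z (c i)) with hI1
  set I2 := I.filter (fun i => a i < c i ∧ lam ^ 2 ≤ 9 * z (a i)) with hI2
  set I3 := I.filter (fun i => a i < c i ∧ lam / 3 ≤ |blk G (c i + 1) n - blk G (a i + 1) n|) with hI3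
  have hcover : I ⊆ I0 ∪ I1 ∪ I2 ∪ I3 := by
    intro i hi
    have hik : i < k := mem_range.1 hi
    simp only [mem_union, hI0, hI1, hI2, hI3, mem_filter]
    by_contra hcon
    push Not at hcon
    obtain ⟨⟨⟨h0, h1⟩, h2⟩, h3⟩ := hcon
    have hlt : a i < c i := lt_of_le_of_ne (hac i hik) (h0 hi)
    have h1' := h1 hi hlt
    have h2' := h2 hi hlt
    have h3' := h3 hi hlt
    obtain ⟨hs1, hs2, hs3, hs4⟩ := hs i hik
    obtain ⟨ht1, ht2, ht3, ht4⟩ := ht i hik
    have hcs := hclose (a i) hs1 (s i) hs3 hs4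
    have hct := hclose (c i) ht1 (t i) ht3 ht4
    have hl3 : (0 : ℝ) < lam / 3 := by positivity
    have e1 : |avg G n (s i) - blk G (a i + 1) n| < lam / 3 := by
      apply abs_lt_of_sq_lt_sq _ hl3.le
      calc _ ≤ z (a i) := hcs
        _ < lam ^ 2 / 9 := by linarith
        _ = (lam / 3) ^ 2 := by ring
    have e2 : |avg G n (t i) - blk G (c i + 1) n| < lam / 3 := by
      apply abs_lt_of_sq_lt_sq _ hl3.le
      calc _ ≤ z (c i) := hct
        _ < lam ^ 2 / 9 := by linarith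
        _ = (lam / 3) ^ 2 := by ring
    have hj := (hst i hik).2.2.2
    have : |avg G n (t i) - avg G n (s i)| < lam := by
      rw [abs_lt] at *
      constructor <;> linarith [e1.1, e1.2, e2.1, e2.2, h3'.1, h3'.2]
    linarith
  -- counting
  have hc0 : lam ^ 2 * I0.card ≤ ∑ j ∈ Ico b r, z j := by
    have h1 : (I0.card : ℝ) = ∑ j ∈ Ico b r, ((I0.filter (fun i => a i = j)).card : ℝ) := by
      rw [← Nat.cast_sum]
      congr 1
      apply Finset.card_eq_sum_card_fiberwise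
      intro i hi
      rw [Finset.mem_coe, hI0, mem_filter, hI, mem_range] at hi
      rw [Finset.mem_coe, mem_Ico]
      exact ⟨(hs i hi.1).1, (hs i hi.1).2.1⟩
    rw [h1, Finset.mul_sum]
    apply Finset.sum_le_sum
    intro j hj
    rw [mem_Ico] at hj
    have hJ : Jumps (avg G n) (2 ^ j) (2 ^ (j + 1)) lam (I0.filter (fun i => a i = j)).card := by
      apply enum _ s t
      · intro i hi
        rw [mem_filter, hI0, mem_filter, hI, mem_range] at hi
        obtain ⟨⟨hik, hac'⟩, haj⟩ := hi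
        obtain ⟨hs1, hs2, hs3, hs4⟩ := hs i hik
        obtain ⟨ht1, ht2, ht3, ht4⟩ := ht i hik
        rw [← haj]
        refine ⟨hs3, (hst i hik).2.1, ?_, (hst i hik).2.2.2⟩
        rw [hac']
        exact ht4
      · intro i hi i' hi' hii
        rw [mem_filter, hI0, mem_filter, hI, mem_range] at hi'
        exact hchain i i' hii hi'.1.1
    have h2 := (hW j hj.1 _ (hκ0 (j + 1))).2 lam hlam _ hJ
    simp only [hz]
    rw [le_div_iff₀ (by positivity)]
    linarith
  have hinj_c : Set.InjOn c (I1 : Set ℕ) := by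
    intro i hi i' hi' hcc
    rw [Finset.mem_coe, hI1, mem_filter, hI, mem_range] at hi hi'
    rcases lt_trichotomy i i' with h | h | h
    · have := hca i i' h hi'.1
      have := hi'.2.1
      omega
    · exact h
    · have := hca i' i h hi.1
      have := hi.2.1
      omega
  have hinj_a : Set.InjOn a (I2 : Set ℕ) := by
    intro i hi i' hi' hcc
    rw [Finset.mem_coe, hI2, mem_filter, hI, mem_range] at hi hi'
    rcases lt_trichotomy i i' with h | h | h
    · have := hca i i' h hi'.1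
      have := hi.2.1
      omega
    · exact h
    · have := hca i' i h hi.1
      have := hi'.2.1
      omega
  have hc1 : lam ^ 2 * I1.card ≤ 9 * ∑ j ∈ Ico b r, z j := by
    calc lam ^ 2 * I1.card = ∑ i ∈ I1, lam ^ 2 := by rw [Finset.sum_const, nsmul_eq_mul]; ring
      _ ≤ ∑ i ∈ I1, 9 * z (c i) := by
        apply Finset.sum_le_sum
        intro i hi
        rw [hI1, mem_filter] at hi
        exact hi.2.2
      _ = 9 * ∑ i ∈ I1, z (c i) := by rw [Finset.mul_sum]
      _ = 9 * ∑ j ∈ I1.image c, z j := by rw [Finset.sum_image hinj_c]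
      _ ≤ 9 * ∑ j ∈ Ico b r, z j := by
        apply mul_le_mul_of_nonneg_left _ (by norm_num)
        apply Finset.sum_le_sum_of_subset_of_nonneg
        · intro j hj
          rw [mem_image] at hj
          obtain ⟨i, hi, rfl⟩ := hj
          rw [hI1, mem_filter, hI, mem_range] at hi
          rw [mem_Ico]
          exact ⟨(ht i hi.1).1, (ht i hi.1).2.1⟩
        · intro j _ _
          exact hz0 j
  have hc2 : lam ^ 2 * I2.card ≤ 9 * ∑ j ∈ Ico b r, z j := by
    calc lam ^ 2 * I2.card = ∑ i ∈ I2, lam ^ 2 := by rw [Finset.sum_const, nsmul_eq_mul]; ring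
      _ ≤ ∑ i ∈ I2, 9 * z (a i) := by
        apply Finset.sum_le_sum
        intro i hi
        rw [hI2, mem_filter] at hi
        exact hi.2.2
      _ = 9 * ∑ i ∈ I2, z (a i) := by rw [Finset.mul_sum]
      _ = 9 * ∑ j ∈ I2.image a, z j := by rw [Finset.sum_image hinj_a]
      _ ≤ 9 * ∑ j ∈ Ico b r, z j := by
        apply mul_le_mul_of_nonneg_left _ (by norm_num)
        apply Finset.sum_le_sum_of_subset_of_nonneg
        · intro j hj
          rw [mem_image] at hj
          obtain ⟨i, hi, rfl⟩ := hj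
          rw [hI2, mem_filter, hI, mem_range] at hi
          rw [mem_Ico]
          exact ⟨(hs i hi.1).1, (hs i hi.1).2.1⟩
        · intro j _ _
          exact hz0 j
  refine ⟨I3.card, ?_, ?_⟩
  · apply enum _ (fun i => a i + 1) (fun i => c i + 1)
    · intro i hi
      rw [hI3, mem_filter, hI, mem_range] at hi
      obtain ⟨hs1, hs2, hs3, hs4⟩ := hs i hi.1
      obtain ⟨ht1, ht2, ht3, ht4⟩ := ht i hi.1
      refine ⟨by omega, by omega, by omega, hi.2.2⟩
    · intro i hi i' hi' hii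
      rw [hI3, mem_filter, hI, mem_range] at hi'
      have := hca i i' hii hi'.1
      omega
  · have hcard : (k : ℝ) ≤ I0.card + I1.card + I2.card + I3.card := by
      have h1 := (Finset.card_le_card hcover).trans (Finset.card_union_le _ _)
      have h2 := Finset.card_union_le (I0 ∪ I1) I2
      have h3 := Finset.card_union_le I0 I1
      have h4 : I.card = k := by rw [hI, card_range]
      have : k ≤ I0.card + I1.card + I2.card + I3.card := by omega
      exact_mod_cast this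
    have hl2 : 0 ≤ lam ^ 2 := sq_nonneg _
    calc lam ^ 2 * k ≤ lam ^ 2 * (I0.card + I1.card + I2.card + I3.card) := by gcongr
      _ = lam ^ 2 * I0.card + lam ^ 2 * I1.card + lam ^ 2 * I2.card + lam ^ 2 * I3.card := by ring
      _ ≤ _ := by linarith

lemma En_nonneg (G : ℕ → ℝ) (b r : ℕ) : 0 ≤ En G b r := Finset.sum_nonneg fun _ _ => sq_nonneg _

lemma En_mono (G : ℕ → ℝ) (b r : ℕ) : En G b r ≤ En G b (r + 1) := by
  unfold En
  apply Finset.sum_le_sum_of_subset_of_nonneg
  · apply Finset.range_subset_range.2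
    exact Nat.pow_le_pow_right (by norm_num) (Nat.le_succ r)
  · intro i _ _
    positivity

/-- sum over the points of the blocks -/
lemma sum_blocks (f : ℕ → ℝ) (j r : ℕ) (hj : j < r) :
    ∑ n ∈ range (2 ^ r), f (n / 2 ^ (j + 1)) = 2 ^ (j + 1) * ∑ P ∈ range (2 ^ (r - j - 1)), f P := by
  have e : 2 ^ r = 2 ^ (j + 1) * 2 ^ (r - j - 1) := by
    rw [← pow_add]
    congr 1
    omega
  rw [e]
  generalize 2 ^ (r - j - 1) = m
  have hpos : 0 < 2 ^ (j + 1) := by positivity
  induction m with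
  | zero => simp
  | succ m ih =>
    have h1 : ∑ x ∈ range (2 ^ (j + 1)), f ((2 ^ (j + 1) * m + x) / 2 ^ (j + 1)) =
        2 ^ (j + 1) * f m := by
      rw [Finset.sum_congr rfl (g := fun _ => f m)]
      · rw [Finset.sum_const, card_range, nsmul_eq_mul]
        push_cast
        ring
      · intro i hi
        rw [mem_range] at hi
        congr 1
        rw [Nat.mul_add_div hpos, Nat.div_eq_of_lt hi, add_zero]
    rw [Finset.sum_range_succ, Nat.mul_succ, Finset.sum_range_add, ih, h1]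
    ring

end Pool.Agent.N610.JV.JUMP_

namespace Pool.Agent.N610.JV

open Finset Pool.Agent.N610.JV.JUMP_

theorem t_JUMP (hM : S_MART) (hW : S_WIN) (hS : S_SUM) : S_JUMP := by
  obtain ⟨C1, hC1, hW⟩ := hW
  obtain ⟨C2, hC2, hS⟩ := hS
  refine ⟨19 * C1 * C2 + 36, by positivity, ?_⟩
  intro G hG b r hbr lam hlam N hN
  have hE := En_nonneg G b (r + 1)
  rcases Nat.eq_or_lt_of_le hbr with h | hlt
  · have hN0 : ∀ n < 2 ^ r, N n = 0 := by
      intro n hn
      by_contra h0
      obtain ⟨s, t, h1, -⟩ := hN n hn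
      obtain ⟨g1, g2, g3, -⟩ := h1 0 (Nat.pos_of_ne_zero h0)
      rw [h] at g1
      omega
    rw [Finset.sum_eq_zero]
    · rw [mul_zero]
      positivity
    · intro n hn
      rw [hN0 n (mem_range.1 hn), Nat.cast_zero]
  · have hp : ∀ n : ℕ, ∃ km : ℕ, n < 2 ^ r → (Jumps (fun j => blk G j n) b r (lam / 3) km ∧
        lam ^ 2 * N n ≤ 19 * ∑ j ∈ Ico b r, C1 * Z G b j (n / 2 ^ (j + 1)) (blk G (j + 1) n) / 4 ^ j +
          lam ^ 2 * km) := by
      intro n
      by_cases hn : n < 2 ^ r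
      · obtain ⟨km, h⟩ := point C1 hC1 G hG b r hlt n (fun j hj κ hκ => hW G hG b j hj n κ hκ) lam hlam
          (N n) (hN n hn)
        exact ⟨km, fun _ => h⟩
      · exact ⟨0, fun h => absurd h hn⟩
    choose km hkm using hp
    have h1 := hM G b r hbr (lam / 3) (by positivity) km (fun n hn => (hkm n hn).1)
    have h2 : lam ^ 2 * ∑ n ∈ range (2 ^ r), (N n : ℝ) ≤
        ∑ n ∈ range (2 ^ r), (19 * ∑ j ∈ Ico b r,
          C1 * Z G b j (n / 2 ^ (j + 1)) (blk G (j + 1) n) / 4 ^ j + lam ^ 2 * km n) := by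
      rw [Finset.mul_sum]
      apply Finset.sum_le_sum
      intro n hn
      exact (hkm n (mem_range.1 hn)).2
    have h3 : ∑ n ∈ range (2 ^ r), ∑ j ∈ Ico b r,
          C1 * Z G b j (n / 2 ^ (j + 1)) (blk G (j + 1) n) / 4 ^ j ≤ C1 * (C2 * En G b (r + 1)) := by
      rw [Finset.sum_comm]
      refine le_trans (le_of_eq ?_) (mul_le_mul_of_nonneg_left (hS G hG b r hbr) hC1.le)
      rw [Finset.mul_sum]
      apply Finset.sum_congr rfl
      intro j hj
      rw [mem_Ico] at hj
      have := sum_blocks (fun P => C1 * Z G b j P (S G (j + 1) P / 2 ^ (j + 1)) / 4 ^ j) j r hj.2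
      unfold blk
      rw [this, Finset.mul_sum, Finset.mul_sum]
      apply Finset.sum_congr rfl
      intro P _
      ring
    have h4 := En_mono G b r
    rw [Finset.sum_add_distrib, ← Finset.mul_sum, ← Finset.mul_sum] at h2
    have h5 : lam ^ 2 * ∑ n ∈ range (2 ^ r), (km n : ℝ) ≤ 36 * En G b (r + 1) := by
      have : (lam / 3) ^ 2 * ∑ n ∈ range (2 ^ r), (km n : ℝ) =
        (lam ^ 2 * ∑ n ∈ range (2 ^ r), (km n : ℝ)) / 9 := by ring
      rw [this] at h1
      linarith
    calc _ ≤ _ := h2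
      _ ≤ 19 * (C1 * (C2 * En G b (r + 1))) + 36 * En G b (r + 1) := by gcongr
      _ = _ := by ring

end Pool.Agent.N610.JV
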