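import Pool.Agent.N610.JV.Stm

set_option autoImplicit false

/-!
# Project JV (helper610), task LOW (helper247): the exponent two is optimal
-/

namespace Pool.Agent.N610.JV.LOW_

open Finset Pool.Agent.N610.JV

theorem changes_of {A : Set ℕ} {X Y n : ℕ} {lam : ℝ} {H : ℕ → ℕ} (hH : Antitone H)
    (K : Finset ℕ) (hK : ∀ k ∈ K, Real.log X ≤ H (k + 1) ∧ H (k + 1) < H k ∧ H k ≤ Y ∧
      lam ≤ |density A X n (H k) - density A X n (H (k + 1))|) :
    ∃ s t : ℕ → ℕ, (∀ i < K.card, Real.log X ≤ s i ∧ s i < t i ∧ t i ≤ Y ∧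
      lam ≤ |density A X n (t i) - density A X n (s i)|) ∧
    (∀ i, i + 1 < K.card → t i ≤ s (i + 1)) ∧ ∀ i < K.card, ∃ k ∈ K, t i = H k := by
  induction K using Finset.induction_on_min with
  | empty => exact ⟨fun _ => 0, fun _ => 0, by simp, by simp, by simp⟩
  | insert a K ha ih =>
    obtain ⟨s, t, h1, h2, h3⟩ := ih (fun k hk => hK k (mem_insert_of_mem hk))
    have haK : a ∉ K := fun h => lt_irrefl _ (ha a h)
    rw [card_insert_of_notMem haK]
    refine ⟨fun i => if i = K.card then H (a + 1) else s i,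
      fun i => if i = K.card then H a else t i, ?_, ?_, ?_⟩
    · intro i hi
      by_cases h : i = K.card
      · simp only [if_pos h]
        exact hK a (mem_insert_self _ _)
      · simp only [if_neg h]
        exact h1 i (by omega)
    · intro i hi
      have h4 : ¬ i = K.card := by omega
      simp only [if_neg h4]
      by_cases h : i + 1 = K.card
      · simp only [if_pos h]
        obtain ⟨k, hk, e⟩ := h3 i (by omega)
        rw [e]
        exact hH (ha k hk)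
      · simp only [if_neg h]
        exact h2 i (by omega)
    · intro i hi
      by_cases h : i = K.card
      · exact ⟨a, mem_insert_self _ _, by simp [h]⟩
      · obtain ⟨k, hk, e⟩ := h3 i (by omega)
        exact ⟨k, mem_insert_of_mem hk, by simp only [if_neg h]; exact e⟩

theorem count_good (K b : ℕ) (hb : 0 < b) : K * (2 * b) ≤
    ((range (K * (8 * b))).filter (fun q => q % (8 * b) < 4 * b ∧ q % (2 * b) < b)).card := by
  have e : K * (2 * b) = (range K ×ˢ (range 2 ×ˢ range b)).card := by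
    rw [card_product, card_product, card_range, card_range, card_range]
  rw [e]
  have m1 : ∀ j e i : ℕ, e < 2 → i < b → (8 * b * j + (2 * b * e + i)) % (8 * b) = 2 * b * e + i := by
    intro j e i he hi
    rw [Nat.mul_add_mod]
    apply Nat.mod_eq_of_lt
    interval_cases e <;> omega
  have m2 : ∀ j e i : ℕ, i < b → (8 * b * j + (2 * b * e + i)) % (2 * b) = i := by
    intro j e i hi
    have : 8 * b * j + (2 * b * e + i) = 2 * b * (4 * j + e) + i := by ring
    rw [this, Nat.mul_add_mod]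
    exact Nat.mod_eq_of_lt (by omega)
  have m3 : ∀ j e i : ℕ, e < 2 → i < b → (8 * b * j + (2 * b * e + i)) / (8 * b) = j := by
    intro j e i he hi
    rw [Nat.mul_add_div (by omega), Nat.div_eq_of_lt, add_zero]
    interval_cases e <;> omega
  have m4 : ∀ j e i : ℕ, i < b → (8 * b * j + (2 * b * e + i)) / (2 * b) = 4 * j + e := by
    intro j e i hi
    have : 8 * b * j + (2 * b * e + i) = 2 * b * (4 * j + e) + i := by ring
    rw [this, Nat.mul_add_div (by omega), Nat.div_eq_of_lt (by omega), add_zero]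
  refine card_le_card_of_injOn (fun p => 8 * b * p.1 + (2 * b * p.2.1 + p.2.2)) ?_ ?_
  · rintro ⟨j, e, i⟩ h
    simp only [coe_product, Set.mem_prod, mem_coe, mem_range] at h
    obtain ⟨hj, he, hi⟩ := h
    simp only [coe_filter, Set.mem_ofPred_eq, mem_range]
    rw [m1 j e i he hi, m2 j e i hi]
    refine ⟨?_, ?_, hi⟩
    · have h1 : K * (8 * b) = 8 * b * K := by ring
      have h2 : 8 * b * (j + 1) ≤ 8 * b * K := Nat.mul_le_mul_left _ hj
      have h3 : 8 * b * (j + 1) = 8 * b * j + 8 * b := by ring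
      rw [h1]
      refine lt_of_lt_of_le ?_ h2
      rw [h3]
      interval_cases e <;> omega
    · interval_cases e <;> omega
  · rintro ⟨j, e, i⟩ h ⟨j', e', i'⟩ h' heq
    simp only [coe_product, Set.mem_prod, mem_coe, mem_range] at h h'
    obtain ⟨hj, he, hi⟩ := h
    obtain ⟨hj', he', hi'⟩ := h'
    simp only at heq
    have e1 := m3 j e i he hi
    rw [heq, m3 j' e' i' he' hi'] at e1
    have e2 := m2 j e i hi
    rw [heq, m2 j' e' i' hi'] at e2
    have e3 := m4 j e i hi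
    rw [heq, m4 j' e' i' hi'] at e3
    subst e1 e2
    have : e' = e := by omega
    rw [this]

/-- the window starting at the cell `q` stays in the cell of level `k` -/
def gd (M' k q : ℕ) : Prop := q % 4 ^ (M' - k) < 4 ^ (M' - k) / 2

instance (M' k q : ℕ) : Decidable (gd M' k q) := inferInstanceAs (Decidable (_ < _))

theorem card_gd (M' k : ℕ) (h : k + 2 ≤ M') :
    4 ^ M' ≤ 4 * ((range (4 ^ M')).filter (fun q => gd M' k q ∧ gd M' (k + 1) q)).card := by
  obtain ⟨a, rfl⟩ := Nat.exists_eq_add_of_le h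
  have e1 : k + 2 + a - k = a + 2 := by omega
  have e2 : k + 2 + a - (k + 1) = a + 1 := by omega
  have e3 : 4 ^ (k + 2 + a) = 4 ^ k * (8 * (2 * 4 ^ a)) := by
    rw [pow_add, pow_add]; ring
  have e4 : (4 : ℕ) ^ (a + 2) = 8 * (2 * 4 ^ a) := by
    rw [pow_add]; ring
  have e5 : (4 : ℕ) ^ (a + 1) = 2 * (2 * 4 ^ a) := by
    rw [pow_add]; ring
  have hp : 0 < 4 ^ a := by positivity
  have hc := count_good (4 ^ k) (2 * 4 ^ a) (by omega)
  have hset : ((range (4 ^ (k + 2 + a))).filter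
      (fun q => gd (k + 2 + a) k q ∧ gd (k + 2 + a) (k + 1) q)) =
      ((range (4 ^ k * (8 * (2 * 4 ^ a)))).filter
        (fun q => q % (8 * (2 * 4 ^ a)) < 4 * (2 * 4 ^ a) ∧ q % (2 * (2 * 4 ^ a)) < 2 * 4 ^ a)) := by
    rw [e3]
    apply filter_congr
    intro q _
    unfold gd
    rw [e1, e2, e4, e5]
    have e6 : 8 * (2 * 4 ^ a) / 2 = 4 * (2 * 4 ^ a) := by omega
    have e7 : 2 * (2 * 4 ^ a) / 2 = 2 * 4 ^ a := by omega
    rw [e6, e7]
  rw [hset]
  refine le_trans (le_of_eq ?_) (Nat.mul_le_mul_left 4 hc)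
  rw [e3]
  ring

/-- the sum over the good pairs -/
theorem sum_gd (M M' : ℕ) (hM : M ≤ M') :
    (M - 1) * 4 ^ M' ≤ 4 * ∑ q ∈ range (4 ^ M'),
      ((range (M - 1)).filter (fun k => gd M' k q ∧ gd M' (k + 1) q)).card := by
  have e : ∑ q ∈ range (4 ^ M'),
      ((range (M - 1)).filter (fun k => gd M' k q ∧ gd M' (k + 1) q)).card =
      ∑ k ∈ range (M - 1),
        ((range (4 ^ M')).filter (fun q => gd M' k q ∧ gd M' (k + 1) q)).card := by
    simp only [card_filter]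
    rw [sum_comm]
  rw [e, mul_sum]
  have h : ∑ k ∈ range (M - 1), 4 ^ M' ≤ ∑ k ∈ range (M - 1),
      4 * ((range (4 ^ M')).filter (fun q => gd M' k q ∧ gd M' (k + 1) q)).card := by
    refine sum_le_sum fun k hk => card_gd M' k ?_
    rw [mem_range] at hk
    omega
  rw [sum_const, card_range, smul_eq_mul] at h
  exact h

/-- lengths -/
def HH (M' W k : ℕ) : ℕ := 4 ^ (M' - k) / 2 * W

theorem HH_anti (M' W : ℕ) : Antitone (HH M' W) := by
  intro a b hab
  unfold HH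
  refine Nat.mul_le_mul_right _ (Nat.div_le_div_right ?_)
  exact Nat.pow_le_pow_right (by norm_num) (by omega)

theorem HH_lt {M' W k : ℕ} (hW : 0 < W) (hk : k + 1 < M') : HH M' W (k + 1) < HH M' W k := by
  unfold HH
  refine Nat.mul_lt_mul_of_pos_right ?_ hW
  obtain ⟨a, rfl⟩ := Nat.exists_eq_add_of_lt hk
  have e1 : k + 1 + a + 1 - (k + 1) = a + 1 := by omega
  have e2 : k + 1 + a + 1 - k = a + 2 := by omega
  rw [e1, e2, pow_add, pow_add]
  have : 0 < 4 ^ a := by positivity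
  omega

section

variable {M M' X : ℕ} {A : Set ℕ} (φ : ℂ →ₗ[ℝ] ℝ)

/-- the set has the prescribed densities -/
def Pres (M M' X : ℕ) (A : Set ℕ) (φ : ℂ →ₗ[ℝ] ℝ) : Prop :=
  ∀ q m v : ℕ, 1 ≤ m → q + m < 4 ^ M' → v ≤ (X / 2) / 4 ^ M' →
    |density A X (X + q * ((X / 2) / 4 ^ M') + v) (m * ((X / 2) / 4 ^ M')) -
      (∑ c ∈ Ico q (q + m), (1 / 2 + φ (rp M M' M c) / 2)) / m| ≤
        1 / 100 / Real.sqrt M + 2 / m

theorem one_ (hR : S_RIESZ) (hM : 1 ≤ M) (hMM : M ≤ M')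
    (h400 : 400 * Real.sqrt M ≤ 4 ^ (M' - M)) (hA : Pres M M' X A φ) {k q v : ℕ} (hk : k < M)
    (hq : q < 4 ^ M') (hv : v ≤ (X / 2) / 4 ^ M') (hg : gd M' k q) :
    |density A X (X + q * ((X / 2) / 4 ^ M') + v) (HH M' ((X / 2) / 4 ^ M') k) -
      (1 / 2 + φ (rp M M' k q) / 2)| ≤ 3 / 200 / Real.sqrt M := by
  have hsq : 0 < Real.sqrt M := Real.sqrt_pos.2 (by exact_mod_cast hM)
  obtain ⟨a, ha⟩ : ∃ a, M' - k = a + 1 := ⟨M' - k - 1, by omega⟩
  set m : ℕ := 4 ^ (M' - k) / 2 with hm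
  have hl : 4 ^ (M' - k) = 4 * 4 ^ a := by rw [ha, pow_succ]; ring
  have hpa : 0 < 4 ^ a := by positivity
  have hm2 : m = 2 * 4 ^ a := by rw [hm, hl]; omega
  have hm1 : 1 ≤ m := by omega
  unfold gd at hg
  -- the window is contained in the range of the cells
  have hqm : q + m < 4 ^ M' := by
    have hdvd : 4 ^ (M' - k) ∣ 4 ^ M' := pow_dvd_pow 4 (by omega)
    obtain ⟨t, ht⟩ := hdvd
    have h1 := Nat.div_add_mod q (4 ^ (M' - k))
    have h2 : q / 4 ^ (M' - k) < t := by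
      apply Nat.div_lt_of_lt_mul
      rw [← ht]; exact hq
    have h3 : 4 ^ (M' - k) * (q / 4 ^ (M' - k) + 1) ≤ 4 ^ (M' - k) * t :=
      Nat.mul_le_mul_left _ h2
    rw [← ht, mul_add, mul_one] at h3
    have h4 : q % 4 ^ (M' - k) + m < 4 ^ (M' - k) := by
      rw [← hm] at hg
      have : m + m = 4 ^ (M' - k) := by rw [hm2, hl]; ring
      omega
    omega
  have h1 := hA q m v hm1 hqm hv
  have h2 := (hR M M' hM hMM).2.2 k q hk (by rw [← hm] at hg ⊢; omega)
  rw [← hm] at h2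
  have hmR : (0 : ℝ) < m := by exact_mod_cast hm1
  have e1 : (∑ c ∈ Ico q (q + m), (1 / 2 + φ (rp M M' M c) / 2)) / (m : ℝ) =
      1 / 2 + φ (rp M M' k q) / 2 := by
    rw [sum_add_distrib, sum_const, ← sum_div, ← map_sum, h2, Nat.card_Ico]
    have e2 : ((m : ℕ) : ℂ) * rp M M' k q = (m : ℝ) • rp M M' k q := by
      rw [Complex.real_smul]; push_cast; rfl
    rw [e2, map_smul, smul_eq_mul, nsmul_eq_mul, Nat.add_sub_cancel_left]
    field_simp
  rw [e1] at h1
  refine h1.trans ?_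
  have h3 : 800 * Real.sqrt M ≤ m := by
    have h4 : (4 : ℝ) ^ (M' - M) ≤ 4 ^ a := pow_le_pow_right₀ (by norm_num) (by omega)
    have h5 : (m : ℝ) = 2 * 4 ^ a := by rw [hm2]; push_cast; ring
    rw [h5]
    linarith
  have h6 : (2 : ℝ) / m ≤ 1 / 400 / Real.sqrt M := by
    rw [div_div, div_le_div_iff₀ hmR (by positivity)]
    linarith
  have h7 : (1 : ℝ) / 100 / Real.sqrt M + 1 / 400 / Real.sqrt M ≤ 3 / 200 / Real.sqrt M := by
    rw [← add_div]
    gcongr
    norm_num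
  linarith

/-- the indices of the changes -/
noncomputable def KK (M M' : ℕ) (φ : ℂ →ₗ[ℝ] ℝ) (q : ℕ) : Finset ℕ := by
  classical
  exact (range (M - 1)).filter (fun k => gd M' k q ∧ gd M' (k + 1) q ∧
    35 / 100 / Real.sqrt M ≤ |φ (rp M M' (k + 1) q - rp M M' k q)|)

theorem changes_ (hR : S_RIESZ) (hM : 1 ≤ M) (hMM : M ≤ M')
    (h400 : 400 * Real.sqrt M ≤ 4 ^ (M' - M)) (hA : Pres M M' X A φ) {q v : ℕ}
    (hq : q < 4 ^ M') (hv : v ≤ (X / 2) / 4 ^ M') {lam : ℝ} (hlam : lam ≤ 1 / 20 / Real.sqrt M)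
    (hW : Real.log X ≤ ((X / 2) / 4 ^ M' : ℕ)) (hW0 : 0 < (X / 2) / 4 ^ M') :
    Changes A X (X / 2) (X + q * ((X / 2) / 4 ^ M') + v) lam (KK M M' φ q).card := by
  classical
  obtain ⟨s, t, h1, h2, -⟩ := changes_of (A := A) (X := X) (Y := X / 2)
    (n := X + q * ((X / 2) / 4 ^ M') + v) (lam := lam) (HH_anti M' ((X / 2) / 4 ^ M'))
    (KK M M' φ q) (by
      intro k hk
      unfold KK at hk
      rw [mem_filter, mem_range] at hk
      obtain ⟨hk, g1, g2, hl⟩ := hk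
      refine ⟨?_, HH_lt hW0 (by omega), ?_, ?_⟩
      · refine hW.trans ?_
        have : 1 * ((X / 2) / 4 ^ M') ≤ HH M' ((X / 2) / 4 ^ M') (k + 1) := by
          unfold HH
          refine Nat.mul_le_mul_right _ ?_
          obtain ⟨a, ha⟩ : ∃ a, M' - (k + 1) = a + 1 := ⟨M' - (k + 1) - 1, by omega⟩
          rw [ha, pow_succ]
          have : 0 < 4 ^ a := by positivity
          omega
        rw [one_mul] at this
        exact_mod_cast this
      · unfold HH
        refine le_trans (Nat.mul_le_mul_right _ ?_) (Nat.mul_div_le (X / 2) (4 ^ M'))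
        exact (Nat.div_le_self _ _).trans (Nat.pow_le_pow_right (by norm_num) (by omega))
      · have a1 := one_ φ hR hM hMM h400 hA (k := k) (by omega) hq hv g1
        have a2 := one_ φ hR hM hMM h400 hA (k := k + 1) (by omega) hq hv g2
        set D1 := density A X (X + q * ((X / 2) / 4 ^ M') + v) (HH M' ((X / 2) / 4 ^ M') k)
        set D2 := density A X (X + q * ((X / 2) / 4 ^ M') + v) (HH M' ((X / 2) / 4 ^ M') (k + 1))
        rw [map_sub] at hl
        set p1 := φ (rp M M' k q)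
        set p2 := φ (rp M M' (k + 1) q)
        have hsq : 0 < Real.sqrt M := Real.sqrt_pos.2 (by exact_mod_cast hM)
        set z := 1 / Real.sqrt M with hz
        have e1 : (35 : ℝ) / 100 / Real.sqrt M = 35 / 100 * z := by rw [hz]; ring
        have e2 : (3 : ℝ) / 200 / Real.sqrt M = 3 / 200 * z := by rw [hz]; ring
        have e3 : (1 : ℝ) / 20 / Real.sqrt M = 1 / 20 * z := by rw [hz]; ring
        have hz0 : 0 < z := by positivity
        rw [e1] at hl
        rw [e2] at a1 a2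
        rw [e3] at hlam
        rw [abs_le] at a1 a2
        rcases le_abs.1 hl with hl | hl
        · refine le_abs.2 (Or.inr ?_)
          linarith [a1.1, a1.2, a2.1, a2.2]
        · refine le_abs.2 (Or.inl ?_)
          linarith [a1.1, a1.2, a2.1, a2.2])
  exact ⟨s, t, h1, h2⟩

end

theorem card_KK (hR : S_RIESZ) {M M' : ℕ} (hM : 1 ≤ M) (hMM : M ≤ M') (q : ℕ) :
    ((range (M - 1)).filter (fun k => gd M' k q ∧ gd M' (k + 1) q)).card ≤
      (KK M M' Complex.reLm q).card + (KK M M' Complex.imLm q).card := by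
  classical
  refine le_trans (card_le_card ?_) (card_union_le _ _)
  intro k hk
  rw [mem_filter, mem_range] at hk
  obtain ⟨hk, g1, g2⟩ := hk
  have hsq : 0 < Real.sqrt M := Real.sqrt_pos.2 (by exact_mod_cast hM)
  have h1 := ((hR M M' hM hMM).1 k q (by omega)).1
  have h2 := (hR M M' hM hMM).2.1 k q (by omega)
  rw [mem_union]
  unfold KK
  rw [mem_filter, mem_filter, mem_range]
  set z := rp M M' (k + 1) q - rp M M' k q with hz
  have h3 : 1 / 2 / Real.sqrt M ≤ ‖z‖ := by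
    rw [h2]
    gcongr
  by_contra hcon
  push Not at hcon
  obtain ⟨c1, c2⟩ := hcon
  have c1' := c1 hk g1 g2
  have c2' := c2 hk g1 g2
  have e1 : Complex.reLm z = z.re := rfl
  have e2 : Complex.imLm z = z.im := rfl
  rw [e1] at c1'
  rw [e2] at c2'
  have h4 := Complex.sq_norm z
  rw [Complex.normSq_apply] at h4
  set y := 1 / Real.sqrt M with hy
  have hy0 : 0 < y := by positivity
  have f1 : (35 : ℝ) / 100 / Real.sqrt M = 35 / 100 * y := by rw [hy]; ring
  have f2 : (1 : ℝ) / 2 / Real.sqrt M = 1 / 2 * y := by rw [hy]; ring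
  rw [f1] at c1' c2'
  rw [f2] at h3
  have h5 : (1 / 2 * y) ^ 2 ≤ ‖z‖ ^ 2 := by
    apply pow_le_pow_left₀ (by positivity) h3
  have h6 : z.re * z.re ≤ (35 / 100 * y) ^ 2 := by
    rw [← sq, ← sq_abs]
    exact pow_le_pow_left₀ (abs_nonneg _) c1'.le 2
  have h7 : z.im * z.im ≤ (35 / 100 * y) ^ 2 := by
    rw [← sq, ← sq_abs]
    exact pow_le_pow_left₀ (abs_nonneg _) c2'.le 2
  nlinarith [pow_pos hy0 2]

/-- the number of the changes at `n` -/
noncomputable def NN (M M' X : ℕ) (φ : ℂ →ₗ[ℝ] ℝ) (n : ℕ) : ℕ :=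
  if n - X < 4 ^ M' * ((X / 2) / 4 ^ M') then
    (KK M M' φ ((n - X) / ((X / 2) / 4 ^ M'))).card else 0

theorem changes_NN (hR : S_RIESZ) {M M' X : ℕ} {A : Set ℕ} (φ : ℂ →ₗ[ℝ] ℝ) (hM : 1 ≤ M)
    (hMM : M ≤ M') (h400 : 400 * Real.sqrt M ≤ 4 ^ (M' - M)) (hA : Pres M M' X A φ)
    {lam : ℝ} (hlam : lam ≤ 1 / 20 / Real.sqrt M)
    (hW : Real.log X ≤ ((X / 2) / 4 ^ M' : ℕ)) (hW0 : 0 < (X / 2) / 4 ^ M') (n : ℕ) (hn : X < n) :
    Changes A X (X / 2) n lam (NN M M' X φ n) := by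
  unfold NN
  split_ifs with h
  · have h1 := Nat.div_add_mod (n - X) ((X / 2) / 4 ^ M')
    have h2 := Nat.mod_lt (n - X) hW0
    have h3 : (n - X) / ((X / 2) / 4 ^ M') < 4 ^ M' := by
      apply Nat.div_lt_of_lt_mul
      rwa [mul_comm] at h
    have h4 := changes_ φ hR hM hMM h400 hA h3 h2.le hlam hW hW0
    have e : X + (n - X) / ((X / 2) / 4 ^ M') * ((X / 2) / 4 ^ M') +
        (n - X) % ((X / 2) / 4 ^ M') = n := by
      rw [mul_comm ((n - X) / ((X / 2) / 4 ^ M')), add_assoc, h1]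
      omega
    rwa [e] at h4
  · exact ⟨fun _ => 0, fun _ => 0, by simp, by simp⟩

theorem sum_NN (M M' X : ℕ) (φ : ℂ →ₗ[ℝ] ℝ) (hW0 : 0 < (X / 2) / 4 ^ M') :
    ((X / 2) / 4 ^ M' - 1) * ∑ q ∈ range (4 ^ M'), (KK M M' φ q).card ≤
      ∑ n ∈ Ioc X (X + X / 2), NN M M' X φ n := by
  set W := (X / 2) / 4 ^ M' with hW
  have hTW : 4 ^ M' * W ≤ X / 2 := Nat.mul_div_le _ _
  set g : ℕ × ℕ → ℕ := fun p => X + (W * p.1 + p.2) with hg
  have hinj : Set.InjOn g (range (4 ^ M') ×ˢ Ico 1 W : Finset (ℕ × ℕ)) := by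
    rintro ⟨q, v⟩ h ⟨q', v'⟩ h' e
    simp only [coe_product, Set.mem_prod, mem_coe, mem_range, mem_Ico] at h h'
    obtain ⟨-, -, hv⟩ := h
    obtain ⟨-, -, hv'⟩ := h'
    have e1 : W * q + v = W * q' + v' := Nat.add_left_cancel e
    have e2 := congrArg (· / W) e1
    have e3 := congrArg (· % W) e1
    simp only [Nat.mul_add_div hW0, Nat.div_eq_of_lt hv, Nat.div_eq_of_lt hv', Nat.mul_add_mod,
      Nat.mod_eq_of_lt hv, Nat.mod_eq_of_lt hv', add_zero] at e2 e3
    rw [e2, e3]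
  have hsub : (range (4 ^ M') ×ˢ Ico 1 W).image g ⊆ Ioc X (X + X / 2) := by
    intro n hn
    rw [mem_image] at hn
    obtain ⟨⟨q, v⟩, h, rfl⟩ := hn
    rw [mem_product, mem_range, mem_Ico] at h
    obtain ⟨hq, hv1, hv⟩ := h
    simp only at hq hv1 hv
    rw [mem_Ioc, hg]
    simp only
    have h2 : W * (q + 1) ≤ W * 4 ^ M' := Nat.mul_le_mul_left _ hq
    rw [mul_add, mul_one, mul_comm W (4 ^ M')] at h2
    constructor
    · omega
    · omega
  have h1 : ∑ n ∈ (range (4 ^ M') ×ˢ Ico 1 W).image g, NN M M' X φ n ≤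
      ∑ n ∈ Ioc X (X + X / 2), NN M M' X φ n := sum_le_sum_of_subset hsub
  rw [sum_image hinj, sum_product] at h1
  refine le_trans (le_of_eq ?_) h1
  rw [mul_sum]
  refine sum_congr rfl fun q hq => ?_
  rw [mem_range] at hq
  have h2 : ∀ v ∈ Ico 1 W, NN M M' X φ (g (q, v)) = (KK M M' φ q).card := by
    intro v hv
    rw [mem_Ico] at hv
    unfold NN
    have e1 : g (q, v) - X = W * q + v := by rw [hg]; simp
    rw [e1, ← hW, Nat.mul_add_div hW0, Nat.div_eq_of_lt hv.2, add_zero, if_pos]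
    have h2 : W * (q + 1) ≤ W * 4 ^ M' := Nat.mul_le_mul_left _ hq
    rw [mul_add, mul_one, mul_comm W (4 ^ M')] at h2
    omega
  rw [sum_congr rfl h2, sum_const, Nat.card_Ico, smul_eq_mul]

end Pool.Agent.N610.JV.LOW_

namespace Pool.Agent.N610.JV

open Finset LOW_

theorem t_LOW (h1 : S_RIESZ) (h2 : S_SET) : S_LOW := by
  refine ⟨1 / 48000, 1 / 30, by norm_num, by norm_num, ?_⟩
  intro lam hlam hlam0
  -- parameters
  set x : ℝ := 1 / (400 * lam ^ 2) with hx
  have hx2 : 9 / 4 ≤ x := by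
    rw [hx, le_div_iff₀ (by positivity)]
    nlinarith
  set M : ℕ := ⌊x⌋₊ with hMd
  have hM2 : 2 ≤ M := by
    rw [hMd]
    apply Nat.le_floor
    push_cast
    linarith
  have hM1 : 1 ≤ M := by omega
  have hMx : (M : ℝ) ≤ x := Nat.floor_le (by linarith)
  have hMx' : x < M + 1 := Nat.lt_floor_add_one x
  have hMR : (2 : ℝ) ≤ M := by exact_mod_cast hM2
  have hsq : 0 < Real.sqrt M := Real.sqrt_pos.2 (by linarith)
  have hlam2 : lam ≤ 1 / 20 / Real.sqrt M := by
    rw [div_div, le_div_iff₀ (by positivity)]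
    have h3 : lam ^ 2 * (400 * M) ≤ 1 := by
      have := mul_le_mul_of_nonneg_left hMx (by positivity : (0 : ℝ) ≤ 400 * lam ^ 2)
      have e : 400 * lam ^ 2 * x = 1 := by rw [hx]; field_simp
      rw [e] at this
      linarith
    have h4 : (lam * (20 * Real.sqrt M)) ^ 2 ≤ 1 := by
      have e : (lam * (20 * Real.sqrt M)) ^ 2 = lam ^ 2 * (400 * Real.sqrt M ^ 2) := by ring
      rw [e, Real.sq_sqrt (by linarith)]
      exact h3
    have h5 : 0 ≤ lam * (20 * Real.sqrt M) := by positivity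
    nlinarith
  obtain ⟨d, hd⟩ : ∃ d : ℕ, 400 * Real.sqrt M ≤ 4 ^ d := by
    obtain ⟨d, hd⟩ := pow_unbounded_of_one_lt (400 * Real.sqrt M) (by norm_num : (1 : ℝ) < 4)
    exact ⟨d, hd.le⟩
  set M' : ℕ := M + d with hM'
  have hMM : M ≤ M' := by omega
  have h400 : 400 * Real.sqrt M ≤ 4 ^ (M' - M) := by
    rw [hM', Nat.add_sub_cancel_left]
    exact hd
  have hT : 1 ≤ 4 ^ M' := Nat.one_le_pow _ _ (by norm_num)
  have hTR : (1 : ℝ) ≤ (4 ^ M' : ℕ) := by exact_mod_cast hT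
  have hη : (0 : ℝ) < 1 / 100 / Real.sqrt M := by positivity
  -- large `X`
  have hlog : ∀ᶠ X : ℕ in Filter.atTop, Real.log X ≤ 1 / (8 * (4 ^ M' : ℕ)) * X := by
    have h3 := (Real.isLittleO_log_id_atTop.bound
      (c := 1 / (8 * (4 ^ M' : ℕ))) (by positivity))
    have h4 := tendsto_natCast_atTop_atTop.eventually h3
    filter_upwards [h4] with X hX
    simp only [id, Real.norm_eq_abs] at hX
    rw [abs_of_nonneg (Nat.cast_nonneg X : (0 : ℝ) ≤ X)] at hX
    exact (le_abs_self _).trans hX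
  filter_upwards [h2 (4 ^ M') hT _ hη, hlog, Filter.eventually_ge_atTop (16 * 4 ^ M' + 16)] with
    X hX hXlog hXbig
  set W := (X / 2) / 4 ^ M' with hW
  have hXbigR : (16 : ℝ) * (4 ^ M' : ℕ) + 16 ≤ X := by exact_mod_cast hXbig
  have hWlow : (X : ℝ) / 2 - 1 ≤ (4 ^ M' : ℕ) * (W + 1) := by
    have h3 : X / 2 < 4 ^ M' * (W + 1) := by
      rw [hW, mul_comm]
      exact Nat.lt_mul_of_div_lt (Nat.lt_succ_self _) hT
    have h4 : X < 2 * (X / 2) + 2 := by omega
    have h5 : X ≤ 2 * (4 ^ M' * (W + 1)) + 2 := by omega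
    have h6 : (X : ℝ) ≤ 2 * ((4 ^ M' : ℕ) * ((W : ℝ) + 1)) + 2 := by exact_mod_cast h5
    linarith
  set T : ℝ := ((4 ^ M' : ℕ) : ℝ) with hTdef
  have hTW : (X : ℝ) / 4 ≤ T * W := by nlinarith
  have hT0 : 0 < T := by linarith
  have hWlog : Real.log X ≤ (W : ℕ) := by
    refine hXlog.trans ?_
    rw [← sub_nonneg]
    have : (0 : ℝ) ≤ (T * W - X / 8) / T := by
      apply div_nonneg _ hT0.le
      have : (0 : ℝ) ≤ X := Nat.cast_nonneg X
      linarith
    have e : (T * W - X / 8) / T = W - 1 / (8 * T) * X := by field_simp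
    rw [e] at this
    exact this
  have hW0 : 0 < W := by
    rcases Nat.eq_zero_or_pos W with h | h
    · exfalso
      rw [h] at hTW
      have : (0 : ℝ) < X := by linarith
      simp at hTW
      linarith
    · exact h
  -- the two sets
  have hw : ∀ φ : ℂ →ₗ[ℝ] ℝ, (∀ z, |φ z| ≤ ‖z‖) → ∀ c, 0 ≤ 1 / 2 + φ (rp M M' M c) / 2 ∧
      1 / 2 + φ (rp M M' M c) / 2 ≤ 1 := by
    intro φ hφ c
    have h3 := ((h1 M M' hM1 hMM).1 M c le_rfl).2
    have h4 := abs_le.1 ((hφ (rp M M' M c)).trans h3)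
    constructor <;> linarith [h4.1, h4.2]
  have hsum := sum_gd M M' hMM
  have hsum2 : ∑ q ∈ range (4 ^ M'),
      ((range (M - 1)).filter (fun k => gd M' k q ∧ gd M' (k + 1) q)).card ≤
      ∑ q ∈ range (4 ^ M'), (KK M M' Complex.reLm q).card +
        ∑ q ∈ range (4 ^ M'), (KK M M' Complex.imLm q).card := by
    rw [← sum_add_distrib]
    exact sum_le_sum fun q _ => card_KK h1 hM1 hMM q
  have hre := sum_NN M M' X Complex.reLm hW0
  have him := sum_NN M M' X Complex.imLm hW0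
  rw [← hW] at hre him
  set S1 := ∑ q ∈ range (4 ^ M'), (KK M M' Complex.reLm q).card
  set S2 := ∑ q ∈ range (4 ^ M'), (KK M M' Complex.imLm q).card
  have htot : (M - 1) * 4 ^ M' ≤ 4 * (S1 + S2) := hsum.trans (Nat.mul_le_mul_left 4 hsum2)
  have htotR : ((M : ℝ) - 1) * T ≤ 4 * ((S1 : ℝ) + S2) := by
    have h3 : (((M - 1) * 4 ^ M' : ℕ) : ℝ) ≤ ((4 * (S1 + S2) : ℕ) : ℝ) := by exact_mod_cast htot
    rw [Nat.cast_mul, Nat.cast_sub hM1] at h3
    push_cast at h3
    rw [hTdef]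
    push_cast
    linarith
  have hWm : ((W - 1 : ℕ) : ℝ) = W - 1 := by
    rw [Nat.cast_sub hW0]; simp
  have key : ∀ S0 : ℕ, ((M : ℝ) - 1) * T ≤ 8 * (S0 : ℝ) →
      1 / 48000 * (X : ℝ) / lam ^ 2 ≤ ((W - 1 : ℕ) : ℝ) * S0 := by
    intro S0 hS0
    have h3 : x / 3 ≤ (M : ℝ) - 1 := by linarith
    have h4 : (1 : ℝ) / 48000 * X / lam ^ 2 = x / 3 * (X / 40) := by
      rw [hx]; field_simp; ring
    rw [h4]
    have h5 : (X : ℝ) / 5 ≤ T * (W - 1) := by nlinarith
    have hW1 : (0 : ℝ) ≤ W - 1 := by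
      have : (1 : ℝ) ≤ W := by exact_mod_cast hW0
      linarith
    rw [hWm]
    have h6 : ((M : ℝ) - 1) * T * (W - 1) ≤ 8 * S0 * (W - 1) := mul_le_mul_of_nonneg_right hS0 hW1
    have h7 : x / 3 * (X / 5) ≤ ((M : ℝ) - 1) * (T * (W - 1)) := by
      apply mul_le_mul h3 h5 (by positivity) (by linarith)
    nlinarith
  have hfin : ∀ φ : ℂ →ₗ[ℝ] ℝ, (∀ z, |φ z| ≤ ‖z‖) → ∀ S0 : ℕ,
      (W - 1) * S0 ≤ ∑ n ∈ Ioc X (X + X / 2), NN M M' X φ n →
      ((M : ℝ) - 1) * T ≤ 8 * (S0 : ℝ) → ∃ A : Set ℕ, (∀ n ∈ A, n.Prime) ∧ ∃ N : ℕ → ℕ,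
        (∀ n, X < n → n ≤ X + X / 2 → Changes A X (X / 2) n lam (N n)) ∧
        1 / 48000 * X / lam ^ 2 ≤ ∑ n ∈ Finset.Ioc X (X + X / 2), (N n : ℝ) := by
    intro φ hφ S0 hS hS0
    obtain ⟨A, hA1, hA2⟩ := hX (fun c => 1 / 2 + φ (rp M M' M c) / 2) (hw φ hφ)
    refine ⟨A, hA1, NN M M' X φ, fun n hn _ => ?_, ?_⟩
    · exact changes_NN h1 φ hM1 hMM h400 hA2 hlam2 hWlog hW0 n hn
    · refine (key S0 hS0).trans ?_
      exact_mod_cast hS
  clear_value S1 S2 W T
  rcases le_total S1 S2 with h | h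
  · have hR : (S1 : ℝ) ≤ S2 := by exact_mod_cast h
    have hS : ((M : ℝ) - 1) * T ≤ 8 * (S2 : ℝ) := by linarith
    exact hfin Complex.imLm (fun z => Complex.abs_im_le_norm z) S2 him hS
  · have hR : (S2 : ℝ) ≤ S1 := by exact_mod_cast h
    have hS : ((M : ℝ) - 1) * T ≤ 8 * (S1 : ℝ) := by linarith
    exact hfin Complex.reLm (fun z => Complex.abs_re_le_norm z) S1 hre hS

end Pool.Agent.N610.JV
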