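import Pool.Agent.N610.JV.Stm

/-!
# JV/MART: jumps of a dyadic martingale
-/

set_option autoImplicit false

namespace Pool.Agent.N610.JV

open Finset

namespace MART_

/-- the reference value after processing the level `r - d` -/
noncomputable def rf (a : ℕ → ℝ) (lam : ℝ) (r : ℕ) : ℕ → ℝ
  | 0 => a r
  | d + 1 => if lam / 2 ≤ |a (r - (d + 1)) - rf a lam r d| then a (r - (d + 1)) else rf a lam r d

theorem rf_pos {a : ℕ → ℝ} {lam : ℝ} {r d : ℕ}
    (h : lam / 2 ≤ |a (r - (d + 1)) - rf a lam r d|) :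
    rf a lam r (d + 1) = a (r - (d + 1)) := by
  rw [rf, if_pos h]

theorem rf_neg {a : ℕ → ℝ} {lam : ℝ} {r d : ℕ}
    (h : ¬ lam / 2 ≤ |a (r - (d + 1)) - rf a lam r d|) :
    rf a lam r (d + 1) = rf a lam r d := by
  rw [rf, if_neg h]

theorem inv_rf (a : ℕ → ℝ) {lam : ℝ} (hl : 0 < lam) (r : ℕ) (d : ℕ) :
    |a (r - d) - rf a lam r d| < lam / 2 := by
  cases d with
  | zero =>
    rw [Nat.sub_zero, rf, sub_self, abs_zero]
    linarith
  | succ d =>
    by_cases h : lam / 2 ≤ |a (r - (d + 1)) - rf a lam r d|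
    · rw [rf_pos h, sub_self, abs_zero]
      linarith
    · rw [rf_neg h]
      exact not_le.1 h

theorem const_rf (a : ℕ → ℝ) (lam : ℝ) (r e m : ℕ)
    (h : ∀ d, e ≤ d → d < e + m → ¬ lam / 2 ≤ |a (r - (d + 1)) - rf a lam r d|) :
    rf a lam r (e + m) = rf a lam r e := by
  induction m with
  | zero => rfl
  | succ m ih =>
    rw [← Nat.add_assoc, rf_neg (h (e + m) (by omega) (by omega))]
    exact ih fun d h1 h2 => h d h1 (by omega)

theorem pair_reset (a : ℕ → ℝ) {lam : ℝ} (hl : 0 < lam) (r s t : ℕ) (hst : s < t) (htr : t ≤ r)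
    (h : lam ≤ |a t - a s|) :
    ∃ d, r - t ≤ d ∧ d < r - s ∧ lam / 2 ≤ |a (r - (d + 1)) - rf a lam r d| := by
  by_contra hno
  push Not at hno
  have h1 : rf a lam r (r - s) = rf a lam r (r - t) := by
    have := const_rf a lam r (r - t) (t - s) (fun d h1 h2 => by
      have := hno d h1 (by omega)
      exact not_le.2 this)
    rwa [show r - t + (t - s) = r - s by omega] at this
  have h2 := inv_rf a hl r (r - s)
  have h3 := inv_rf a hl r (r - t)
  rw [show r - (r - s) = s by omega, h1] at h2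
  rw [show r - (r - t) = t by omega] at h3
  have h4 : |a t - a s| ≤ |a t - rf a lam r (r - t)| + |a s - rf a lam r (r - t)| := by
    have := abs_sub (a t - rf a lam r (r - t)) (a s - rf a lam r (r - t))
    rwa [sub_sub_sub_cancel_right] at this
  linarith

theorem count_resets (a : ℕ → ℝ) {lam : ℝ} (hl : 0 < lam) (b r k : ℕ) (h : Jumps a b r lam k) :
    k ≤ ((range (r - b)).filter (fun d => lam / 2 ≤ |a (r - (d + 1)) - rf a lam r d|)).card := by
  obtain ⟨s, t, h1, h2⟩ := h
  have hex : ∀ i : ℕ, ∃ d, i < k → r - t i ≤ d ∧ d < r - s i ∧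
      lam / 2 ≤ |a (r - (d + 1)) - rf a lam r d| := by
    intro i
    by_cases hi : i < k
    · obtain ⟨_, hst, htr, hj⟩ := h1 i hi
      obtain ⟨d, hd⟩ := pair_reset a hl r (s i) (t i) hst htr hj
      exact ⟨d, fun _ => hd⟩
    · exact ⟨0, fun h => absurd h hi⟩
  choose f hf using hex
  have hord : ∀ m i, i + m + 1 < k → t i ≤ s (i + m + 1) := by
    intro m
    induction m with
    | zero => exact fun i hi => h2 i hi
    | succ m ih =>
      intro i hi
      have h3 := ih i (by omega)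
      have h4 := h2 (i + m + 1) (by omega)
      have h5 := (h1 (i + m + 1) (by omega)).2.1
      have h6 : i + (m + 1) + 1 = i + m + 1 + 1 := by ring
      rw [h6]
      omega
  have hlt : ∀ i i', i < i' → i' < k → f i' < f i := by
    intro i i' hii hi'
    have h3 := hf i (by omega)
    have h4 := hf i' hi'
    have h5 := hord (i' - i - 1) i (by omega)
    rw [show i + (i' - i - 1) + 1 = i' by omega] at h5
    omega
  have hcard := Finset.card_le_card_of_injOn (s := range k)
    (t := (range (r - b)).filter (fun d => lam / 2 ≤ |a (r - (d + 1)) - rf a lam r d|)) f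
    (by
      intro i hi
      have hi' := Finset.mem_range.1 (Finset.mem_coe.1 hi)
      have h3 := hf i hi'
      have h4 := (h1 i hi').1
      exact Finset.mem_coe.2 (Finset.mem_filter.2 ⟨Finset.mem_range.2 (by omega), h3.2.2⟩))
    (by
      intro i hi i' hi' he
      have h3 := Finset.mem_range.1 (Finset.mem_coe.1 hi)
      have h4 := Finset.mem_range.1 (Finset.mem_coe.1 hi')
      rcases lt_trichotomy i i' with h5 | h5 | h5
      · have := hlt i i' h5 h4
        omega
      · exact h5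
      · have := hlt i' i h5 h3
        omega)
  rwa [Finset.card_range] at hcard

theorem sum_blocks (f : ℕ → ℝ) (A B : ℕ) :
    ∑ n ∈ range (A * B), f n = ∑ q ∈ range A, ∑ m ∈ range B, f (q * B + m) := by
  induction A with
  | zero => simp
  | succ A ih => rw [Nat.succ_mul, Finset.sum_range_add, ih, Finset.sum_range_succ]

theorem div_block (q i m : ℕ) (hm : m < 2 ^ i) : (q * 2 ^ i + m) / 2 ^ i = q := by
  rw [Nat.add_comm, Nat.add_mul_div_right _ _ (by positivity), Nat.div_eq_of_lt hm, Nat.zero_add]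

theorem keyL (G : ℕ → ℝ) (w : ℕ → ℝ) (i r : ℕ) (hir : i ≤ r) :
    ∑ n ∈ range (2 ^ r), blk G i n * w (n / 2 ^ i) = ∑ q ∈ range (2 ^ (r - i)), S G i q * w q := by
  have e : 2 ^ r = 2 ^ (r - i) * 2 ^ i := by rw [← pow_add, Nat.sub_add_cancel hir]
  rw [e, sum_blocks]
  refine Finset.sum_congr rfl fun q _ => ?_
  have h1 : ∀ m ∈ range (2 ^ i), blk G i (q * 2 ^ i + m) * w ((q * 2 ^ i + m) / 2 ^ i) =
      S G i q / 2 ^ i * w q := by
    intro m hm
    unfold blk
    rw [div_block q i m (Finset.mem_range.1 hm)]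
  rw [Finset.sum_congr rfl h1, Finset.sum_const, Finset.card_range, nsmul_eq_mul]
  push_cast
  field_simp

theorem tele (G : ℕ → ℝ) (b i q : ℕ) (hbi : b ≤ i) :
    ∑ m ∈ range (2 ^ (i - b)), S G b (q * 2 ^ (i - b) + m) = S G i q := by
  have h1 : ∀ m, S G b (q * 2 ^ (i - b) + m) =
      (fun m => G ((q * 2 ^ (i - b) + m) * 2 ^ b)) (m + 1) -
        (fun m => G ((q * 2 ^ (i - b) + m) * 2 ^ b)) m := fun m => rfl
  simp only [h1]
  rw [Finset.sum_range_sub (fun m => G ((q * 2 ^ (i - b) + m) * 2 ^ b))]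
  have e : 2 ^ i = 2 ^ (i - b) * 2 ^ b := by rw [← pow_add, Nat.sub_add_cancel hbi]
  unfold S
  rw [e]
  congr 2
  · ring
  · ring

theorem key (G : ℕ → ℝ) (w : ℕ → ℝ) (b i r : ℕ) (hbi : b ≤ i) (hir : i ≤ r) :
    ∑ n ∈ range (2 ^ r), blk G b n * w (n / 2 ^ i) =
      ∑ n ∈ range (2 ^ r), blk G i n * w (n / 2 ^ i) := by
  rw [keyL G w i r hir]
  have e : 2 ^ i = 2 ^ b * 2 ^ (i - b) := by rw [← pow_add, Nat.add_sub_cancel' hbi]
  have h1 : ∀ n, w (n / 2 ^ i) = (fun c => w (c / 2 ^ (i - b))) (n / 2 ^ b) := by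
    intro n
    change w (n / 2 ^ i) = w (n / 2 ^ b / 2 ^ (i - b))
    rw [Nat.div_div_eq_div_mul, ← e]
  simp only [h1]
  have h2 := keyL G (fun c => w (c / 2 ^ (i - b))) b r (hbi.trans hir)
  refine Eq.trans h2 ?_
  have e2 : 2 ^ (r - b) = 2 ^ (r - i) * 2 ^ (i - b) := by
    rw [← pow_add]
    congr 1
    omega
  rw [e2, sum_blocks]
  refine Finset.sum_congr rfl fun q _ => ?_
  rw [← tele G b i q hbi, Finset.sum_mul]
  refine Finset.sum_congr rfl fun m hm => ?_
  rw [div_block q (i - b) m (Finset.mem_range.1 hm)]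

theorem dep (G : ℕ → ℝ) (lam : ℝ) (r d : ℕ) (hd : d ≤ r) (n n' : ℕ)
    (h : n / 2 ^ (r - d) = n' / 2 ^ (r - d)) :
    rf (fun j => blk G j n) lam r d = rf (fun j => blk G j n') lam r d := by
  induction d with
  | zero =>
    rw [Nat.sub_zero] at h
    unfold rf blk
    rw [h]
  | succ d ih =>
    have h1 : r - d = r - (d + 1) + 1 := by omega
    have h2 := ih (by omega) (by
      rw [h1, pow_succ, ← Nat.div_div_eq_div_mul, ← Nat.div_div_eq_div_mul, h])
    have h3 : blk G (r - (d + 1)) n = blk G (r - (d + 1)) n' := by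
      unfold blk
      rw [h]
    rw [rf, rf, h2, h3]

theorem step (G : ℕ → ℝ) (lam : ℝ) (b r d : ℕ) (hd : d + 1 ≤ r) (hb : b ≤ r - (d + 1)) :
    ∑ n ∈ range (2 ^ r), (if lam / 2 ≤ |blk G (r - (d + 1)) n -
        rf (fun j => blk G j n) lam r d| then
          (blk G (r - (d + 1)) n - rf (fun j => blk G j n) lam r d) ^ 2 else 0) =
      ∑ n ∈ range (2 ^ r), (blk G b n - rf (fun j => blk G j n) lam r d) ^ 2 -
        ∑ n ∈ range (2 ^ r), (blk G b n - rf (fun j => blk G j n) lam r (d + 1)) ^ 2 := by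
  set i := r - (d + 1) with hi
  set c : ℕ → ℝ := fun n => rf (fun j => blk G j n) lam r d with hc
  set c' : ℕ → ℝ := fun n => rf (fun j => blk G j n) lam r (d + 1) with hc'
  have hir : i ≤ r := by omega
  have hdc : ∀ n, c n = (fun q => c (q * 2 ^ i)) (n / 2 ^ i) := by
    intro n
    refine dep G lam r d (by omega) _ _ ?_
    have h1 : r - d = i + 1 := by omega
    rw [h1, pow_succ, ← Nat.div_div_eq_div_mul, ← Nat.div_div_eq_div_mul,
      Nat.mul_div_cancel _ (by positivity)]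
  have hdc' : ∀ n, c' n = (fun q => c' (q * 2 ^ i)) (n / 2 ^ i) := by
    intro n
    refine dep G lam r (d + 1) hd _ _ ?_
    rw [← hi, Nat.mul_div_cancel _ (by positivity)]
  have hW : ∑ n ∈ range (2 ^ r), blk G b n * (2 * (c' n - c n)) =
      ∑ n ∈ range (2 ^ r), blk G i n * (2 * (c' n - c n)) := by
    have h1 := key G (fun q => 2 * (c' (q * 2 ^ i) - c (q * 2 ^ i))) b i r hb hir
    refine Eq.trans (Finset.sum_congr rfl fun n _ => ?_)
      (h1.trans (Finset.sum_congr rfl fun n _ => ?_))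
    · rw [hdc n, hdc' n]
    · rw [hdc n, hdc' n]
  rw [← Finset.sum_sub_distrib]
  have h2 : ∀ n ∈ range (2 ^ r), (blk G b n - c n) ^ 2 - (blk G b n - c' n) ^ 2 =
      blk G b n * (2 * (c' n - c n)) + (c n ^ 2 - c' n ^ 2) := fun n _ => by ring
  rw [Finset.sum_congr rfl h2, Finset.sum_add_distrib, hW, ← Finset.sum_add_distrib]
  refine Finset.sum_congr rfl fun n _ => ?_
  have h3 : c' n = if lam / 2 ≤ |blk G i n - c n| then blk G i n else c n := rfl
  by_cases h : lam / 2 ≤ |blk G i n - c n|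
  · rw [if_pos h, h3, if_pos h]
    ring
  · rw [if_neg h, h3, if_neg h]
    ring

theorem start (G : ℕ → ℝ) (b r : ℕ) (hb : b ≤ r) :
    ∑ n ∈ range (2 ^ r), (blk G b n - blk G r n) ^ 2 ≤ En G b r := by
  have h1 : ∑ n ∈ range (2 ^ r), blk G b n * blk G r n =
      ∑ n ∈ range (2 ^ r), blk G r n * blk G r n := key G (fun q => S G r q / 2 ^ r) b r r hb le_rfl
  have h2 : ∑ n ∈ range (2 ^ r), (blk G b n - blk G r n) ^ 2 =
      ∑ n ∈ range (2 ^ r), blk G b n ^ 2 - 2 * ∑ n ∈ range (2 ^ r), blk G b n * blk G r n +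
        ∑ n ∈ range (2 ^ r), blk G r n * blk G r n := by
    rw [Finset.mul_sum, ← Finset.sum_sub_distrib, ← Finset.sum_add_distrib]
    exact Finset.sum_congr rfl fun n _ => by ring
  have h3 : 0 ≤ ∑ n ∈ range (2 ^ r), blk G r n * blk G r n :=
    Finset.sum_nonneg fun n _ => mul_self_nonneg _
  rw [h2, h1]
  unfold En
  linarith

end MART_

open MART_

theorem t_MART : S_MART := by
  intro G b r hb lam hl N hN
  have h1 : ∀ n ∈ range (2 ^ r), (N n : ℝ) ≤ ∑ d ∈ range (r - b),
      (if lam / 2 ≤ |blk G (r - (d + 1)) n - rf (fun j => blk G j n) lam r d| then (1 : ℝ)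
        else 0) := by
    intro n hn
    have h2 := count_resets (fun j => blk G j n) hl b r (N n) (hN n (Finset.mem_range.1 hn))
    rw [Finset.sum_boole]
    exact_mod_cast h2
  have h2 : lam ^ 2 / 4 * ∑ n ∈ range (2 ^ r), (N n : ℝ) ≤
      ∑ d ∈ range (r - b), ∑ n ∈ range (2 ^ r), (if lam / 2 ≤ |blk G (r - (d + 1)) n -
        rf (fun j => blk G j n) lam r d| then
          (blk G (r - (d + 1)) n - rf (fun j => blk G j n) lam r d) ^ 2 else 0) := by
    rw [Finset.sum_comm, Finset.mul_sum]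
    refine Finset.sum_le_sum fun n hn => ?_
    refine (mul_le_mul_of_nonneg_left (h1 n hn) (by positivity)).trans ?_
    rw [Finset.mul_sum]
    refine Finset.sum_le_sum fun d _ => ?_
    by_cases h : lam / 2 ≤ |blk G (r - (d + 1)) n - rf (fun j => blk G j n) lam r d|
    · rw [if_pos h, if_pos h, mul_one, ← sq_abs (blk G (r - (d + 1)) n - _)]
      nlinarith
    · rw [if_neg h, if_neg h, mul_zero]
  have h3 : ∀ d ∈ range (r - b), ∑ n ∈ range (2 ^ r), (if lam / 2 ≤ |blk G (r - (d + 1)) n -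
        rf (fun j => blk G j n) lam r d| then
          (blk G (r - (d + 1)) n - rf (fun j => blk G j n) lam r d) ^ 2 else 0) =
      (fun d => ∑ n ∈ range (2 ^ r), (blk G b n - rf (fun j => blk G j n) lam r d) ^ 2) d -
      (fun d => ∑ n ∈ range (2 ^ r), (blk G b n - rf (fun j => blk G j n) lam r d) ^ 2)
        (d + 1) := by
    intro d hd
    have := Finset.mem_range.1 hd
    exact step G lam b r d (by omega) (by omega)
  rw [Finset.sum_congr rfl h3, Finset.sum_range_sub'] at h2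
  have h4 := start G b r hb
  have h5 : 0 ≤ ∑ n ∈ range (2 ^ r),
      (blk G b n - rf (fun j => blk G j n) lam r (r - b)) ^ 2 :=
    Finset.sum_nonneg fun n _ => sq_nonneg _
  have h6 : ∑ n ∈ range (2 ^ r), (blk G b n - rf (fun j => blk G j n) lam r 0) ^ 2 =
      ∑ n ∈ range (2 ^ r), (blk G b n - blk G r n) ^ 2 := rfl
  rw [h6] at h2
  linarith

end Pool.Agent.N610.JV
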