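import Pool.Agent.N610.JV.Stm

/-!
Project JV, RIESZ: a complex Riesz product.
-/

set_option autoImplicit false

namespace Pool.Agent.N610.JV

open Finset

namespace RIESZ_

/-- one factor -/
noncomputable def w (M e : ℕ) : ℂ := 1 + (-1 : ℂ) ^ e * Complex.I / (Real.sqrt M : ℂ)

theorem w_norm (M e : ℕ) (hM : 1 ≤ M) : ‖w M e‖ ^ 2 = 1 + 1 / (M : ℝ) := by
  have hM' : (0 : ℝ) < M := by exact_mod_cast hM
  have hs : 0 < Real.sqrt M := Real.sqrt_pos.2 hM'
  obtain ⟨s, hs1, hs2⟩ : ∃ s : ℝ, (-1 : ℂ) ^ e = (s : ℂ) ∧ s ^ 2 = 1 := by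
    refine ⟨(-1) ^ e, by push_cast; rfl, ?_⟩
    rw [← pow_mul, mul_comm, pow_mul]
    norm_num
  have e1 : w M e = ((1 : ℝ) : ℂ) + ((s / Real.sqrt M : ℝ) : ℂ) * Complex.I := by
    unfold w
    rw [hs1]
    push_cast
    ring
  rw [e1, ← Complex.normSq_eq_norm_sq, Complex.normSq_add_mul_I, div_pow, hs2,
    Real.sq_sqrt hM'.le]
  norm_num

theorem w_two (M e t : ℕ) : w M (e + 2 * t) = w M e := by
  unfold w
  rw [pow_add, pow_mul]
  norm_num

theorem w_sum (M : ℕ) : w M 0 + w M 1 = 2 := by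
  unfold w
  ring

/-- the product of the factors `k ≤ i < M` -/
noncomputable def D (M M' k m : ℕ) : ℂ := ∏ i ∈ Ico k M, w M (m / 4 ^ (M' - 1 - i))

theorem D_per {M M' k : ℕ} (hM : M ≤ M') (m : ℕ) :
    D M M' k (m + 2 * 4 ^ (M' - 1 - k)) = D M M' k m := by
  unfold D
  refine prod_congr rfl fun i hi => ?_
  rw [mem_Ico] at hi
  have e1 : 4 ^ (M' - 1 - k) = 4 ^ (M' - 1 - i) * 4 ^ (i - k) := by
    rw [← pow_add]
    congr 1
    omega
  have e2 : (m + 2 * 4 ^ (M' - 1 - k)) / 4 ^ (M' - 1 - i) =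
      m / 4 ^ (M' - 1 - i) + 2 * 4 ^ (i - k) := by
    rw [e1, show 2 * (4 ^ (M' - 1 - i) * 4 ^ (i - k)) =
      4 ^ (M' - 1 - i) * (2 * 4 ^ (i - k)) by ring,
      Nat.add_mul_div_left _ _ (by positivity)]
  rw [e2, w_two]

theorem D_succ {M M' k : ℕ} (hk : k < M) (m : ℕ) :
    D M M' k m = w M (m / 4 ^ (M' - 1 - k)) * D M M' (k + 1) m := by
  unfold D
  rw [prod_eq_prod_Ico_succ_bot hk]

theorem per_sum (f : ℕ → ℂ) (P : ℕ) (hf : ∀ m, f (m + P) = f m) (q : ℕ) :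
    ∑ m ∈ Ico q (q + P), f m = ∑ m ∈ Ico 0 (0 + P), f m := by
  induction q with
  | zero => rfl
  | succ q ih =>
    rw [← ih]
    have h1 : ∑ m ∈ Ico q (q + P + 1), f m = ∑ m ∈ Ico q (q + P), f m + f (q + P) :=
      sum_Ico_succ_top (by omega) f
    have h2 : ∑ m ∈ Ico q (q + P + 1), f m = f q + ∑ m ∈ Ico (q + 1) (q + P + 1), f m :=
      sum_eq_sum_Ico_succ_bot (by omega) f
    have e : q + 1 + P = q + P + 1 := by ring
    rw [e]
    have h3 := hf q
    rw [h3] at h1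
    linear_combination h1 - h2

theorem win {M M' k : ℕ} (hM : M ≤ M') (hk : k < M)
    (h : ∀ q, ∑ m ∈ Ico q (q + 4 ^ (M' - (k + 1))), D M M' (k + 1) m =
      ((4 ^ (M' - (k + 1)) : ℕ) : ℂ)) (q : ℕ) :
    ∑ m ∈ Ico q (q + 2 * 4 ^ (M' - 1 - k)), D M M' k m = ((2 * 4 ^ (M' - 1 - k) : ℕ) : ℂ) := by
  rw [per_sum _ _ (fun m => D_per hM m)]
  have e : M' - (k + 1) = M' - 1 - k := by omega
  rw [e] at h
  obtain ⟨L, hL⟩ : ∃ L, L = 4 ^ (M' - 1 - k) := ⟨_, rfl⟩
  have hL0 : 0 < L := by rw [hL]; positivity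
  rw [← hL] at h ⊢
  have h1 : ∑ m ∈ Ico 0 (0 + 2 * L), D M M' k m =
      ∑ m ∈ Ico 0 (0 + L), D M M' k m + ∑ m ∈ Ico (0 + L) (0 + L + L), D M M' k m := by
    rw [sum_Ico_consecutive _ (by omega) (by omega)]
    congr 2
    ring
  have h2 : ∑ m ∈ Ico 0 (0 + L), D M M' k m = w M 0 * ∑ m ∈ Ico 0 (0 + L), D M M' (k + 1) m := by
    rw [mul_sum]
    refine sum_congr rfl fun m hm => ?_
    rw [mem_Ico] at hm
    rw [D_succ hk, ← hL, Nat.div_eq_of_lt (by omega)]
  have h3 : ∑ m ∈ Ico (0 + L) (0 + L + L), D M M' k m =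
      w M 1 * ∑ m ∈ Ico (0 + L) (0 + L + L), D M M' (k + 1) m := by
    rw [mul_sum]
    refine sum_congr rfl fun m hm => ?_
    rw [mem_Ico] at hm
    have : m / L = 1 := by
      apply Nat.div_eq_of_lt_le <;> omega
    rw [D_succ hk, ← hL, this]
  rw [h1, h2, h3, h, h]
  push_cast
  linear_combination (L : ℂ) * w_sum M

theorem Dsum {M M' : ℕ} (hM : M ≤ M') : ∀ j k, k + j = M → ∀ q,
    ∑ m ∈ Ico q (q + 4 ^ (M' - k)), D M M' k m = ((4 ^ (M' - k) : ℕ) : ℂ) := by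
  intro j
  induction j with
  | zero =>
    intro k hk q
    have : ∀ m, D M M' k m = 1 := by
      intro m
      unfold D
      rw [Ico_eq_empty (by omega), prod_empty]
    simp only [this]
    simp
  | succ j ih =>
    intro k hk q
    have hw := win hM (show k < M by omega) (ih (k + 1) (by omega))
    have e : 4 ^ (M' - k) = 2 * 4 ^ (M' - 1 - k) + 2 * 4 ^ (M' - 1 - k) := by
      rw [show M' - k = (M' - 1 - k) + 1 by omega, pow_succ]
      ring
    rw [e, ← add_assoc, ← sum_Ico_consecutive _ (Nat.le_add_right q _)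
      (Nat.le_add_right (q + 2 * 4 ^ (M' - 1 - k)) _), hw, hw]
    push_cast
    ring

theorem rp_eq (M M' k q : ℕ) : rp M M' k q = (∏ i ∈ range k, w M (q / 4 ^ (M' - 1 - i))) / 2 := rfl

theorem rp_norm (M M' k q : ℕ) (hM : 1 ≤ M) : (2 * ‖rp M M' k q‖) ^ 2 = (1 + 1 / (M : ℝ)) ^ k := by
  rw [rp_eq, norm_div, norm_prod]
  have e : 2 * ((∏ i ∈ range k, ‖w M (q / 4 ^ (M' - 1 - i))‖) / ‖(2 : ℂ)‖) =
      ∏ i ∈ range k, ‖w M (q / 4 ^ (M' - 1 - i))‖ := by
    rw [Complex.norm_two]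
    ring
  rw [e, ← prod_pow, prod_congr rfl fun i _ => w_norm M _ hM, prod_const, card_range]

end RIESZ_

open RIESZ_

theorem t_RIESZ : S_RIESZ := by
  intro M M' hM hMM'
  have hM' : (0 : ℝ) < M := by exact_mod_cast hM
  refine ⟨fun k q hk => ?_, fun k q hk => ?_, fun k q hk hq => ?_⟩
  · have h1 := rp_norm M M' k q hM
    have h2 : 0 ≤ ‖rp M M' k q‖ := norm_nonneg _
    have h3 : (1 : ℝ) ≤ (1 + 1 / (M : ℝ)) ^ k := one_le_pow₀ (by
      have : 0 ≤ 1 / (M : ℝ) := by positivity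
      linarith)
    have h4 : (1 + 1 / (M : ℝ)) ^ k ≤ 2.7182818286 := by
      have h5 : (1 + 1 / (M : ℝ)) ^ k ≤ (1 + 1 / (M : ℝ)) ^ M :=
        pow_le_pow_right₀ (by
          have : 0 ≤ 1 / (M : ℝ) := by positivity
          linarith) hk
      have h6 : (1 + 1 / (M : ℝ)) ^ M ≤ Real.exp 1 := by
        have h7 : 1 + 1 / (M : ℝ) ≤ Real.exp (1 / (M : ℝ)) := by
          have := Real.add_one_le_exp (1 / (M : ℝ))
          linarith
        have h8 : (1 + 1 / (M : ℝ)) ^ M ≤ Real.exp (1 / (M : ℝ)) ^ M :=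
          pow_le_pow_left₀ (by positivity) h7 M
        rw [← Real.exp_nat_mul, mul_one_div_cancel hM'.ne'] at h8
        exact h8
      exact (h5.trans h6).trans Real.exp_one_lt_d9.le
    constructor
    · by_contra h5
      rw [not_le] at h5
      nlinarith
    · by_contra h5
      rw [not_le] at h5
      nlinarith
  · have e : rp M M' (k + 1) q - rp M M' k q =
        rp M M' k q * ((-1 : ℂ) ^ (q / 4 ^ (M' - 1 - k)) * Complex.I / (Real.sqrt M : ℂ)) := by
      rw [rp_eq, rp_eq, prod_range_succ]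
      unfold w
      ring
    rw [e, norm_mul, norm_div, norm_mul, norm_pow, norm_neg, norm_one, one_pow, Complex.norm_I,
      Complex.norm_real, Real.norm_of_nonneg (Real.sqrt_nonneg _)]
    ring
  · obtain ⟨L, hL⟩ : ∃ L, L = 4 ^ (M' - k) := ⟨_, rfl⟩
    have hL0 : 0 < L := by rw [hL]; positivity
    rw [← hL] at hq ⊢
    have hL2 : L / 2 = 2 * 4 ^ (M' - 1 - k) := by
      rw [hL, show M' - k = (M' - 1 - k) + 1 by omega, pow_succ]
      omega
    have h1 : ∀ m ∈ Ico q (q + L / 2), rp M M' M m = rp M M' k q * D M M' k m := by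
      intro m hm
      rw [mem_Ico] at hm
      rw [rp_eq, rp_eq, ← prod_range_mul_prod_Ico _ hk.le]
      have h2 : m / L = q / L := by
        have h3 := Nat.div_add_mod q L
        apply Nat.div_eq_of_lt_le
        · have h4 : q / L * L = L * (q / L) := by ring
          omega
        · have h4 : (q / L + 1) * L = L * (q / L) + L := by ring
          omega
      have h5 : ∏ i ∈ range k, w M (m / 4 ^ (M' - 1 - i)) =
          ∏ i ∈ range k, w M (q / 4 ^ (M' - 1 - i)) := by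
        refine prod_congr rfl fun i hi => ?_
        rw [mem_range] at hi
        have e1 : 4 ^ (M' - 1 - i) = L * 4 ^ (k - 1 - i) := by
          rw [hL, ← pow_add]
          congr 1
          omega
        rw [e1, ← Nat.div_div_eq_div_mul, ← Nat.div_div_eq_div_mul, h2]
      rw [h5]
      unfold D
      ring
    rw [sum_congr rfl h1, ← mul_sum, hL2,
      win hMM' hk (Dsum hMM' (M - (k + 1)) (k + 1) (by omega)), mul_comm]

end Pool.Agent.N610.JV
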