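import Pool.Agent.N610.JV.Stm
import Pool.Agent.H357R2.SI.Common

/-!
# Sets of primes with prescribed densities (helper607)
-/

set_option autoImplicit false

namespace Pool.Agent.N610.JV.SET_

open Finset Filter
open Pool.Agent.H357R2.SI (pc pc_add pc_mono pc_window_upper pc_window_lower)

/-- the prime number theorem for intervals between `X` and `3 X` -/
lemma pnt2 (e : ℝ) (he : 0 < e) : ∀ᶠ X : ℕ in atTop, ∀ x h : ℕ, X ≤ x → x ≤ 2 * X → h ≤ X →
    |(pc x (x + h) : ℝ) * Real.log X - h| ≤ e * X := by
  set δ : ℝ := min (e / 11) (1 / 2) with hδ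
  have hδ0 : 0 < δ := lt_min (by positivity) (by norm_num)
  have hδe : 11 * δ ≤ e := by
    have : δ ≤ e / 11 := min_le_left _ _
    linarith
  have hδ1 : δ < 1 := (min_le_right _ _).trans_lt (by norm_num)
  obtain ⟨X₁, h31, h1⟩ := pc_window_upper δ hδ0
  obtain ⟨X₂, h32, h2⟩ := pc_window_lower δ hδ0 hδ1
  have hlim : Tendsto (fun n : ℕ => Real.log (n : ℝ)) atTop atTop :=
    Real.tendsto_log_atTop.comp tendsto_natCast_atTop_atTop
  filter_upwards [eventually_ge_atTop X₁, eventually_ge_atTop X₂, eventually_ge_atTop 3,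
    hlim.eventually_ge_atTop (6 / δ)] with X hX1 hX2 hX3 hlog x h hx1 hx2 hh
  have hX0 : (0 : ℝ) < X := by
    have : 0 < X := by omega
    exact_mod_cast this
  have hxr : (X : ℝ) ≤ x := by exact_mod_cast hx1
  have hxr2 : (x : ℝ) ≤ 2 * X := by exact_mod_cast hx2
  have hhr : (h : ℝ) ≤ X := by exact_mod_cast hh
  have hh0 : (0 : ℝ) ≤ h := Nat.cast_nonneg h
  have hpc : (0 : ℝ) ≤ (pc x (x + h) : ℝ) := Nat.cast_nonneg _
  have hl1 : Real.log X ≤ Real.log x := Real.log_le_log hX0 hxr
  have hl2 : Real.log x ≤ Real.log X + 1 := by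
    have h3 : Real.log x ≤ Real.log (2 * X) := Real.log_le_log (by linarith) hxr2
    rw [Real.log_mul (by norm_num) hX0.ne'] at h3
    have h4 := Real.log_two_lt_d9
    linarith
  have hup := h1 x h (by omega)
  have hlo := h2 x h (by omega) (by omega)
  have hup' : (pc x (x + h) : ℝ) * Real.log X ≤ h + 5 * δ * X := by
    have h3 : (pc x (x + h) : ℝ) * Real.log X ≤ pc x (x + h) * Real.log x :=
      mul_le_mul_of_nonneg_left hl1 hpc
    have h4 : δ * (2 * x + h) ≤ δ * (5 * X) := mul_le_mul_of_nonneg_left (by linarith) hδ0.le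
    linarith
  have hsm : (pc x (x + h) : ℝ) ≤ δ * X := by
    have h3 : (pc x (x + h) : ℝ) * (6 / δ) ≤ pc x (x + h) * Real.log X :=
      mul_le_mul_of_nonneg_left hlog hpc
    have h4 : (pc x (x + h) : ℝ) * (6 / δ) ≤ 6 * X := by
      have : 5 * δ * X ≤ 5 * X := by nlinarith
      linarith
    have h5 : (pc x (x + h) : ℝ) * (6 / δ) * δ ≤ 6 * X * δ :=
      mul_le_mul_of_nonneg_right h4 hδ0.le
    have h6 : (pc x (x + h) : ℝ) * (6 / δ) * δ = 6 * pc x (x + h) := by
      field_simp
    linarith
  have hlo' : (h : ℝ) - 11 * δ * X ≤ pc x (x + h) * Real.log X := by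
    have h3 : (pc x (x + h) : ℝ) * Real.log x ≤ pc x (x + h) * (Real.log X + 1) :=
      mul_le_mul_of_nonneg_left hl2 hpc
    have h4 : 5 * δ * x ≤ 5 * δ * (2 * X) := mul_le_mul_of_nonneg_left hxr2 (by positivity)
    linarith
  have hfin : 11 * δ * X ≤ e * X := mul_le_mul_of_nonneg_right hδe hX0.le
  have h5 : 5 * δ * X ≤ 11 * δ * X := by nlinarith
  rw [abs_le]
  constructor <;> linarith

lemma count_add (A : Set ℕ) {a b c : ℕ} (hab : a ≤ b) (hbc : b ≤ c) :
    count A a b + count A b c = count A a c := by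
  classical
  unfold count
  rw [← card_union_of_disjoint]
  · congr 1
    rw [← filter_union, Ioc_union_Ioc_eq_Ioc hab hbc]
  · apply disjoint_filter_filter
    rw [disjoint_left]
    intro x hx hx'
    rw [mem_Ioc] at hx hx'
    omega

lemma count_le_pc {A : Set ℕ} (hA : ∀ n ∈ A, n.Prime) (a b : ℕ) : count A a b ≤ pc a b := by
  classical
  unfold count pc
  refine card_le_card fun n hn => ?_
  rw [mem_filter] at hn ⊢
  exact ⟨hn.1, hA n hn.2⟩

end SET_

open Finset Filter SET_
open Pool.Agent.H357R2.SI (pc pc_add pc_mono pc_window_upper pc_window_lower)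

theorem t_SET : S_SET := by
  intro T hT η hη
  have hT0 : (0 : ℝ) < T := by exact_mod_cast hT
  set e : ℝ := η / (12 * T) with he
  have he0 : 0 < e := by positivity
  obtain ⟨n0, hn0⟩ := exists_nat_ge (6 * T / η)
  filter_upwards [pnt2 e he0, eventually_ge_atTop (12 * T), eventually_ge_atTop n0,
    eventually_ge_atTop 3] with X hX hX12 hXn hX3 w hw
  set W : ℕ := (X / 2) / T with hW
  have hWT : T * W ≤ X / 2 := Nat.mul_div_le _ _
  have hWX : W ≤ X := by
    have : W ≤ T * W := Nat.le_mul_of_pos_left _ hT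
    omega
  have hW3 : X ≤ 3 * T * W := by
    have h1 : X / 2 < T * (W + 1) := by
      have := Nat.lt_mul_div_succ (X / 2) hT
      rwa [← hW] at this
    have h2 : X < 2 * (T * (W + 1)) := by omega
    have h3 : T * (W + 1) = T * W + T := by ring
    have h4 : 3 * T * W = 3 * (T * W) := by ring
    omega
  have hW1 : 1 ≤ W := by
    rcases Nat.eq_zero_or_pos W with h0 | h0
    · exfalso
      rw [h0, mul_zero] at hW3
      omega
    · exact h0
  have hWr : (0 : ℝ) < W := by exact_mod_cast hW1
  have hXr : (0 : ℝ) < X := by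
    have : 0 < X := by omega
    exact_mod_cast this
  have hXW : (X : ℝ) ≤ 3 * T * W := by exact_mod_cast hW3
  have hlog : 0 < Real.log X := Real.log_pos (by
    have : 1 < X := by omega
    exact_mod_cast this)
  -- the set
  set K : ℕ → ℕ := fun c => ⌈w c * W⌉₊ with hK
  have hKW : ∀ c, K c ≤ W := by
    intro c
    refine Nat.ceil_le.2 ?_
    have := (hw c).2
    nlinarith
  have hK1 : ∀ c, w c * W ≤ K c := fun c => Nat.le_ceil _
  have hK2 : ∀ c, (K c : ℝ) ≤ w c * W + 1 := fun c =>
    (Nat.ceil_lt_add_one (mul_nonneg (hw c).1 hWr.le)).le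
  obtain ⟨A, hA⟩ : ∃ A : Set ℕ, ∀ n, n ∈ A ↔ n.Prime ∧ ∃ c, X + c * W < n ∧
      n ≤ X + c * W + K c :=
    ⟨{n | n.Prime ∧ ∃ c, X + c * W < n ∧ n ≤ X + c * W + K c}, fun n => Iff.rfl⟩
  have hAp : ∀ n ∈ A, n.Prime := fun n hn => ((hA n).1 hn).1
  refine ⟨A, hAp, ?_⟩
  intro q m v hm hqm hv
  -- one cell
  have hcell : ∀ c, count A (X + c * W) (X + (c + 1) * W) = pc (X + c * W) (X + c * W + K c) := by
    classical
    intro c
    unfold count pc
    congr 1
    ext n
    rw [mem_filter, mem_filter, mem_Ioc, mem_Ioc, hA]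
    have h1 : X + (c + 1) * W = X + c * W + W := by ring
    constructor
    · rintro ⟨⟨h2, h3⟩, h4, c', h5, h6⟩
      have h7 : c' = c := by
        rcases lt_trichotomy c c' with h | h | h
        · exfalso
          have h8 : (c + 1) * W ≤ c' * W := Nat.mul_le_mul_right _ h
          omega
        · exact h.symm
        · exfalso
          have h8 : (c' + 1) * W ≤ c * W := Nat.mul_le_mul_right _ h
          have h9 : (c' + 1) * W = c' * W + W := by ring
          have := hKW c'
          omega
      subst h7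
      exact ⟨⟨h2, h6⟩, h4⟩
    · rintro ⟨⟨h2, h3⟩, h4⟩
      have := hKW c
      exact ⟨⟨h2, by omega⟩, h4, c, h2, h3⟩
  have hcW : ∀ c < T, X + c * W + W ≤ 2 * X := by
    intro c hc
    have h1 : (c + 1) * W ≤ T * W := Nat.mul_le_mul_right _ hc
    have h2 : (c + 1) * W = c * W + W := by ring
    omega
  have hcell2 : ∀ c < T, |(count A (X + c * W) (X + (c + 1) * W) : ℝ) * Real.log X - w c * W| ≤
      e * X + 1 := by
    intro c hc
    rw [hcell c]
    have h1 := hX (X + c * W) (K c) (by omega) (by have := hcW c hc; omega)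
      ((hKW c).trans hWX)
    have h2 := hK1 c
    have h3 := hK2 c
    rw [abs_le] at h1 ⊢
    constructor <;> linarith [h1.1, h1.2]
  -- union of the cells
  have hsum : ∀ m' : ℕ, q + m' < T → |(count A (X + q * W) (X + (q + m') * W) : ℝ) * Real.log X -
      (∑ c ∈ Ico q (q + m'), w c) * W| ≤ m' * (e * X + 1) := by
    intro m'
    induction m' with
    | zero =>
      intro _
      have : count A (X + q * W) (X + (q + 0) * W) = 0 := by
        unfold count
        simp
      rw [this]
      simp
    | succ m' ih =>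
      intro hq
      have h1 := ih (by omega)
      have h2 := hcell2 (q + m') (by omega)
      have h3 : count A (X + q * W) (X + (q + m') * W) +
          count A (X + (q + m') * W) (X + (q + m' + 1) * W) =
          count A (X + q * W) (X + (q + (m' + 1)) * W) := by
        refine count_add A ?_ ?_
        · have : q * W ≤ (q + m') * W := Nat.mul_le_mul_right _ (by omega)
          omega
        · have : (q + m') * W ≤ (q + m' + 1) * W := Nat.mul_le_mul_right _ (by omega)
          omega
      rw [← h3, ← add_assoc q m' 1, sum_Ico_succ_top (by omega)]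
      push_cast
      rw [abs_le] at h1 h2 ⊢
      constructor <;> nlinarith [h1.1, h1.2, h2.1, h2.2]
  have hs := hsum m hqm
  -- the ends
  have hend : ∀ c, c < T → (count A (X + c * W) (X + c * W + v) : ℝ) * Real.log X ≤ W + e * X := by
    intro c hc
    have h1 := hX (X + c * W) v (by omega) (by have := hcW c hc; omega) (hv.trans hWX)
    have h2 : (count A (X + c * W) (X + c * W + v) : ℝ) ≤ pc (X + c * W) (X + c * W + v) := by
      exact_mod_cast count_le_pc hAp _ _
    have h3 := mul_le_mul_of_nonneg_right h2 hlog.le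
    have h4 : (v : ℝ) ≤ W := by exact_mod_cast hv
    rw [abs_le] at h1
    linarith [h1.2]
  have hend0 : ∀ a b, 0 ≤ (count A a b : ℝ) * Real.log X := fun a b =>
    mul_nonneg (Nat.cast_nonneg _) hlog.le
  have e1 := hend q (by omega)
  have e2 := hend (q + m) hqm
  have e3 := hend0 (X + q * W) (X + q * W + v)
  have e4 := hend0 (X + (q + m) * W) (X + (q + m) * W + v)
  have hadd : count A (X + q * W) (X + q * W + v) +
      count A (X + q * W + v) (X + q * W + v + m * W) =
      count A (X + q * W) (X + (q + m) * W) +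
        count A (X + (q + m) * W) (X + (q + m) * W + v) := by
    have h1 : X + q * W + v + m * W = X + (q + m) * W + v := by ring
    rw [count_add A (by omega) (by omega), count_add A (by
      have : q * W ≤ (q + m) * W := Nat.mul_le_mul_right _ (by omega)
      omega) (by omega), h1]
  have hadd' : (count A (X + q * W) (X + q * W + v) : ℝ) +
      count A (X + q * W + v) (X + q * W + v + m * W) =
      count A (X + q * W) (X + (q + m) * W) +
        count A (X + (q + m) * W) (X + (q + m) * W + v) := by exact_mod_cast hadd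
  have hmain : |(count A (X + q * W + v) (X + q * W + v + m * W) : ℝ) * Real.log X -
      (∑ c ∈ Ico q (q + m), w c) * W| ≤ m * (e * X + 1) + W + e * X := by
    have h5 : (count A (X + q * W + v) (X + q * W + v + m * W) : ℝ) * Real.log X =
        count A (X + q * W) (X + (q + m) * W) * Real.log X +
        count A (X + (q + m) * W) (X + (q + m) * W + v) * Real.log X -
        count A (X + q * W) (X + q * W + v) * Real.log X := by
      rw [← add_mul, ← hadd']
      ring
    rw [h5]
    rw [abs_le] at hs ⊢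
    constructor <;> linarith [hs.1, hs.2]
  have hmr : (1 : ℝ) ≤ m := by exact_mod_cast hm
  have hmr0 : (0 : ℝ) < m := by linarith
  have hmW : (0 : ℝ) < m * W := mul_pos hmr0 hWr
  have hdens : density A X (X + q * W + v) (m * W) - (∑ c ∈ Ico q (q + m), w c) / m =
      ((count A (X + q * W + v) (X + q * W + v + m * W) : ℝ) * Real.log X -
      (∑ c ∈ Ico q (q + m), w c) * W) / (m * W) := by
    unfold density
    push_cast
    field_simp
  rw [hdens, abs_div, abs_of_pos hmW, div_le_iff₀ hmW]
  refine hmain.trans ?_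
  -- numerics
  have hXn' : 6 * T / η ≤ X := hn0.trans (by exact_mod_cast hXn)
  have h6 : 6 * T ≤ η * X := by
    rw [div_le_iff₀ hη] at hXn'
    linarith
  have h7 : e * X ≤ η / 4 * W := by
    have h8 : e * X ≤ e * (3 * T * W) := mul_le_mul_of_nonneg_left hXW he0.le
    have h9 : e * (3 * T * W) = η / 4 * W := by
      rw [he]
      field_simp
      ring
    linarith
  have h8 : (1 : ℝ) ≤ η / 2 * W := by
    have h9 : η * X ≤ η * (3 * T * W) := mul_le_mul_of_nonneg_left hXW hη.le
    have h10 : 6 * (T : ℝ) ≤ (η * W * 3) * T := by nlinarith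
    have h11 : 6 ≤ η * W * 3 := le_of_mul_le_mul_right h10 hT0
    linarith
  have h9 : (η + 2 / m) * (m * W) = m * (η * W) + 2 * W := by
    field_simp
  rw [h9]
  have h10 : m * (e * X + 1) ≤ m * (3 / 4 * (η * W)) :=
    mul_le_mul_of_nonneg_left (by linarith) hmr0.le
  have h11 : e * X ≤ m * (1 / 4 * (η * W)) := by
    have : 1 * (1 / 4 * (η * W)) ≤ m * (1 / 4 * (η * W)) :=
      mul_le_mul_of_nonneg_right hmr (by positivity)
    linarith
  nlinarith

end Pool.Agent.N610.JV
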