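import Pool.Agent.N610.JV.Stm

set_option autoImplicit false

/-! # The sum of the square functions over all windows (project JV, task SUM) -/

namespace Pool.Agent.N610.JV.SUM_

open Finset Pool.Agent.N610.JV

theorem sum_blocks (q : ℕ) (H : ℕ → ℝ) (m : ℕ) :
    ∑ P ∈ range m, ∑ c ∈ Ico (P * q) ((P + 1) * q), H c = ∑ c ∈ range (m * q), H c := by
  induction m with
  | zero => simp
  | succ m ih =>
    rw [sum_range_succ, ih, range_eq_Ico, range_eq_Ico,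
      sum_Ico_consecutive _ (Nat.zero_le _) (Nat.mul_le_mul_right q (Nat.le_succ m))]

theorem div_block {q P n : ℕ} (hn : n ∈ Ico (P * q) ((P + 1) * q)) : n / q = P := by
  rw [mem_Ico] at hn
  exact Nat.div_eq_of_lt_le hn.1 hn.2

theorem card_block (P q : ℕ) : ((Ico (P * q) ((P + 1) * q)).card : ℝ) = q := by
  rw [Nat.card_Ico, Nat.add_mul, Nat.one_mul, Nat.add_sub_cancel_left]

theorem sum_div (q : ℕ) (F : ℕ → ℝ) (m : ℕ) :
    ∑ n ∈ range (m * q), F (n / q) = q * ∑ c ∈ range m, F c := by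
  rw [← sum_blocks, mul_sum]
  refine sum_congr rfl fun P _ => ?_
  have h1 : ∀ n ∈ Ico (P * q) ((P + 1) * q), F (n / q) = F P := by
    intro n hn
    rw [div_block hn]
  rw [sum_congr rfl h1, sum_const, nsmul_eq_mul, card_block]

theorem pow_split {i R : ℕ} (h : i ≤ R) : 2 ^ R = 2 ^ (R - i) * 2 ^ i := by
  rw [← pow_add, Nat.sub_add_cancel h]

theorem En_eq (G : ℕ → ℝ) {i R : ℕ} (h : i ≤ R) :
    En G i R = 2 ^ i * ∑ c ∈ range (2 ^ (R - i)), (S G i c / 2 ^ i) ^ 2 := by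
  unfold En blk
  rw [pow_split h, sum_div (2 ^ i) (fun c => (S G i c / 2 ^ i) ^ 2)]
  push_cast
  rfl

theorem D_eq (G : ℕ → ℝ) {i L R : ℕ} (h : i ≤ L) (h' : L ≤ R) :
    ∑ n ∈ range (2 ^ R), (blk G i n - blk G L n) ^ 2 =
      2 ^ i * ∑ c ∈ range (2 ^ (R - i)), (S G i c / 2 ^ i - S G L (c / 2 ^ (L - i)) / 2 ^ L) ^ 2 := by
  unfold blk
  have h1 : ∀ n : ℕ, n / 2 ^ L = (n / 2 ^ i) / 2 ^ (L - i) := by
    intro n
    rw [Nat.div_div_eq_div_mul, ← pow_add, Nat.add_sub_cancel' h]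
  simp only [h1]
  rw [pow_split (h.trans h'),
    sum_div (2 ^ i) (fun c => (S G i c / 2 ^ i - S G L (c / 2 ^ (L - i)) / 2 ^ L) ^ 2)]
  push_cast
  rfl

theorem NB_eq (G : ℕ → ℝ) {L r : ℕ} (h : L ≤ r) :
    ∑ n ∈ range (2 ^ r), (blk G L n - blk G L (n + 2 ^ L)) ^ 2 =
      2 ^ L * ∑ P ∈ range (2 ^ (r - L)), (S G L P / 2 ^ L - S G L (P + 1) / 2 ^ L) ^ 2 := by
  unfold blk
  have h1 : ∀ n : ℕ, (n + 2 ^ L) / 2 ^ L = n / 2 ^ L + 1 := fun n =>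
    Nat.add_div_right n (by positivity)
  simp only [h1]
  rw [pow_split h, sum_div (2 ^ L) (fun P => (S G L P / 2 ^ L - S G L (P + 1) / 2 ^ L) ^ 2)]
  push_cast
  rfl

/-- variation of the level `i` inside the block `P` of the level `L` -/
noncomputable def W (G : ℕ → ℝ) (i L P : ℕ) : ℝ :=
  ∑ c ∈ Ico (P * 2 ^ (L - i)) ((P + 1) * 2 ^ (L - i)), (S G i c - S G L P / 2 ^ L * 2 ^ i) ^ 2

theorem W_nonneg (G : ℕ → ℝ) (i L P : ℕ) : 0 ≤ W G i L P := sum_nonneg fun _ _ => sq_nonneg _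

theorem sum_W (G : ℕ → ℝ) {i L R : ℕ} (h : i ≤ L) (h' : L ≤ R) :
    ∑ P ∈ range (2 ^ (R - L)), W G i L P =
      2 ^ i * ∑ n ∈ range (2 ^ R), (blk G i n - blk G L n) ^ 2 := by
  rw [D_eq G h h']
  unfold W
  have h1 : ∀ P ∈ range (2 ^ (R - L)), ∑ c ∈ Ico (P * 2 ^ (L - i)) ((P + 1) * 2 ^ (L - i)),
      (S G i c - S G L P / 2 ^ L * 2 ^ i) ^ 2 =
      ∑ c ∈ Ico (P * 2 ^ (L - i)) ((P + 1) * 2 ^ (L - i)),
        (S G i c - S G L (c / 2 ^ (L - i)) / 2 ^ L * 2 ^ i) ^ 2 := by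
    intro P _
    refine sum_congr rfl fun c hc => ?_
    rw [div_block hc]
  rw [sum_congr rfl h1,
    sum_blocks (2 ^ (L - i)) (fun c => (S G i c - S G L (c / 2 ^ (L - i)) / 2 ^ L * 2 ^ i) ^ 2)]
  have h2 : 2 ^ (R - L) * 2 ^ (L - i) = 2 ^ (R - i) := by
    rw [← pow_add]; congr 1; omega
  rw [h2, mul_sum, mul_sum]
  refine sum_congr rfl fun c _ => ?_
  have h3 : (2 : ℝ) ^ i ≠ 0 := by positivity
  field_simp

theorem sum_W_shift (G : ℕ → ℝ) {i L r : ℕ} (h : L ≤ r) :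
    ∑ P ∈ range (2 ^ (r - L)), W G i L P + 2 * ∑ P ∈ range (2 ^ (r - L)), W G i L (P + 1) ≤
      3 * ∑ P ∈ range (2 ^ (r + 1 - L)), W G i L P := by
  have hm : 2 ^ (r + 1 - L) = 2 * 2 ^ (r - L) := by
    rw [Nat.succ_sub h, pow_succ]; ring
  have hm1 : 1 ≤ 2 ^ (r - L) := Nat.one_le_two_pow
  have h1 : ∑ P ∈ range (2 ^ (r - L)), W G i L P ≤ ∑ P ∈ range (2 ^ (r + 1 - L)), W G i L P := by
    refine sum_le_sum_of_subset_of_nonneg ?_ fun _ _ _ => W_nonneg _ _ _ _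
    rw [hm]
    exact range_mono (by omega)
  have h2 : ∑ P ∈ range (2 ^ (r - L)), W G i L (P + 1) ≤
      ∑ P ∈ range (2 ^ (r + 1 - L)), W G i L P := by
    have h3 : ∑ P ∈ range (2 ^ (r - L)), W G i L (P + 1) + W G i L 0 =
        ∑ P ∈ range (2 ^ (r - L) + 1), W G i L P := (sum_range_succ' _ _).symm
    have h4 : ∑ P ∈ range (2 ^ (r - L) + 1), W G i L P ≤
        ∑ P ∈ range (2 ^ (r + 1 - L)), W G i L P := by
      refine sum_le_sum_of_subset_of_nonneg ?_ fun _ _ _ => W_nonneg _ _ _ _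
      rw [hm]
      exact range_mono (by omega)
    have h5 := W_nonneg G i L 0
    linarith
  linarith

/-- one level of one window size -/
theorem level (h1 : S_DROP) (G : ℕ → ℝ) {i L r : ℕ} (hi : i ≤ L) (hL : L ≤ r) :
    ∑ P ∈ range (2 ^ (r - L)), ∑ c ∈ Ico (P * 2 ^ (L - i)) ((P + 2) * 2 ^ (L - i)),
        (S G i c - S G L P / 2 ^ L * 2 ^ i) ^ 2 ≤
      2 ^ i * (3 * (En G i (r + 1) - En G L (r + 1)) +
        2 * ∑ n ∈ range (2 ^ r), (blk G L n - blk G L (n + 2 ^ L)) ^ 2) := by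
  have hP : ∀ P : ℕ, ∑ c ∈ Ico (P * 2 ^ (L - i)) ((P + 2) * 2 ^ (L - i)),
      (S G i c - S G L P / 2 ^ L * 2 ^ i) ^ 2 ≤ W G i L P + 2 * W G i L (P + 1) +
        2 * (2 ^ (L - i) * 4 ^ i) * (S G L P / 2 ^ L - S G L (P + 1) / 2 ^ L) ^ 2 := by
    intro P
    rw [← sum_Ico_consecutive _ (Nat.mul_le_mul_right (2 ^ (L - i)) (show P ≤ P + 1 by omega))
      (Nat.mul_le_mul_right (2 ^ (L - i)) (show P + 1 ≤ P + 2 by omega)), add_assoc]
    refine add_le_add le_rfl ?_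
    have h2 : ∀ c ∈ Ico ((P + 1) * 2 ^ (L - i)) ((P + 2) * 2 ^ (L - i)),
        (S G i c - S G L P / 2 ^ L * 2 ^ i) ^ 2 ≤
        2 * (S G i c - S G L (P + 1) / 2 ^ L * 2 ^ i) ^ 2 +
          2 * (4 ^ i * (S G L P / 2 ^ L - S G L (P + 1) / 2 ^ L) ^ 2) := by
      intro c _
      have e4 : (4 : ℝ) ^ i = 2 ^ i * 2 ^ i := by
        rw [← mul_pow]; norm_num
      rw [e4]
      set u := S G i c
      set v := S G L P / 2 ^ L
      set w := S G L (P + 1) / 2 ^ L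
      set t := (2 : ℝ) ^ i
      nlinarith [sq_nonneg ((u - w * t) + (v - w) * t)]
    refine (sum_le_sum h2).trans (le_of_eq ?_)
    rw [sum_add_distrib, ← mul_sum, sum_const, nsmul_eq_mul]
    have h3 : ((Ico ((P + 1) * 2 ^ (L - i)) ((P + 2) * 2 ^ (L - i))).card : ℝ) =
        2 ^ (L - i) := by
      have := card_block (P + 1) (2 ^ (L - i))
      rw [show P + 1 + 1 = P + 2 from rfl] at this
      rw [this]; push_cast; rfl
    rw [h3]
    unfold W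
    ring
  refine (sum_le_sum fun P _ => hP P).trans ?_
  rw [sum_add_distrib, sum_add_distrib, ← mul_sum, ← mul_sum]
  have h3 := sum_W_shift G (i := i) hL
  rw [sum_W (R := r + 1) G hi (by omega), h1 G i L (r + 1) hi (by omega)] at h3
  have h4 := NB_eq G hL
  have h5 : 2 * ((2 : ℝ) ^ (L - i) * 4 ^ i) *
      ∑ P ∈ range (2 ^ (r - L)), (S G L P / 2 ^ L - S G L (P + 1) / 2 ^ L) ^ 2 =
      2 ^ i * (2 * ∑ n ∈ range (2 ^ r), (blk G L n - blk G L (n + 2 ^ L)) ^ 2) := by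
    rw [h4]
    have e4 : (4 : ℝ) ^ i = 2 ^ i * 2 ^ i := by
      rw [← mul_pow]; norm_num
    have e5 : (2 : ℝ) ^ L = 2 ^ (L - i) * 2 ^ i := by
      rw [← pow_add, Nat.sub_add_cancel hi]
    rw [e4, e5]
    ring
  rw [h5]
  linarith

theorem En_anti (h1 : S_DROP) (G : ℕ → ℝ) {i j R : ℕ} (h : i ≤ j) (h' : j ≤ R) :
    En G j R ≤ En G i R := by
  have h2 := h1 G i j R h h'
  have h3 : 0 ≤ ∑ n ∈ range (2 ^ R), (blk G i n - blk G j n) ^ 2 :=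
    sum_nonneg fun _ _ => sq_nonneg _
  linarith

theorem En_nonneg (G : ℕ → ℝ) (i R : ℕ) : 0 ≤ En G i R := sum_nonneg fun _ _ => sq_nonneg _

theorem shift (f : ℕ → ℝ) (hf : ∀ P, 0 ≤ f P) {L r : ℕ} (h : L ≤ r) :
    ∑ P ∈ range (2 ^ (r - L)), f P ≤ ∑ P ∈ range (2 ^ (r + 1 - L)), f P ∧
      ∑ P ∈ range (2 ^ (r - L)), f (P + 1) ≤ ∑ P ∈ range (2 ^ (r + 1 - L)), f P := by
  have hm : 2 ^ (r + 1 - L) = 2 * 2 ^ (r - L) := by
    rw [Nat.succ_sub h, pow_succ]; ring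
  have hm1 : 1 ≤ 2 ^ (r - L) := Nat.one_le_two_pow
  constructor
  · refine sum_le_sum_of_subset_of_nonneg ?_ fun _ _ _ => hf _
    rw [hm]
    exact range_mono (by omega)
  · have h3 : ∑ P ∈ range (2 ^ (r - L)), f (P + 1) + f 0 =
        ∑ P ∈ range (2 ^ (r - L) + 1), f P := (sum_range_succ' _ _).symm
    have h4 : ∑ P ∈ range (2 ^ (r - L) + 1), f P ≤
        ∑ P ∈ range (2 ^ (r + 1 - L)), f P := by
      refine sum_le_sum_of_subset_of_nonneg ?_ fun _ _ _ => hf _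
      rw [hm]
      exact range_mono (by omega)
    have h5 := hf 0
    linarith

theorem last (h1 : S_DROP) (G : ℕ → ℝ) {b L r : ℕ} (hb : b ≤ L) (hL : L ≤ r) :
    ∑ P ∈ range (2 ^ (r - L)), ∑ c ∈ Ico (P * 2 ^ (L - b)) ((P + 2) * 2 ^ (L - b)),
        (S G b c + S G L P / 2 ^ L * 2 ^ b) ^ 2 ≤ 8 * 2 ^ b * En G b (r + 1) := by
  set X : ℕ → ℝ := fun P => ∑ c ∈ Ico (P * 2 ^ (L - b)) ((P + 1) * 2 ^ (L - b)), S G b c ^ 2
    with hX
  have hX0 : ∀ P, 0 ≤ X P := fun P => sum_nonneg fun _ _ => sq_nonneg _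
  have hP : ∀ P : ℕ, ∑ c ∈ Ico (P * 2 ^ (L - b)) ((P + 2) * 2 ^ (L - b)),
      (S G b c + S G L P / 2 ^ L * 2 ^ b) ^ 2 ≤ 2 * (X P + X (P + 1)) +
        4 * (2 ^ (L - b) * 4 ^ b) * (S G L P / 2 ^ L) ^ 2 := by
    intro P
    have h2 : ∀ c ∈ Ico (P * 2 ^ (L - b)) ((P + 2) * 2 ^ (L - b)),
        (S G b c + S G L P / 2 ^ L * 2 ^ b) ^ 2 ≤
        2 * S G b c ^ 2 + 2 * (4 ^ b * (S G L P / 2 ^ L) ^ 2) := by
      intro c _
      have e4 : (4 : ℝ) ^ b = 2 ^ b * 2 ^ b := by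
        rw [← mul_pow]; norm_num
      rw [e4]
      nlinarith [sq_nonneg (S G b c - S G L P / 2 ^ L * 2 ^ b)]
    refine (sum_le_sum h2).trans (le_of_eq ?_)
    rw [sum_add_distrib, ← mul_sum, sum_const, nsmul_eq_mul,
      ← sum_Ico_consecutive _ (Nat.mul_le_mul_right (2 ^ (L - b)) (show P ≤ P + 1 by omega))
        (Nat.mul_le_mul_right (2 ^ (L - b)) (show P + 1 ≤ P + 2 by omega))]
    have h3 : ((Ico (P * 2 ^ (L - b)) ((P + 2) * 2 ^ (L - b))).card : ℝ) = 2 * 2 ^ (L - b) := by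
      rw [Nat.card_Ico, Nat.add_mul, Nat.add_sub_cancel_left]
      push_cast; rfl
    rw [h3]
    simp only [hX]
    ring
  refine (sum_le_sum fun P _ => hP P).trans ?_
  rw [sum_add_distrib, ← mul_sum, ← mul_sum, sum_add_distrib]
  obtain ⟨h3, h4⟩ := shift X hX0 hL
  have h5 : ∑ P ∈ range (2 ^ (r + 1 - L)), X P = 2 ^ b * En G b (r + 1) := by
    rw [hX, sum_blocks (2 ^ (L - b)) (fun c => S G b c ^ 2), En_eq G (by omega : b ≤ r + 1)]
    have e1 : 2 ^ (r + 1 - L) * 2 ^ (L - b) = 2 ^ (r + 1 - b) := by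
      rw [← pow_add]; congr 1; omega
    rw [e1, mul_sum, mul_sum]
    refine sum_congr rfl fun c _ => ?_
    have h3 : (2 : ℝ) ^ b ≠ 0 := by positivity
    field_simp
  obtain ⟨h6, -⟩ := shift (fun P => (S G L P / 2 ^ L) ^ 2) (fun _ => sq_nonneg _) hL
  have h7 := En_eq G (by omega : L ≤ r + 1)
  have h8 := En_anti h1 G hb (by omega : L ≤ r + 1)
  have e5 : (2 : ℝ) ^ (L - b) * 4 ^ b = 2 ^ b * 2 ^ L := by
    have e4 : (4 : ℝ) ^ b = 2 ^ b * 2 ^ b := by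
      rw [← mul_pow]; norm_num
    have e5 : (2 : ℝ) ^ L = 2 ^ (L - b) * 2 ^ b := by
      rw [← pow_add, Nat.sub_add_cancel hb]
    rw [e4, e5]
    ring
  have h9 : 4 * ((2 : ℝ) ^ (L - b) * 4 ^ b) *
      ∑ P ∈ range (2 ^ (r - L)), (S G L P / 2 ^ L) ^ 2 ≤ 4 * 2 ^ b * En G b (r + 1) := by
    calc 4 * ((2 : ℝ) ^ (L - b) * 4 ^ b) *
        ∑ P ∈ range (2 ^ (r - L)), (S G L P / 2 ^ L) ^ 2
        = 4 * 2 ^ b * (2 ^ L * ∑ P ∈ range (2 ^ (r - L)), (S G L P / 2 ^ L) ^ 2) := by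
          rw [e5]; ring
      _ ≤ 4 * 2 ^ b * (2 ^ L * ∑ P ∈ range (2 ^ (r + 1 - L)), (S G L P / 2 ^ L) ^ 2) := by
          gcongr
      _ = 4 * 2 ^ b * En G L (r + 1) := by rw [h7]
      _ ≤ 4 * 2 ^ b * En G b (r + 1) := by gcongr
  rw [h5] at h3 h4
  linarith

/-- weighted variation -/
noncomputable def T (e : ℕ → ℝ) (b L : ℕ) : ℝ := ∑ i ∈ Icc b L, (3 / 4 : ℝ) ^ (L - i) * (e i - e L)

theorem Q_le (b L : ℕ) (h : b ≤ L) : ∑ i ∈ Icc b L, (3 / 4 : ℝ) ^ (L - i) ≤ 4 := by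
  induction L, h using Nat.le_induction with
  | base => simp
  | succ L hL ih =>
    rw [sum_Icc_succ_top (by omega), Nat.sub_self, pow_zero]
    have h1 : ∑ i ∈ Icc b L, (3 / 4 : ℝ) ^ (L + 1 - i) =
        3 / 4 * ∑ i ∈ Icc b L, (3 / 4 : ℝ) ^ (L - i) := by
      rw [mul_sum]
      refine sum_congr rfl fun i hi => ?_
      rw [mem_Icc] at hi
      rw [Nat.succ_sub hi.2, pow_succ]; ring
    rw [h1]; linarith

theorem T_succ (e : ℕ → ℝ) (b L : ℕ) (h : b ≤ L) (he : e (L + 1) ≤ e L) :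
    T e b (L + 1) ≤ 3 / 4 * T e b L + 3 * (e L - e (L + 1)) := by
  unfold T
  rw [sum_Icc_succ_top (by omega), sub_self, mul_zero, add_zero]
  have h1 : ∑ i ∈ Icc b L, (3 / 4 : ℝ) ^ (L + 1 - i) * (e i - e (L + 1)) =
      3 / 4 * ∑ i ∈ Icc b L, (3 / 4 : ℝ) ^ (L - i) * (e i - e L) +
        3 / 4 * (∑ i ∈ Icc b L, (3 / 4 : ℝ) ^ (L - i)) * (e L - e (L + 1)) := by
    rw [mul_assoc (3 / 4 : ℝ), sum_mul, ← mul_add, ← sum_add_distrib, mul_sum]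
    refine sum_congr rfl fun i hi => ?_
    rw [mem_Icc] at hi
    rw [Nat.succ_sub hi.2, pow_succ]; ring
  rw [h1]
  have h2 := Q_le b L h
  nlinarith

theorem T_nonneg (e : ℕ → ℝ) (b L : ℕ) (he : ∀ i, i ≤ L → e L ≤ e i) : 0 ≤ T e b L := by
  unfold T
  refine sum_nonneg fun i hi => mul_nonneg (by positivity) ?_
  rw [mem_Icc] at hi
  have := he i hi.2
  linarith

theorem T_sum (e : ℕ → ℝ) (b m : ℕ) (h : b ≤ m) (he : ∀ i j, i ≤ j → j ≤ m → e j ≤ e i) :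
    ∑ j ∈ Ico b m, T e b (j + 1) + 3 * T e b m ≤ 12 * (e b - e m) := by
  induction m, h using Nat.le_induction with
  | base => simp [T]
  | succ m hm ih =>
    have h1 := ih (fun i j hij hj => he i j hij (by omega))
    rw [sum_Ico_succ_top hm]
    have h2 := T_succ e b m hm (he m (m + 1) (by omega) le_rfl)
    linarith

/-- one window size -/
theorem window (h1 : S_DROP) (G : ℕ → ℝ) {b j r : ℕ} (hb : b ≤ j) (hj : j < r) :
    ∑ P ∈ range (2 ^ (r - j - 1)), 2 ^ (j + 1) / 4 ^ j *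
        Z G b j P (S G (j + 1) P / 2 ^ (j + 1)) ≤
      12 * T (fun i => En G i (r + 1)) b (j + 1) +
        32 * ∑ n ∈ range (2 ^ r), (blk G (j + 1) n - blk G (j + 1) (n + 2 ^ (j + 1))) ^ 2 +
        32 * (1 / 2) ^ (j + 1 - b) * En G b (r + 1) := by
  set L := j + 1 with hL
  have hrL : r - j - 1 = r - L := by omega
  have hLr : L ≤ r := by omega
  have hbL : b ≤ L := by omega
  rw [hrL]
  have hw : (2 : ℝ) ^ L / 4 ^ j = 4 / 2 ^ L := by
    have e4 : (4 : ℝ) ^ j = 2 ^ j * 2 ^ j := by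
      rw [← mul_pow]; norm_num
    rw [e4, hL, pow_succ]
    field_simp
    norm_num
  set nb := ∑ n ∈ range (2 ^ r), (blk G L n - blk G L (n + 2 ^ L)) ^ 2 with hnb
  have hnb0 : 0 ≤ nb := sum_nonneg fun _ _ => sq_nonneg _
  have hZ : ∑ P ∈ range (2 ^ (r - L)), Z G b j P (S G L P / 2 ^ L) =
      ∑ i ∈ Icc b L, (3 / 2 : ℝ) ^ (L - i) * ∑ P ∈ range (2 ^ (r - L)),
        ∑ c ∈ Ico (P * 2 ^ (L - i)) ((P + 2) * 2 ^ (L - i)),
          (S G i c - S G L P / 2 ^ L * 2 ^ i) ^ 2 +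
      ∑ P ∈ range (2 ^ (r - L)), ∑ c ∈ Ico (P * 2 ^ (L - b)) ((P + 2) * 2 ^ (L - b)),
        (S G b c + S G L P / 2 ^ L * 2 ^ b) ^ 2 := by
    unfold Z
    rw [sum_add_distrib, sum_comm]
    congr 1
    refine sum_congr rfl fun i _ => ?_
    rw [mul_sum]
  rw [← mul_sum, hw, hZ]
  have h2 : ∀ i ∈ Icc b L, (3 / 2 : ℝ) ^ (L - i) * ∑ P ∈ range (2 ^ (r - L)),
        ∑ c ∈ Ico (P * 2 ^ (L - i)) ((P + 2) * 2 ^ (L - i)),
          (S G i c - S G L P / 2 ^ L * 2 ^ i) ^ 2 ≤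
      2 ^ L * ((3 / 4 : ℝ) ^ (L - i) * (3 * (En G i (r + 1) - En G L (r + 1)) + 2 * nb)) := by
    intro i hi
    rw [mem_Icc] at hi
    have h3 := level h1 G hi.2 hLr
    have e5 : (2 : ℝ) ^ L = 2 ^ (L - i) * 2 ^ i := by
      rw [← pow_add, Nat.sub_add_cancel hi.2]
    have e6 : (3 / 2 : ℝ) ^ (L - i) = (3 / 4) ^ (L - i) * 2 ^ (L - i) := by
      rw [← mul_pow]; norm_num
    calc _ ≤ (3 / 2 : ℝ) ^ (L - i) * (2 ^ i * (3 * (En G i (r + 1) - En G L (r + 1)) +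
          2 * nb)) := mul_le_mul_of_nonneg_left h3 (by positivity)
      _ = _ := by rw [e5, e6]; ring
  have h4 := last h1 G hbL hLr
  clear_value nb
  have h5 : ∑ i ∈ Icc b L, (2 : ℝ) ^ L * ((3 / 4 : ℝ) ^ (L - i) *
      (3 * (En G i (r + 1) - En G L (r + 1)) + 2 * nb)) =
      2 ^ L * (3 * T (fun i => En G i (r + 1)) b L +
        2 * nb * ∑ i ∈ Icc b L, (3 / 4 : ℝ) ^ (L - i)) := by
    calc _ = ∑ i ∈ Icc b L, ((2 : ℝ) ^ L * 3 * ((3 / 4 : ℝ) ^ (L - i) *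
          (En G i (r + 1) - En G L (r + 1))) + 2 ^ L * (2 * nb) * (3 / 4 : ℝ) ^ (L - i)) := by
          refine sum_congr rfl fun i _ => ?_
          ring
      _ = 2 ^ L * 3 * T (fun i => En G i (r + 1)) b L +
          2 ^ L * (2 * nb) * ∑ i ∈ Icc b L, (3 / 4 : ℝ) ^ (L - i) := by
          rw [sum_add_distrib, ← mul_sum, ← mul_sum]
          rfl
      _ = _ := by ring
  have hQ := Q_le b L hbL
  have h6 : 2 * nb * ∑ i ∈ Icc b L, (3 / 4 : ℝ) ^ (L - i) ≤ 8 * nb := by nlinarith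
  have h2L : (0 : ℝ) < 2 ^ L := by positivity
  have e7 : (2 : ℝ) ^ b / 2 ^ L = (1 / 2) ^ (L - b) := by
    have e5 : (2 : ℝ) ^ L = 2 ^ (L - b) * 2 ^ b := by
      rw [← pow_add, Nat.sub_add_cancel hbL]
    rw [e5, one_div, inv_pow]
    field_simp
  calc _ ≤ 4 / 2 ^ L * (2 ^ L * (3 * T (fun i => En G i (r + 1)) b L + 8 * nb) +
        8 * 2 ^ b * En G b (r + 1)) := by
        refine mul_le_mul_of_nonneg_left ?_ (by positivity)
        refine add_le_add ?_ h4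
        refine (sum_le_sum h2).trans ?_
        rw [h5]
        refine mul_le_mul_of_nonneg_left ?_ h2L.le
        linarith
    _ = 12 * T (fun i => En G i (r + 1)) b L + 32 * nb +
        32 * ((2 : ℝ) ^ b / 2 ^ L) * En G b (r + 1) := by
        field_simp
        ring
    _ = _ := by rw [e7]

theorem geom (b m : ℕ) (h : b ≤ m) :
    ∑ j ∈ Ico b m, (1 / 2 : ℝ) ^ (j + 1 - b) ≤ 1 - (1 / 2) ^ (m - b) := by
  induction m, h using Nat.le_induction with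
  | base => simp
  | succ m hm ih =>
    rw [sum_Ico_succ_top hm, Nat.succ_sub hm, pow_succ]
    linarith

end Pool.Agent.N610.JV.SUM_

namespace Pool.Agent.N610.JV

open Finset SUM_

theorem t_SUM (h1 : S_DROP) (h2 : S_NB) : S_SUM := by
  obtain ⟨C, hC, h2⟩ := h2
  refine ⟨176 + 32 * C, by positivity, ?_⟩
  intro G _ b r hbr
  have h3 : ∀ j ∈ Ico b r, ∑ P ∈ range (2 ^ (r - j - 1)), 2 ^ (j + 1) / 4 ^ j *
        Z G b j P (S G (j + 1) P / 2 ^ (j + 1)) ≤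
      12 * T (fun i => En G i (r + 1)) b (j + 1) +
        32 * ∑ n ∈ range (2 ^ r), (blk G (j + 1) n - blk G (j + 1) (n + 2 ^ (j + 1))) ^ 2 +
        32 * (1 / 2) ^ (j + 1 - b) * En G b (r + 1) := by
    intro j hj
    rw [mem_Ico] at hj
    exact window h1 G hj.1 hj.2
  refine (sum_le_sum h3).trans ?_
  rw [sum_add_distrib, sum_add_distrib, ← mul_sum, ← mul_sum, ← sum_mul, ← mul_sum]
  have h4 := h2 G b r hbr
  have h5 := geom b r hbr
  have hE : ∀ i j, i ≤ j → j ≤ r → En G j (r + 1) ≤ En G i (r + 1) := fun i j hij hj =>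
    En_anti h1 G hij (by omega)
  have h6 := T_sum (fun i => En G i (r + 1)) b r hbr hE
  have h7 : 0 ≤ T (fun i => En G i (r + 1)) b r :=
    T_nonneg _ _ _ fun i hi => hE i r hi le_rfl
  have h8 := En_nonneg G r (r + 1)
  have h9 := En_nonneg G b (r + 1)
  have h10 : ∑ j ∈ Ico b r, (1 / 2 : ℝ) ^ (j + 1 - b) ≤ 1 := by
    have : (0 : ℝ) ≤ (1 / 2) ^ (r - b) := by positivity
    linarith
  have h11 : 32 * (∑ j ∈ Ico b r, (1 / 2 : ℝ) ^ (j + 1 - b)) * En G b (r + 1) ≤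
      32 * En G b (r + 1) := by nlinarith
  nlinarith

end Pool.Agent.N610.JV
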