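import Pool.Agent.N610.JV.Stm
import Pool.Agent.TH977.PW.Inst

set_option autoImplicit false

/-!
# From the abstract jump inequality to sets of primes in (X, X + Y] (project JV, task UP)

Worker: helper284.
-/

namespace Pool.Agent.N610.JV.UP_

open Finset Filter
open Pool.Agent.N610.JV

open Classical in
lemma count_mono (A : Set ℕ) (a b a' b' : ℕ) (ha : a' ≤ a) (hb : b ≤ b') :
    count A a b ≤ count A a' b' := by
  unfold count
  apply card_le_card
  intro m hm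
  rw [mem_filter, mem_Ioc] at hm ⊢
  exact ⟨⟨by omega, by omega⟩, hm.2⟩

open Classical in
lemma count_add (A : Set ℕ) (a b c : ℕ) (hab : a ≤ b) (hbc : b ≤ c) :
    count A a b + count A b c = count A a c := by
  unfold count
  rw [← Ioc_union_Ioc_eq_Ioc hab hbc, filter_union, card_union_of_disjoint]
  apply disjoint_filter_filter
  rw [disjoint_left]
  intro m hm hm'
  rw [mem_Ioc] at hm hm'
  omega

open Classical in
lemma count_le (A : Set ℕ) (a b : ℕ) : count A a b ≤ b - a := by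
  unfold count
  refine (card_filter_le _ _).trans ?_
  rw [Nat.card_Ioc]

/-- the counting function -/
noncomputable def G (A : Set ℕ) (X Y D u : ℕ) : ℝ := (count A X (X + min (u - D) (2 * Y)) : ℝ)

lemma G_mono (A : Set ℕ) (X Y D : ℕ) : Monotone (G A X Y D) := by
  intro u v huv
  unfold G
  have := count_mono A X (X + min (u - D) (2 * Y)) X (X + min (v - D) (2 * Y)) le_rfl (by omega)
  exact_mod_cast this

lemma avg_eq (A : Set ℕ) (X Y D n H : ℕ) (h1 : X < n) (h2 : n ≤ X + Y) (hH : H ≤ Y) :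
    avg (G A X Y D) (n - X + D) H = (count A n (n + H) : ℝ) / H := by
  unfold avg G
  have e1 : X + min (n - X + D + H - D) (2 * Y) = n + H := by omega
  have e2 : X + min (n - X + D - D) (2 * Y) = n := by omega
  rw [e1, e2]
  congr 1
  have := count_add A X n (n + H) (by omega) (by omega)
  have h3 : ((count A X n : ℕ) : ℝ) + (count A n (n + H) : ℕ) = (count A X (n + H) : ℕ) := by
    exact_mod_cast this
  linarith

lemma sum_blocks (f : ℕ → ℝ) (D M : ℕ) (hD : 0 < D) :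
    ∑ n ∈ range (M * D), f (n / D) = D * ∑ q ∈ range M, f q := by
  induction M with
  | zero => simp
  | succ M ih =>
    rw [Nat.succ_mul, sum_range_add, ih, sum_range_succ, mul_add]
    congr 1
    rw [sum_congr rfl (g := fun _ => f M)]
    · rw [sum_const, card_range, nsmul_eq_mul]
    · intro x hx
      rw [mem_range] at hx
      congr 1
      rw [Nat.add_comm, Nat.add_mul_div_right _ _ hD, Nat.div_eq_of_lt hx, Nat.zero_add]

lemma sum_Ico_blocks (a : ℕ → ℝ) (D M : ℕ) :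
    ∑ q ∈ range M, ∑ v ∈ Ico (q * D) ((q + 1) * D), a v = ∑ v ∈ range (M * D), a v := by
  induction M with
  | zero => simp
  | succ M ih =>
    rw [sum_range_succ, ih, range_eq_Ico, range_eq_Ico, sum_Ico_consecutive _ (Nat.zero_le _)
      (Nat.mul_le_mul_right _ (Nat.le_succ _))]

lemma En_eq (g : ℕ → ℝ) (b r : ℕ) (hb : b ≤ r) :
    En g b r = ∑ q ∈ range (2 ^ (r - b)), S g b q ^ 2 / 2 ^ b := by
  unfold En blk
  have h1 : (2 : ℕ) ^ r = 2 ^ (r - b) * 2 ^ b := by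
    rw [← pow_add]
    congr 1
    omega
  rw [h1]
  have h2 := sum_blocks (fun q => (S g b q / 2 ^ b) ^ 2) (2 ^ b) (2 ^ (r - b)) (by positivity)
  rw [h2, mul_sum]
  apply sum_congr rfl
  intro q _
  push_cast
  field_simp

/-- the number of the elements in a block -/
lemma S_eq (A : Set ℕ) (X Y b q : ℕ) :
    S (G A X Y (2 ^ b)) b (q + 1) =
      (count A (X + min (q * 2 ^ b) (2 * Y)) (X + min ((q + 1) * 2 ^ b) (2 * Y)) : ℝ) := by
  unfold S G
  have e1 : (q + 1 + 1) * 2 ^ b - 2 ^ b = (q + 1) * 2 ^ b := by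
    rw [Nat.succ_mul]
    omega
  have e2 : (q + 1) * 2 ^ b - 2 ^ b = q * 2 ^ b := by
    rw [Nat.succ_mul]
    omega
  rw [e1, e2]
  have h4 : q * 2 ^ b ≤ (q + 1) * 2 ^ b := Nat.mul_le_mul_right _ (Nat.le_succ _)
  have := count_add A X (X + min (q * 2 ^ b) (2 * Y)) (X + min ((q + 1) * 2 ^ b) (2 * Y))
    (by omega) (by omega)
  have h3 : ((count A X (X + min (q * 2 ^ b) (2 * Y)) : ℕ) : ℝ) +
      (count A (X + min (q * 2 ^ b) (2 * Y)) (X + min ((q + 1) * 2 ^ b) (2 * Y)) : ℕ) =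
      (count A X (X + min ((q + 1) * 2 ^ b) (2 * Y)) : ℕ) := by
    exact_mod_cast this
  linarith

lemma S_zero (A : Set ℕ) (X Y b : ℕ) : S (G A X Y (2 ^ b)) b 0 = 0 := by
  unfold S G
  have e1 : (0 + 1) * 2 ^ b - 2 ^ b = 0 := by omega
  have e2 : 0 * 2 ^ b - 2 ^ b = 0 := by omega
  rw [e1, e2, sub_self]

/-- the energy of the smallest blocks -/
lemma energy (A : Set ℕ) (X Y b l r : ℕ) (hl : 2 * 2 ^ b ≤ l) (hb : b ≤ r) :
    ((2 ^ b : ℕ) : ℝ) ^ 2 * En (G A X Y (2 ^ b)) b r ≤ ((2 ^ b : ℕ) : ℝ) ^ 3 +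
      ∑ n ∈ Ico X (X + 2 * Y + 1), ((count A n (n + l) : ℝ)) ^ 2 := by
  obtain ⟨D, hD⟩ : ∃ D, D = 2 ^ b := ⟨_, rfl⟩
  have hD0 : 0 < D := by rw [hD]; positivity
  have hDr : (0 : ℝ) < D := by exact_mod_cast hD0
  rw [En_eq _ _ _ hb]
  obtain ⟨M, hM⟩ : ∃ M, M = 2 ^ (r - b) := ⟨_, rfl⟩
  obtain ⟨T, hT⟩ : ∃ T : ℕ → ℝ, T = fun q => S (G A X Y (2 ^ b)) b q := ⟨_, rfl⟩
  have hT0 : T 0 = 0 := by rw [hT]; exact S_zero A X Y b
  have hT1 : ∀ q, T (q + 1) =
      (count A (X + min (q * D) (2 * Y)) (X + min ((q + 1) * D) (2 * Y)) : ℝ) := by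
    intro q
    rw [hT, hD]
    exact S_eq A X Y b q
  have hTD : T 1 ≤ D := by
    rw [hT1 0]
    have h1 := count_le A (X + min (0 * D) (2 * Y)) (X + min ((0 + 1) * D) (2 * Y))
    have h2 : count A (X + min (0 * D) (2 * Y)) (X + min ((0 + 1) * D) (2 * Y)) ≤ D := by omega
    exact_mod_cast h2
  have hTn : ∀ q, 0 ≤ T q := by
    intro q
    cases q with
    | zero => rw [hT0]
    | succ q => rw [hT1]; exact Nat.cast_nonneg _
  -- the sum
  obtain ⟨a, ha⟩ : ∃ a : ℕ → ℝ, a = fun v => if v ≤ 2 * Y then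
      ((count A (X + v) (X + v + l) : ℝ)) ^ 2 else 0 := ⟨_, rfl⟩
  have hkey : ∀ q, D * T (q + 2) ^ 2 ≤ ∑ v ∈ Ico (q * D) ((q + 1) * D), a v := by
    intro q
    rw [hT1 (q + 1)]
    rcases Nat.lt_or_ge ((q + 1) * D) (2 * Y) with h | h
    · have h1 : ∀ v ∈ Ico (q * D) ((q + 1) * D),
          ((count A (X + min ((q + 1) * D) (2 * Y)) (X + min ((q + 1 + 1) * D) (2 * Y)) : ℝ)) ^ 2
            ≤ a v := by
        intro v hv
        rw [mem_Ico] at hv
        rw [ha]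
        simp only
        rw [if_pos (by omega)]
        apply pow_le_pow_left₀ (Nat.cast_nonneg _)
        have h5 : (q + 1 + 1) * D = q * D + 2 * D := by ring
        have h6 := count_mono A (X + min ((q + 1) * D) (2 * Y)) (X + min ((q + 1 + 1) * D) (2 * Y))
          (X + v) (X + v + l) (by omega) (by rw [← hD] at hl; omega)
        exact_mod_cast h6
      refine le_trans (le_of_eq ?_) (sum_le_sum h1)
      rw [sum_const, Nat.card_Ico, nsmul_eq_mul]
      have : (q + 1) * D - q * D = D := by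
        rw [Nat.succ_mul]
        omega
      rw [this]
    · have h2 : (q + 1) * D ≤ (q + 1 + 1) * D := Nat.mul_le_mul_right _ (Nat.le_succ _)
      have h3 : count A (X + min ((q + 1) * D) (2 * Y)) (X + min ((q + 1 + 1) * D) (2 * Y)) = 0 := by
        have := count_le A (X + min ((q + 1) * D) (2 * Y)) (X + min ((q + 1 + 1) * D) (2 * Y))
        omega
      rw [h3]
      have h4 : ∀ v, 0 ≤ a v := by
        intro v
        rw [ha]
        simp only
        split_ifs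
        · positivity
        · exact le_rfl
      have := sum_nonneg (s := Ico (q * D) ((q + 1) * D)) (f := a) (fun v _ => h4 v)
      simpa using this
  have hsum : ∑ v ∈ range (M * D), a v ≤
      ∑ n ∈ Ico X (X + 2 * Y + 1), ((count A n (n + l) : ℝ)) ^ 2 := by
    rw [ha]
    rw [← sum_filter]
    have h1 : ∑ n ∈ Ico X (X + 2 * Y + 1), ((count A n (n + l) : ℝ)) ^ 2 =
        ∑ v ∈ range (2 * Y + 1), ((count A (X + v) (X + v + l) : ℝ)) ^ 2 := by
      rw [sum_Ico_eq_sum_range]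
      have : X + 2 * Y + 1 - X = 2 * Y + 1 := by omega
      rw [this]
    rw [h1]
    apply sum_le_sum_of_subset_of_nonneg
    · intro v hv
      rw [mem_filter] at hv
      rw [mem_range]
      omega
    · intro v _ _
      positivity
  have hM1 : 1 ≤ M := by rw [hM]; exact Nat.one_le_two_pow
  have hall : ∑ q ∈ range M, T q ^ 2 ≤ D ^ 2 + ∑ q ∈ range M, T (q + 2) ^ 2 := by
    have h1 : ∑ q ∈ range M, T q ^ 2 ≤ ∑ q ∈ range (M + 2), T q ^ 2 := by
      apply sum_le_sum_of_subset_of_nonneg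
      · apply range_subset_range.2
        omega
      · intro v _ _
        positivity
    refine h1.trans ?_
    rw [sum_range_succ', sum_range_succ', hT0]
    have h2 : T (0 + 1) ^ 2 ≤ (D : ℝ) ^ 2 := pow_le_pow_left₀ (hTn _) hTD 2
    have h3 : ∑ k ∈ range M, T (k + 1 + 1) ^ 2 = ∑ q ∈ range M, T (q + 2) ^ 2 := rfl
    rw [h3]
    linarith
  have hmul : (D : ℝ) * ∑ q ∈ range M, T (q + 2) ^ 2 ≤
      ∑ n ∈ Ico X (X + 2 * Y + 1), ((count A n (n + l) : ℝ)) ^ 2 := by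
    rw [mul_sum]
    refine (sum_le_sum (fun q _ => hkey q)).trans ?_
    rw [sum_Ico_blocks]
    exact hsum
  have e1 : ((2 ^ b : ℕ) : ℝ) ^ 2 * ∑ q ∈ range (2 ^ (r - b)), S (G A X Y (2 ^ b)) b q ^ 2 / 2 ^ b =
      D * ∑ q ∈ range M, T q ^ 2 := by
    rw [← hM, ← sum_div, hD, hT]
    push_cast
    field_simp
  rw [e1, ← hD]
  calc (D : ℝ) * ∑ q ∈ range M, T q ^ 2 ≤ D * (D ^ 2 + ∑ q ∈ range M, T (q + 2) ^ 2) := by
        gcongr
    _ = D ^ 3 + D * ∑ q ∈ range M, T (q + 2) ^ 2 := by ring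
    _ ≤ _ := by linarith

/-- changes are jumps -/
lemma jumps_of (A : Set ℕ) (X Y D r n : ℕ) (L lam : ℝ) (k : ℕ) (hL : L = Real.log X) (hL0 : 0 < L)
    (hDL : (D : ℝ) ≤ L) (hYr : Y ≤ 2 ^ r) (h1 : X < n) (h2 : n ≤ X + Y)
    (h : Changes A X Y n lam k) :
    Jumps (avg (G A X Y D) (n - X + D)) D (2 ^ r) (lam / L) k := by
  obtain ⟨s, t, hst, hord⟩ := h
  refine ⟨s, t, ?_, hord⟩
  intro i hi
  obtain ⟨a1, a2, a3, a4⟩ := hst i hi
  refine ⟨?_, a2, a3.trans hYr, ?_⟩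
  · rw [← hL] at a1
    exact_mod_cast hDL.trans a1
  · rw [avg_eq A X Y D n (t i) h1 h2 a3, avg_eq A X Y D n (s i) h1 h2 (by omega),
      div_le_iff₀ hL0, ← abs_of_pos hL0, ← abs_mul]
    unfold density at a4
    rw [← hL] at a4
    refine a4.trans (le_of_eq ?_)
    congr 1
    ring

/-- the inequality for one interval -/
lemma one (CJ : ℝ) (hJ : ∀ (G : ℕ → ℝ), Monotone G → ∀ b r : ℕ, b ≤ r →
      ∀ lam : ℝ, 0 < lam → ∀ N : ℕ → ℕ,
        (∀ n < 2 ^ r, Jumps (avg G n) (2 ^ b) (2 ^ r) lam (N n)) →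
          lam ^ 2 * ∑ n ∈ range (2 ^ r), (N n : ℝ) ≤ CJ * En G b (r + 1)) (hCJ : 0 < CJ)
    (A : Set ℕ) (X Y : ℕ) (C2 : ℝ) (hlog : 4 ≤ Real.log X) (hY : Real.log X ^ 3 ≤ Y)
    (hpair : ∑ n ∈ Ico X (X + 2 * Y + 1), ((count A n (n + ⌊Real.log X⌋₊) : ℝ)) ^ 2 ≤ C2 * Y)
    (lam : ℝ) (hlam : 0 < lam) (N : ℕ → ℕ)
    (hN : ∀ n, X < n → n ≤ X + Y → Changes A X Y n lam (N n)) :
    ∑ n ∈ Finset.Ioc X (X + Y), (N n : ℝ) ≤ 16 * CJ * (1 + C2) * Y / lam ^ 2 := by
  obtain ⟨L, hL⟩ : ∃ L, L = Real.log X := ⟨_, rfl⟩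
  rw [← hL] at hlog hY hpair
  have hL0 : 0 < L := by linarith
  obtain ⟨l, hl⟩ : ∃ l, l = ⌊L⌋₊ := ⟨_, rfl⟩
  have hlL : (l : ℝ) ≤ L := by rw [hl]; exact Nat.floor_le hL0.le
  have hLl : L < l + 1 := by rw [hl]; exact Nat.lt_floor_add_one L
  have hl4 : 4 ≤ l := by
    rw [hl]
    exact Nat.le_floor (by exact_mod_cast hlog)
  obtain ⟨e, he⟩ : ∃ e, e = Nat.log 2 l := ⟨_, rfl⟩
  have he1 : 2 ^ e ≤ l := by rw [he]; exact Nat.pow_log_le_self 2 (by omega)
  have he2 : l < 2 ^ (e + 1) := by rw [he]; exact Nat.lt_pow_succ_log_self one_lt_two l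
  have he3 : 1 ≤ e := by
    rcases Nat.eq_zero_or_pos e with h0 | h0
    · rw [h0] at he2
      norm_num at he2
      omega
    · exact h0
  obtain ⟨b, hb⟩ : ∃ b, e = b + 1 := ⟨e - 1, by omega⟩
  rw [hb] at he1 he2
  obtain ⟨D, hD⟩ : ∃ D, D = 2 ^ b := ⟨_, rfl⟩
  have hD0 : 0 < D := by rw [hD]; positivity
  have hD2 : 2 * D ≤ l := by
    rw [hD]
    rw [pow_succ] at he1
    omega
  have hD4 : l < 4 * D := by
    rw [hD]
    rw [pow_succ, pow_succ] at he2
    omega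
  have hD2r : 2 * (D : ℝ) ≤ L := by
    refine le_trans ?_ hlL
    exact_mod_cast hD2
  have hD4r : L ≤ 4 * D := by
    have : l + 1 ≤ 4 * D := hD4
    have h2 : (l : ℝ) + 1 ≤ 4 * D := by exact_mod_cast this
    linarith
  have hDr : (0 : ℝ) < D := by exact_mod_cast hD0
  have hDY : D ≤ Y := by
    have : (D : ℝ) ≤ Y := by
      refine le_trans ?_ hY
      calc (D : ℝ) ≤ L := by linarith
        _ = L ^ 1 := (pow_one _).symm
        _ ≤ L ^ 3 := pow_le_pow_right₀ (by linarith) (by norm_num)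
    exact_mod_cast this
  obtain ⟨r, hr⟩ : ∃ r, r = Nat.log 2 (Y + D) + 1 := ⟨_, rfl⟩
  have hr1 : Y + D < 2 ^ r := by rw [hr]; exact Nat.lt_pow_succ_log_self one_lt_two _
  have hbr : b ≤ r := by
    by_contra hcon
    have : 2 ^ r ≤ 2 ^ b := Nat.pow_le_pow_right (by norm_num) (by omega)
    omega
  -- the numbers of jumps
  obtain ⟨N', hN'⟩ : ∃ N' : ℕ → ℕ, N' = fun u => if D < u ∧ u ≤ Y + D then N (X + u - D) else 0 :=
    ⟨_, rfl⟩
  have hjump : ∀ u < 2 ^ r, Jumps (avg (G A X Y D) u) (2 ^ b) (2 ^ r) (lam / L) (N' u) := by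
    intro u _
    rw [hN']
    simp only
    split_ifs with hu
    · have h1 := jumps_of A X Y D r (X + u - D) L lam (N (X + u - D)) hL hL0 (by linarith)
        (by omega) (by omega) (by omega) (hN _ (by omega) (by omega))
      have e1 : X + u - D - X + D = u := by omega
      rw [e1] at h1
      rw [← hD]
      exact h1
    · exact ⟨fun _ => 0, fun _ => 0, fun i hi => absurd hi (Nat.not_lt_zero _),
        fun i hi => absurd hi (Nat.not_lt_zero _)⟩
  have hmain := hJ (G A X Y D) (G_mono A X Y D) b r hbr (lam / L) (by positivity) N' hjump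
  have hsumN : ∑ n ∈ Finset.Ioc X (X + Y), (N n : ℝ) ≤ ∑ n ∈ range (2 ^ r), (N' n : ℝ) := by
    have h1 : ∑ n ∈ Finset.Ioc X (X + Y), (N n : ℝ) = ∑ u ∈ Finset.Ioc D (Y + D), (N' u : ℝ) := by
      apply Finset.sum_bij (fun n _ => n - X + D)
      · intro n hn
        rw [mem_Ioc] at hn ⊢
        omega
      · intro n hn m hm h
        rw [mem_Ioc] at hn hm
        omega
      · intro u hu
        rw [mem_Ioc] at hu
        refine ⟨X + u - D, ?_, ?_⟩
        · rw [mem_Ioc]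
          omega
        · omega
      · intro n hn
        rw [mem_Ioc] at hn
        rw [hN']
        simp only
        rw [if_pos (by omega)]
        congr 2
        omega
    rw [h1]
    apply sum_le_sum_of_subset_of_nonneg
    · intro u hu
      rw [mem_Ioc] at hu
      rw [mem_range]
      omega
    · intro u _ _
      positivity
  have hen := energy A X Y b l (r + 1) (by rw [← hD]; exact hD2) (by omega)
  rw [← hD] at hen
  rw [← hl] at hpair
  have hD3 : (D : ℝ) ^ 3 ≤ Y := by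
    refine le_trans ?_ hY
    exact pow_le_pow_left₀ hDr.le (by linarith) 3
  have hen2 : (D : ℝ) ^ 2 * En (G A X Y D) b (r + 1) ≤ (1 + C2) * Y := by linarith
  have hD16 : L ^ 2 ≤ 16 * (D : ℝ) ^ 2 := by
    calc L ^ 2 ≤ (4 * D) ^ 2 := pow_le_pow_left₀ hL0.le hD4r 2
      _ = 16 * (D : ℝ) ^ 2 := by ring
  have hEn0 : 0 ≤ En (G A X Y D) b (r + 1) := by
    unfold En
    exact sum_nonneg fun n _ => sq_nonneg _
  have hen3 : L ^ 2 * En (G A X Y D) b (r + 1) ≤ 16 * ((1 + C2) * Y) := by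
    calc L ^ 2 * En (G A X Y D) b (r + 1) ≤ 16 * (D : ℝ) ^ 2 * En (G A X Y D) b (r + 1) := by
          gcongr
      _ = 16 * ((D : ℝ) ^ 2 * En (G A X Y D) b (r + 1)) := by ring
      _ ≤ _ := by linarith
  rw [le_div_iff₀ (by positivity)]
  calc (∑ n ∈ Finset.Ioc X (X + Y), (N n : ℝ)) * lam ^ 2 ≤
        (∑ n ∈ range (2 ^ r), (N' n : ℝ)) * lam ^ 2 := by gcongr
    _ = L ^ 2 * ((lam / L) ^ 2 * ∑ n ∈ range (2 ^ r), (N' n : ℝ)) := by
        field_simp
    _ ≤ L ^ 2 * (CJ * En (G A X Y D) b (r + 1)) := by gcongr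
    _ = CJ * (L ^ 2 * En (G A X Y D) b (r + 1)) := by ring
    _ ≤ CJ * (16 * ((1 + C2) * Y)) := by gcongr
    _ = 16 * CJ * (1 + C2) * Y := by ring

/-! ### the input from the sieve -/

/-- the system consisting of the polynomial `X` -/
noncomputable def fX : Fin 1 → Polynomial ℤ := fun _ => Pool.Agent.W182.PW.lin 1 0

lemma fX_sys : Pool.Agent.W123.RU.Poly.Sys fX :=
  Pool.Agent.TH977.PW.sys_lin (fun _ : Fin 1 => 1) (fun _ => 0)
    (fun _ => one_pos) (fun _ => by norm_num [isCoprime_one_left])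
    (fun _ _ _ _ => Subsingleton.elim _ _)
    (fun p hp => ⟨1, fun _ hd => by
      have h1 : (p : ℤ) ∣ ((1 : ℕ) : ℤ) := by simpa using hd
      exact hp.one_lt.ne' (Nat.dvd_one.1 (Int.natCast_dvd_natCast.1 h1))⟩)

open Classical in
/-- second moment of the number of elements of `A` in short intervals -/
lemma pair_input (θ : ℝ) (hθ : 0 < θ) (hθ1 : θ ≤ 1) (r : ℕ) (hr : 1 ≤ r) :
    ∃ C2 : ℝ, 0 < C2 ∧ ∀ᶠ X : ℕ in atTop, ∀ Y : ℕ, (X : ℝ) ^ θ ≤ Y → 2 * Y ≤ X →
      ∀ A : Set ℕ, (∀ n ∈ A, ∀ p : ℕ, p.Prime → p ∣ n → (n : ℝ) ^ (1 / (r : ℝ)) ≤ p) →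
        ∑ n ∈ Ico X (X + 2 * Y + 1), ((count A n (n + ⌊Real.log X⌋₊) : ℝ)) ^ 2 ≤ C2 * Y := by
  obtain ⟨K1, hK1, hup⟩ := Pool.Agent.TH977.PW.upper_input fX fX_sys θ hθ hθ1
  obtain ⟨r', hr'⟩ : ∃ r', r' = max K1 r := ⟨_, rfl⟩
  have hrr : r ≤ r' := by rw [hr']; exact le_max_right _ _
  obtain ⟨C1, C2, hC1, hC2, hin⟩ := hup r' (by rw [hr']; exact le_max_left _ _)
  refine ⟨2 * C2, by positivity, ?_⟩
  filter_upwards [hin 1 one_pos, eventually_ge_atTop 1] with X hX hX1 Y hXY hYX A hA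
  have hXY2 : (X : ℝ) ^ θ ≤ ((2 * Y : ℕ) : ℝ) := by
    push_cast
    have : (0 : ℝ) ≤ Y := Nat.cast_nonneg _
    linarith
  obtain ⟨-, -, -, h4⟩ := hX (2 * Y) hXY2 hYX
  rw [Fintype.card_fin, pow_one] at h4
  have hr0 : (0 : ℝ) < r := by exact_mod_cast (by omega : 0 < r)
  have hr0' : (0 : ℝ) < r' := by exact_mod_cast (by omega : 0 < r')
  have hX1r : (1 : ℝ) ≤ X := by exact_mod_cast hX1
  have hrough : ∀ m ∈ A, X < m →
      Pool.Agent.TH464.PW.Rgh fX r' X (2 * Y) (m - (X - 2 * Y)) := by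
    intro m hm hXm p hp hq
    obtain ⟨i, hi⟩ := hq
    have hpp := (Pool.Agent.H373R2.T7.mem_pz.1 hp).2
    have h2 := Pool.Agent.W123.RU.mem_pz' (by positivity) hp
    have e1 : m - (X - 2 * Y) + (X - 2 * Y) = m := by omega
    rw [e1] at hi
    have h1 : p ∣ m := by
      have h3 : (p : ℤ) ∣ ((m : ℕ) : ℤ) := by
        have h5 : (fX i).eval (m : ℤ) = (m : ℤ) := by
          unfold fX
          rw [Pool.Agent.W182.PW.lin_eval]
          push_cast
          ring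
        rw [h5] at hi
        exact hi
      exact Int.natCast_dvd_natCast.1 h3
    have h3 := hA m hm p hpp h1
    have hXmr : (X : ℝ) < m := by exact_mod_cast hXm
    have h6 : (X : ℝ) ^ (1 / (r' : ℝ)) ≤ (X : ℝ) ^ (1 / (r : ℝ)) := by
      apply Real.rpow_le_rpow_of_exponent_le hX1r
      apply one_div_le_one_div_of_le hr0
      exact_mod_cast hrr
    have h7 : (X : ℝ) ^ (1 / (r : ℝ)) < (m : ℝ) ^ (1 / (r : ℝ)) :=
      Real.rpow_lt_rpow (by linarith) hXmr (by positivity)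
    linarith
  have hle : ∀ n ∈ Ico X (X + 2 * Y + 1), ((count A n (n + ⌊Real.log X⌋₊) : ℝ)) ^ 2 ≤
      ((Pool.Agent.W123.RP.co (Pool.Agent.TH464.PW.Rgh fX r' X (2 * Y)) (n - (X - 2 * Y))
        (n - (X - 2 * Y) + ⌊Real.log X⌋₊) : ℝ)) ^ 2 := by
    intro n hn
    rw [mem_Ico] at hn
    apply pow_le_pow_left₀ (Nat.cast_nonneg _)
    have : count A n (n + ⌊Real.log X⌋₊) ≤
        Pool.Agent.W123.RP.co (Pool.Agent.TH464.PW.Rgh fX r' X (2 * Y)) (n - (X - 2 * Y))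
          (n - (X - 2 * Y) + ⌊Real.log X⌋₊) := by
      unfold count Pool.Agent.W123.RP.co
      apply Finset.card_le_card_of_injOn (fun m => m - (X - 2 * Y))
      · intro m hm
        rw [Finset.mem_coe, mem_filter, mem_Ioc] at hm
        rw [Finset.mem_coe, mem_filter, mem_Ioc]
        beta_reduce
        exact ⟨⟨by omega, by omega⟩, hrough m hm.2 (by omega)⟩
      · intro a ha b hb hab
        rw [Finset.mem_coe, mem_filter, mem_Ioc] at ha hb
        simp only at hab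
        omega
    exact_mod_cast this
  refine (sum_le_sum hle).trans ?_
  have e2 : ∑ n ∈ Ico X (X + 2 * Y + 1),
      ((Pool.Agent.W123.RP.co (Pool.Agent.TH464.PW.Rgh fX r' X (2 * Y)) (n - (X - 2 * Y))
        (n - (X - 2 * Y) + ⌊Real.log X⌋₊) : ℝ)) ^ 2 =
      ∑ n ∈ Ico (2 * Y) (2 * (2 * Y) + 1),
      ((Pool.Agent.W123.RP.co (Pool.Agent.TH464.PW.Rgh fX r' X (2 * Y)) n
        (n + ⌊Real.log X⌋₊) : ℝ)) ^ 2 := by
    apply Finset.sum_bij (fun n _ => n - (X - 2 * Y))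
    · intro n hn
      rw [mem_Ico] at hn ⊢
      omega
    · intro n hn m hm h
      rw [mem_Ico] at hn hm
      omega
    · intro u hu
      rw [mem_Ico] at hu
      refine ⟨u + (X - 2 * Y), ?_, ?_⟩
      · rw [mem_Ico]
        omega
      · omega
    · intro n hn
      rfl
  rw [e2]
  refine h4.trans (le_of_eq ?_)
  push_cast
  ring

end Pool.Agent.N610.JV.UP_

namespace Pool.Agent.N610.JV

open Finset Filter

theorem t_UP (h : S_JUMP) : S_UP := by
  obtain ⟨CJ, hCJ, hJ⟩ := h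
  intro θ hθ hθ1 r hr
  obtain ⟨C2, hC2, hpair⟩ := UP_.pair_input θ hθ hθ1 r hr
  refine ⟨16 * CJ * (1 + C2), by positivity, ?_⟩
  have hlogX : Tendsto (fun X : ℕ => Real.log (X : ℝ)) atTop atTop :=
    Real.tendsto_log_atTop.comp tendsto_natCast_atTop_atTop
  filter_upwards [hpair, Pool.Agent.TH464.PW.logpow_rpow 3 1 θ one_pos hθ,
    hlogX.eventually_ge_atTop 4] with X hX1 hX2 hX3 Y hXY hYX A hA lam hlam N hN
  exact UP_.one CJ hJ hCJ A X Y C2 hX3 (by linarith) (hX1 Y hXY hYX A hA) lam hlam N hN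

end Pool.Agent.N610.JV
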