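import Pool.Agent.N610.JV.Stm

set_option autoImplicit false

/-!
# Jump inequality for averages over intervals: one window
-/

namespace Pool.Agent.N610.JV

open Finset

namespace WIN_

/-- `G` minus the linear function of slope `κ` -/
def ps (G : ℕ → ℝ) (κ : ℝ) (x : ℕ) : ℝ := G x - κ * x

/-- the deviation on a block -/
def B (G : ℕ → ℝ) (κ : ℝ) (i c : ℕ) : ℝ := S G i c - κ * 2 ^ i

/-- the sum over the blocks of level `i` contained in `[x, y)` -/
noncomputable def T (G : ℕ → ℝ) (κ : ℝ) (J P i x y : ℕ) : ℝ :=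
  ∑ c ∈ Ico (P * 2 ^ (J - i)) ((P + 2) * 2 ^ (J - i)),
    if x ≤ c * 2 ^ i ∧ (c + 1) * 2 ^ i ≤ y then B G κ i c ^ 2 else 0

/-- the sum over the levels -/
noncomputable def F1 (G : ℕ → ℝ) (κ : ℝ) (J P i x y : ℕ) : ℝ :=
  ∑ l ∈ Icc i J, (3 / 2 : ℝ) ^ (J - l) * T G κ J P l x y

/-- the trivial bound -/
def om (G : ℕ → ℝ) (κ : ℝ) (x y : ℕ) : ℝ := (G y - G x) + κ * ((y : ℝ) - x)

/-- the nearest point of the block -/
def cl (q c x : ℕ) : ℕ := max (c * q) (min x ((c + 1) * q))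

/-- the sum over the ends -/
noncomputable def F2 (G : ℕ → ℝ) (κ : ℝ) (J P b x y : ℕ) : ℝ :=
  ∑ c ∈ Ico (P * 2 ^ (J - b)) ((P + 2) * 2 ^ (J - b)),
    om G κ (cl (2 ^ b) c x) (cl (2 ^ b) c y) ^ 2

variable {G : ℕ → ℝ} {κ : ℝ} {J P : ℕ}

lemma B_eq (i c : ℕ) : B G κ i c = ps G κ ((c + 1) * 2 ^ i) - ps G κ (c * 2 ^ i) := by
  unfold B S ps
  push_cast
  ring

lemma T_nonneg (i x y : ℕ) : 0 ≤ T G κ J P i x y :=
  Finset.sum_nonneg fun c _ => by
    split_ifs
    · exact sq_nonneg _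
    · exact le_rfl

lemma T_mono (i : ℕ) {x x' y y' : ℕ} (hx : x ≤ x') (hy : y' ≤ y) :
    T G κ J P i x' y' ≤ T G κ J P i x y := by
  refine Finset.sum_le_sum fun c _ => ?_
  by_cases h : x' ≤ c * 2 ^ i ∧ (c + 1) * 2 ^ i ≤ y'
  · rw [if_pos h, if_pos ⟨hx.trans h.1, h.2.trans hy⟩]
  · rw [if_neg h]
    split_ifs
    · exact sq_nonneg _
    · exact le_rfl

lemma T_super (i : ℕ) {x y z : ℕ} (hxy : x ≤ y) (hyz : y ≤ z) :
    T G κ J P i x y + T G κ J P i y z ≤ T G κ J P i x z := by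
  unfold T
  rw [← Finset.sum_add_distrib]
  refine Finset.sum_le_sum fun c _ => ?_
  have hpos : c * 2 ^ i < (c + 1) * 2 ^ i :=
    Nat.mul_lt_mul_of_pos_right (Nat.lt_succ_self c) (by positivity)
  by_cases h1 : x ≤ c * 2 ^ i ∧ (c + 1) * 2 ^ i ≤ y
  · rw [if_pos h1, if_neg (by omega), if_pos ⟨h1.1, h1.2.trans hyz⟩, add_zero]
  · rw [if_neg h1, zero_add]
    by_cases h2 : y ≤ c * 2 ^ i ∧ (c + 1) * 2 ^ i ≤ z
    · rw [if_pos h2, if_pos ⟨hxy.trans h2.1, h2.2⟩]
    · rw [if_neg h2]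
      split_ifs
      · exact sq_nonneg _
      · exact le_rfl

lemma T_le (i x y : ℕ) : T G κ J P i x y ≤
    ∑ c ∈ Ico (P * 2 ^ (J - i)) ((P + 2) * 2 ^ (J - i)), B G κ i c ^ 2 := by
  refine Finset.sum_le_sum fun c _ => ?_
  split_ifs
  · exact le_rfl
  · exact sq_nonneg _

lemma F1_nonneg (i x y : ℕ) : 0 ≤ F1 G κ J P i x y :=
  Finset.sum_nonneg fun _ _ => mul_nonneg (by positivity) (T_nonneg _ _ _)

lemma F1_mono (i : ℕ) {x x' y y' : ℕ} (hx : x ≤ x') (hy : y' ≤ y) :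
    F1 G κ J P i x' y' ≤ F1 G κ J P i x y :=
  Finset.sum_le_sum fun _ _ => mul_le_mul_of_nonneg_left (T_mono _ hx hy) (by positivity)

lemma F1_super (i : ℕ) {x y z : ℕ} (hxy : x ≤ y) (hyz : y ≤ z) :
    F1 G κ J P i x y + F1 G κ J P i y z ≤ F1 G κ J P i x z := by
  unfold F1
  rw [← Finset.sum_add_distrib]
  refine Finset.sum_le_sum fun l _ => ?_
  rw [← mul_add]
  exact mul_le_mul_of_nonneg_left (T_super _ hxy hyz) (by positivity)

lemma T_ge {i d u v : ℕ} (hid : i + d = J) (hu : P * 2 ^ d ≤ u) (hv : v ≤ (P + 2) * 2 ^ d) :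
    ∑ c ∈ Ico u v, B G κ i c ^ 2 ≤ T G κ J P i (u * 2 ^ i) (v * 2 ^ i) := by
  unfold T
  rw [← Finset.sum_filter]
  refine Finset.sum_le_sum_of_subset_of_nonneg ?_ fun _ _ _ => sq_nonneg _
  intro c hc
  rw [Finset.mem_Ico] at hc
  have hJ : J - i = d := by omega
  rw [Finset.mem_filter, Finset.mem_Ico, hJ]
  exact ⟨⟨by omega, by omega⟩, Nat.mul_le_mul_right _ hc.1, Nat.mul_le_mul_right _ hc.2⟩

lemma cs {x₁ x₂ D w A F : ℝ} (hw : 0 < w) (hA : 0 < A) (hD : D ^ 2 ≤ A * F) :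
    (x₁ + x₂ + D) ^ 2 ≤ (2 / w + A) * (w * (x₁ ^ 2 + x₂ ^ 2) + F) := by
  have h2 : (x₁ + x₂) ^ 2 ≤ 2 * (x₁ ^ 2 + x₂ ^ 2) := by nlinarith [sq_nonneg (x₁ - x₂)]
  set m : ℝ := A * w / 2 with hm
  have hm0 : 0 < m := by positivity
  have h1 : 2 * ((x₁ + x₂) * D) ≤ m * (x₁ + x₂) ^ 2 + D ^ 2 / m := by
    have h3 : 0 ≤ (m * (x₁ + x₂) - D) ^ 2 / m := by positivity
    have h4 : (m * (x₁ + x₂) - D) ^ 2 / m =
        m * (x₁ + x₂) ^ 2 + D ^ 2 / m - 2 * ((x₁ + x₂) * D) := by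
      field_simp
      ring
    linarith
  have h5 : m * (x₁ + x₂) ^ 2 ≤ A * w * (x₁ ^ 2 + x₂ ^ 2) := by
    calc m * (x₁ + x₂) ^ 2 ≤ m * (2 * (x₁ ^ 2 + x₂ ^ 2)) :=
          mul_le_mul_of_nonneg_left h2 hm0.le
      _ = _ := by rw [hm]; ring
  have h6 : D ^ 2 / m ≤ 2 / w * F := by
    calc D ^ 2 / m ≤ A * F / m := div_le_div_of_nonneg_right hD hm0.le
      _ = 2 / w * F := by
        rw [hm]
        field_simp
  have h7 : (2 / w + A) * (w * (x₁ ^ 2 + x₂ ^ 2) + F) =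
      2 * (x₁ ^ 2 + x₂ ^ 2) + 2 / w * F + A * w * (x₁ ^ 2 + x₂ ^ 2) + A * F := by
    field_simp
    ring
  rw [h7]
  nlinarith

/-- the two ends of an interval of blocks -/
lemma ends {f : ℕ → ℝ} {u v : ℕ} (huv : u < v) (i : ℕ)
    (hf : ∀ c, B G κ i c ^ 2 = f c) :
    (ps G κ ((2 * ((u + 1) / 2)) * 2 ^ i) - ps G κ (u * 2 ^ i)) ^ 2 +
      (ps G κ (v * 2 ^ i) - ps G κ ((2 * (v / 2)) * 2 ^ i)) ^ 2 ≤ ∑ c ∈ Ico u v, f c := by
  have hf0 : ∀ c, 0 ≤ f c := fun c => by rw [← hf]; exact sq_nonneg _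
  have h1 : u ≤ 2 * ((u + 1) / 2) := by omega
  have h2 : 2 * ((u + 1) / 2) ≤ 2 * (v / 2) := by omega
  have h3 : 2 * (v / 2) ≤ v := by omega
  rw [← Finset.sum_Ico_consecutive f h1 (h2.trans h3), ← Finset.sum_Ico_consecutive f h2 h3]
  have e1 : (ps G κ ((2 * ((u + 1) / 2)) * 2 ^ i) - ps G κ (u * 2 ^ i)) ^ 2 =
      ∑ c ∈ Ico u (2 * ((u + 1) / 2)), f c := by
    rcases Nat.even_or_odd' u with ⟨a, rfl | rfl⟩
    · have : 2 * ((2 * a + 1) / 2) = 2 * a := by omega
      rw [this, sub_self, Finset.Ico_self, Finset.sum_empty]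
      norm_num
    · have : 2 * ((2 * a + 1 + 1) / 2) = 2 * a + 1 + 1 := by omega
      rw [this, Nat.Ico_succ_singleton, Finset.sum_singleton, ← hf, B_eq]
  have e2 : (ps G κ (v * 2 ^ i) - ps G κ ((2 * (v / 2)) * 2 ^ i)) ^ 2 =
      ∑ c ∈ Ico (2 * (v / 2)) v, f c := by
    rcases Nat.even_or_odd' v with ⟨a, rfl | rfl⟩
    · have : 2 * ((2 * a) / 2) = 2 * a := by omega
      rw [this, sub_self, Finset.Ico_self, Finset.sum_empty]
      norm_num
    · have : 2 * ((2 * a + 1) / 2) = 2 * a := by omega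
      rw [this, Nat.Ico_succ_singleton, Finset.sum_singleton, ← hf, B_eq]
  rw [e1, e2]
  have e3 : 0 ≤ ∑ c ∈ Ico (2 * ((u + 1) / 2)) (2 * (v / 2)), f c :=
    Finset.sum_nonneg fun c _ => hf0 c
  linarith

lemma F1_succ {i : ℕ} (hi : i < J) (x y : ℕ) :
    F1 G κ J P i x y = (3 / 2 : ℝ) ^ (J - i) * T G κ J P i x y + F1 G κ J P (i + 1) x y := by
  unfold F1
  rw [← Finset.insert_Icc_succ_left_eq_Icc hi.le, Finset.sum_insert]
  · rfl
  · simp

/-- the canonical decomposition -/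
lemma full (d : ℕ) : ∀ i u v : ℕ, i + d = J → u ≤ v → P * 2 ^ d ≤ u → v ≤ (P + 2) * 2 ^ d →
    (ps G κ (v * 2 ^ i) - ps G κ (u * 2 ^ i)) ^ 2 ≤
      (6 - 4 * (2 / 3 : ℝ) ^ d) * F1 G κ J P i (u * 2 ^ i) (v * 2 ^ i) := by
  induction d with
  | zero =>
    intro i u v hid huv hu hv
    have hiJ : i = J := by omega
    subst hiJ
    have hsub : v - u ≤ 2 := by
      rw [pow_zero, mul_one] at hu hv
      omega
    have h1 : ps G κ (v * 2 ^ i) - ps G κ (u * 2 ^ i) = ∑ c ∈ Ico u v, B G κ i c := by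
      rw [Finset.sum_congr rfl fun c _ => B_eq i c]
      exact (Finset.sum_Ico_sub (fun c => ps G κ (c * 2 ^ i)) huv).symm
    have h2 : (∑ c ∈ Ico u v, B G κ i c) ^ 2 ≤ 2 * ∑ c ∈ Ico u v, B G κ i c ^ 2 := by
      refine (sq_sum_le_card_mul_sum_sq).trans ?_
      refine mul_le_mul_of_nonneg_right ?_ (Finset.sum_nonneg fun _ _ => sq_nonneg _)
      rw [Nat.card_Ico]
      exact_mod_cast hsub
    have h3 := T_ge (G := G) (κ := κ) hid hu hv
    have h4 : F1 G κ i P i (u * 2 ^ i) (v * 2 ^ i) = T G κ i P i (u * 2 ^ i) (v * 2 ^ i) := by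
      unfold F1
      rw [Finset.Icc_self, Finset.sum_singleton, Nat.sub_self, pow_zero, one_mul]
    rw [h1, h4, pow_zero]
    linarith
  | succ d ih =>
    intro i u v hid huv hu hv
    have hp : (2 / 3 : ℝ) ^ d ≤ 1 := pow_le_one₀ (by norm_num) (by norm_num)
    have hp' : (2 / 3 : ℝ) ^ (d + 1) ≤ 1 := pow_le_one₀ (by norm_num) (by norm_num)
    rcases huv.eq_or_lt with rfl | huv
    · rw [sub_self]
      have := F1_nonneg (G := G) (κ := κ) (J := J) (P := P) i (u * 2 ^ i) (u * 2 ^ i)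
      have h0 : (0 : ℝ) ^ 2 = 0 := by norm_num
      rw [h0]
      exact mul_nonneg (by linarith) this
    · rw [pow_succ, ← mul_assoc] at hu hv
      have hu' : P * 2 ^ d ≤ (u + 1) / 2 := by omega
      have hv' : v / 2 ≤ (P + 2) * 2 ^ d := by omega
      have h1 := ih (i + 1) ((u + 1) / 2) (v / 2) (by omega) (by omega) hu' hv'
      have e1 : (u + 1) / 2 * 2 ^ (i + 1) = (2 * ((u + 1) / 2)) * 2 ^ i := by
        rw [pow_succ]
        ring
      have e2 : v / 2 * 2 ^ (i + 1) = (2 * (v / 2)) * 2 ^ i := by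
        rw [pow_succ]
        ring
      rw [e1, e2] at h1
      have h2 := h1.trans (mul_le_mul_of_nonneg_left
        (F1_mono (G := G) (κ := κ) (J := J) (P := P) (i + 1)
          (x := u * 2 ^ i) (x' := (2 * ((u + 1) / 2)) * 2 ^ i) (y := v * 2 ^ i)
          (y' := (2 * (v / 2)) * 2 ^ i)
          (Nat.mul_le_mul_right _ (by omega)) (Nat.mul_le_mul_right _ (by omega)))
        (by linarith : (0 : ℝ) ≤ 6 - 4 * (2 / 3 : ℝ) ^ d))
      have h3 := cs (x₁ := ps G κ ((2 * ((u + 1) / 2)) * 2 ^ i) - ps G κ (u * 2 ^ i))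
        (x₂ := ps G κ (v * 2 ^ i) - ps G κ ((2 * (v / 2)) * 2 ^ i))
        (w := (3 / 2 : ℝ) ^ (d + 1)) (by positivity) (by linarith) h2
      have e3 : 2 / (3 / 2 : ℝ) ^ (d + 1) + (6 - 4 * (2 / 3 : ℝ) ^ d) =
          6 - 4 * (2 / 3 : ℝ) ^ (d + 1) := by
        have g1 : (2 : ℝ) / (3 / 2 : ℝ) ^ (d + 1) = 2 * (2 / 3 : ℝ) ^ (d + 1) := by
          rw [div_eq_mul_inv, ← inv_pow]
          norm_num
        rw [g1, pow_succ]
        ring
      rw [e3] at h3
      have e4 : ps G κ (v * 2 ^ i) - ps G κ (u * 2 ^ i) =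
          (ps G κ ((2 * ((u + 1) / 2)) * 2 ^ i) - ps G κ (u * 2 ^ i)) +
          (ps G κ (v * 2 ^ i) - ps G κ ((2 * (v / 2)) * 2 ^ i)) +
          (ps G κ ((2 * (v / 2)) * 2 ^ i) - ps G κ ((2 * ((u + 1) / 2)) * 2 ^ i)) := by ring
      rw [e4]
      refine h3.trans (mul_le_mul_of_nonneg_left ?_ (by linarith))
      rw [F1_succ (i := i) (by omega)]
      have e5 : J - i = d + 1 := by omega
      rw [e5]
      refine add_le_add (mul_le_mul_of_nonneg_left ?_ (by positivity)) le_rfl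
      refine (ends (f := fun c => B G κ i c ^ 2) huv i fun _ => rfl).trans ?_
      have hu2 : P * 2 ^ (d + 1) ≤ u := by
        rw [pow_succ, ← mul_assoc]
        exact hu
      have hv2 : v ≤ (P + 2) * 2 ^ (d + 1) := by
        rw [pow_succ, ← mul_assoc]
        exact hv
      exact T_ge hid hu2 hv2

/-! ### the ends -/

section om

variable (hG : Monotone G) (hκ : 0 ≤ κ)

lemma om_add (x y z : ℕ) : om G κ x y + om G κ y z = om G κ x z := by
  unfold om
  ring

lemma om_self (x : ℕ) : om G κ x x = 0 := by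
  unfold om
  ring

include hG hκ in
lemma om_nonneg {x y : ℕ} (hxy : x ≤ y) : 0 ≤ om G κ x y := by
  unfold om
  have h1 := hG hxy
  have h2 : (x : ℝ) ≤ y := by exact_mod_cast hxy
  have h3 : 0 ≤ κ * ((y : ℝ) - x) := mul_nonneg hκ (by linarith)
  linarith

include hG hκ in
lemma ps_le {x y : ℕ} (hxy : x ≤ y) : (ps G κ y - ps G κ x) ^ 2 ≤ om G κ x y ^ 2 := by
  apply sq_le_sq'
  · unfold om ps
    have h1 := hG hxy
    linarith
  · unfold om ps
    have h2 : (x : ℝ) ≤ y := by exact_mod_cast hxy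
    have h3 : 0 ≤ κ * ((y : ℝ) - x) := mul_nonneg hκ (by linarith)
    nlinarith

lemma cl_mono (q c : ℕ) {x y : ℕ} (hxy : x ≤ y) : cl q c x ≤ cl q c y := by
  unfold cl
  exact max_le_max le_rfl (min_le_min hxy le_rfl)

include hG hκ in
lemma F2_super (b : ℕ) {x y z : ℕ} (hxy : x ≤ y) (hyz : y ≤ z) :
    F2 G κ J P b x y + F2 G κ J P b y z ≤ F2 G κ J P b x z := by
  unfold F2
  rw [← Finset.sum_add_distrib]
  refine Finset.sum_le_sum fun c _ => ?_
  have h1 := om_nonneg hG hκ (cl_mono (2 ^ b) c hxy)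
  have h2 := om_nonneg hG hκ (cl_mono (2 ^ b) c hyz)
  rw [← om_add (cl (2 ^ b) c x) (cl (2 ^ b) c y) (cl (2 ^ b) c z)]
  nlinarith

lemma F2_nonneg (b x y : ℕ) : 0 ≤ F2 G κ J P b x y := Finset.sum_nonneg fun _ _ => sq_nonneg _

lemma F2_ge {b x y c : ℕ} (hc1 : P * 2 ^ (J - b) ≤ c) (hc2 : c < (P + 2) * 2 ^ (J - b)) :
    om G κ (cl (2 ^ b) c x) (cl (2 ^ b) c y) ^ 2 ≤ F2 G κ J P b x y :=
  Finset.single_le_sum (f := fun c => om G κ (cl (2 ^ b) c x) (cl (2 ^ b) c y) ^ 2)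
    (fun _ _ => sq_nonneg _) (Finset.mem_Ico.2 ⟨hc1, hc2⟩)

include hG hκ in
lemma F2_le (b : ℕ) {x y : ℕ} (hxy : x ≤ y) : F2 G κ J P b x y ≤
    ∑ c ∈ Ico (P * 2 ^ (J - b)) ((P + 2) * 2 ^ (J - b)), (S G b c + κ * 2 ^ b) ^ 2 := by
  refine Finset.sum_le_sum fun c _ => ?_
  have h1 := om_nonneg hG hκ (cl_mono (2 ^ b) c hxy)
  have hcl1 : c * 2 ^ b ≤ cl (2 ^ b) c x := le_max_left _ _
  have hcl2 : cl (2 ^ b) c y ≤ (c + 1) * 2 ^ b :=
    max_le (Nat.mul_le_mul_right _ (Nat.le_succ c)) (min_le_right _ _)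
  have h2 := om_nonneg hG hκ hcl1
  have h3 := om_nonneg hG hκ hcl2
  have h4 : om G κ (c * 2 ^ b) ((c + 1) * 2 ^ b) = S G b c + κ * 2 ^ b := by
    unfold om S
    push_cast
    ring
  have h5 := om_add (G := G) (κ := κ) (c * 2 ^ b) (cl (2 ^ b) c x) (cl (2 ^ b) c y)
  have h6 := om_add (G := G) (κ := κ) (c * 2 ^ b) (cl (2 ^ b) c y) ((c + 1) * 2 ^ b)
  refine pow_le_pow_left₀ h1 ?_ 2
  linarith

end om

/-- the bound -/
noncomputable def FF (G : ℕ → ℝ) (κ : ℝ) (J P b x y : ℕ) : ℝ :=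
  18 * F1 G κ J P b x y + 6 * F2 G κ J P b x y

lemma FF_nonneg (b x y : ℕ) : 0 ≤ FF G κ J P b x y := by
  have h1 := F1_nonneg (G := G) (κ := κ) (J := J) (P := P) b x y
  have h2 := F2_nonneg (G := G) (κ := κ) (J := J) (P := P) b x y
  unfold FF
  linarith

lemma FF_super (hG : Monotone G) (hκ : 0 ≤ κ) (b : ℕ) {x y z : ℕ} (hxy : x ≤ y) (hyz : y ≤ z) :
    FF G κ J P b x y + FF G κ J P b y z ≤ FF G κ J P b x z := by
  have h1 := F1_super (G := G) (κ := κ) (J := J) (P := P) b hxy hyz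
  have h2 := F2_super (J := J) (P := P) hG hκ b hxy hyz
  unfold FF
  linarith

lemma ps_FF (hG : Monotone G) (hκ : 0 ≤ κ) {b : ℕ} (hb : b ≤ J) {x y : ℕ}
    (hx : P * 2 ^ J ≤ x) (hxy : x ≤ y) (hy : y ≤ (P + 2) * 2 ^ J) :
    (ps G κ y - ps G κ x) ^ 2 ≤ FF G κ J P b x y := by
  set q := 2 ^ b with hq
  have hq0 : 0 < q := by positivity
  have hJq : ∀ A : ℕ, A * 2 ^ J = (A * 2 ^ (J - b)) * q := fun A => by
    rw [hq, mul_assoc, ← pow_add]
    congr 2
    omega
  rw [hJq] at hx hy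
  set A := P * 2 ^ (J - b) with hA
  set A' := (P + 2) * 2 ^ (J - b) with hA'
  have hF1 := F1_nonneg (G := G) (κ := κ) (J := J) (P := P) b x y
  have hF2 := F2_nonneg (G := G) (κ := κ) (J := J) (P := P) b x y
  -- the blocks
  set c := x / q with hc
  set v := y / q with hv
  have hc1 : c * q ≤ x := Nat.div_mul_le_self x q
  have hc2 : x < (c + 1) * q := by
    rw [Nat.add_mul, one_mul]
    exact Nat.lt_div_mul_add hq0
  have hv1 : v * q ≤ y := Nat.div_mul_le_self y q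
  have hv2 : y < (v + 1) * q := by
    rw [Nat.add_mul, one_mul]
    exact Nat.lt_div_mul_add hq0
  have hAc : A ≤ c := (Nat.le_div_iff_mul_le hq0).2 hx
  have hcv : c ≤ v := Nat.div_le_div_right hxy
  rcases hcv.eq_or_lt with hcv | hcv
  · -- the same block
    by_cases hxe : x = y
    · rw [hxe, sub_self]
      have h0 : (0 : ℝ) ^ 2 = 0 := by norm_num
      rw [h0]
      exact FF_nonneg _ _ _
    · have hcA : c < A' := by
        by_contra hcon
        push Not at hcon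
        have := Nat.mul_le_mul_right q hcon
        omega
      have h1 := F2_ge (G := G) (κ := κ) (J := J) (P := P) (b := b) (x := x) (y := y) (c := c)
        hAc hcA
      have e1 : cl (2 ^ b) c x = x := by
        unfold cl
        rw [min_eq_left hc2.le, max_eq_right hc1]
      have e2 : cl (2 ^ b) c y = y := by
        unfold cl
        rw [min_eq_left (by rw [hcv]; exact hv2.le), max_eq_right (by rw [hcv]; exact hv1)]
      rw [e1, e2] at h1
      have h2 := ps_le hG hκ hxy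
      unfold FF
      linarith
  · -- different blocks
    have hcv' : (c + 1) * q ≤ v * q := Nat.mul_le_mul_right q hcv
    have hcA : c < A' := by
      by_contra hcon
      push Not at hcon
      have := Nat.mul_le_mul_right q hcon
      omega
    have hvA : v ≤ A' := by
      by_contra hcon
      push Not at hcon
      have := Nat.mul_lt_mul_of_pos_right hcon hq0
      omega
    have h1 := F2_ge (G := G) (κ := κ) (J := J) (P := P) (b := b) (x := x) (y := y) (c := c)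
      hAc hcA
    have e1 : cl (2 ^ b) c x = x := by
      unfold cl
      rw [min_eq_left hc2.le, max_eq_right hc1]
    have e2 : cl (2 ^ b) c y = (c + 1) * q := by
      unfold cl
      rw [min_eq_right (hcv'.trans hv1), max_eq_right (Nat.mul_le_mul_right _ (Nat.le_succ c))]
    rw [e1, e2] at h1
    have h2 : om G κ (v * q) y ^ 2 ≤ F2 G κ J P b x y := by
      rcases hv1.eq_or_lt with hve | hvl
      · rw [hve, om_self]
        have h0 : (0 : ℝ) ^ 2 = 0 := by norm_num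
        rw [h0]
        exact hF2
      · have hvA2 : v < A' := by
          by_contra hcon
          push Not at hcon
          have := Nat.mul_le_mul_right q hcon
          omega
        have h3 := F2_ge (G := G) (κ := κ) (J := J) (P := P) (b := b) (x := x) (y := y) (c := v)
          (by omega) hvA2
        have e3 : cl (2 ^ b) v x = v * q := by
          unfold cl
          rw [min_eq_left (by
            have : x < (v + 1) * q := lt_of_le_of_lt hxy hv2
            exact this.le), max_eq_left]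
          exact (hc2.trans_le hcv').le
        have e4 : cl (2 ^ b) v y = y := by
          unfold cl
          rw [min_eq_left hv2.le, max_eq_right hv1]
        rw [e3, e4] at h3
        exact h3
    have h4 := full (G := G) (κ := κ) (J := J) (P := P) (J - b) b (c + 1) v (by omega) hcv
      (by omega) hvA
    have h5 : (6 - 4 * (2 / 3 : ℝ) ^ (J - b)) * F1 G κ J P b ((c + 1) * 2 ^ b) (v * 2 ^ b) ≤
        6 * F1 G κ J P b x y := by
      have g1 : F1 G κ J P b ((c + 1) * 2 ^ b) (v * 2 ^ b) ≤ F1 G κ J P b x y :=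
        F1_mono b hc2.le hv1
      have g2 := F1_nonneg (G := G) (κ := κ) (J := J) (P := P) b ((c + 1) * 2 ^ b) (v * 2 ^ b)
      have g3 : (0 : ℝ) ≤ (2 / 3 : ℝ) ^ (J - b) := by positivity
      nlinarith [mul_nonneg g3 g2]
    have h6 := ps_le hG hκ hc2.le
    have h7 := ps_le hG hκ hv1
    set a1 := ps G κ ((c + 1) * q) - ps G κ x with ha1
    set a2 := ps G κ (v * q) - ps G κ ((c + 1) * q) with ha2
    set a3 := ps G κ y - ps G κ (v * q) with ha3
    have e5 : ps G κ y - ps G κ x = a1 + a2 + a3 := by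
      rw [ha1, ha2, ha3]
      ring
    have h8 : a2 ^ 2 ≤ 6 * F1 G κ J P b x y := h4.trans h5
    have h9 : (a1 + a2 + a3) ^ 2 ≤ 3 * (a1 ^ 2 + a2 ^ 2 + a3 ^ 2) := by
      nlinarith [sq_nonneg (a1 - a2), sq_nonneg (a2 - a3), sq_nonneg (a1 - a3)]
    rw [e5]
    unfold FF
    linarith

/-- sums over non-overlapping pairs -/
lemma pairs {F : ℕ → ℕ → ℝ} {M : ℝ} (hF0 : ∀ x y, 0 ≤ F x y)
    (hFs : ∀ x y z, x ≤ y → y ≤ z → F x y + F y z ≤ F x z) (hFM : ∀ x y, x ≤ y → F x y ≤ M)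
    (s t : ℕ → ℕ) (k : ℕ) (hst : ∀ i < k, s i ≤ t i) (hts : ∀ i, i + 1 < k → t i ≤ s (i + 1)) :
    ∑ i ∈ range k, F (s i) (t i) ≤ M := by
  rcases k with _ | k
  · rw [Finset.range_zero, Finset.sum_empty]
    exact (hF0 0 0).trans (hFM 0 0 le_rfl)
  · have key : ∀ m ≤ k, s 0 ≤ t m ∧ ∑ i ∈ range (m + 1), F (s i) (t i) ≤ F (s 0) (t m) := by
      intro m
      induction m with
      | zero =>
        intro _
        refine ⟨hst 0 (by omega), ?_⟩
        rw [zero_add, Finset.sum_range_one]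
      | succ m ih =>
        intro hm
        obtain ⟨h1, h2⟩ := ih (by omega)
        have h3 := hts m (by omega)
        have h4 := hst (m + 1) (by omega)
        refine ⟨(h1.trans h3).trans h4, ?_⟩
        rw [Finset.sum_range_succ]
        have h5 := hFs _ _ _ h1 h3
        have h6 := hFs _ _ _ (h1.trans h3) h4
        have h7 := hF0 (t m) (s (m + 1))
        linarith
    obtain ⟨h1, h2⟩ := key k le_rfl
    exact h2.trans (hFM _ _ h1)

end WIN_

open WIN_

theorem t_WIN : S_WIN := by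
  refine ⟨72, by norm_num, ?_⟩
  intro G hG b j hbj n κ hκ
  set J := j + 1 with hJ
  set P := n / 2 ^ J with hP
  have hJ0 : 0 < 2 ^ J := by positivity
  have hlo : P * 2 ^ J ≤ n := Nat.div_mul_le_self _ _
  have hhi : ∀ H : ℕ, H ≤ 2 ^ J → n + H ≤ (P + 2) * 2 ^ J := by
    intro H hH
    have h1 : n < P * 2 ^ J + 2 ^ J := Nat.lt_div_mul_add hJ0
    rw [Nat.add_mul]
    omega
  -- the bound
  have hFZ : ∀ x y, x ≤ y → FF G κ J P b x y ≤ 18 * Z G b j P κ := by
    intro x y hxy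
    have h1 : F1 G κ J P b x y ≤ ∑ i ∈ Icc b (j + 1), (3 / 2 : ℝ) ^ (j + 1 - i) *
        ∑ c ∈ Ico (P * 2 ^ (j + 1 - i)) ((P + 2) * 2 ^ (j + 1 - i)), (S G i c - κ * 2 ^ i) ^ 2 :=
      Finset.sum_le_sum fun i _ => mul_le_mul_of_nonneg_left (T_le i x y) (by positivity)
    have h2 := F2_le (J := J) (P := P) hG hκ b hxy
    have h3 : 0 ≤ ∑ c ∈ Ico (P * 2 ^ (J - b)) ((P + 2) * 2 ^ (J - b)),
        (S G b c + κ * 2 ^ b) ^ 2 := Finset.sum_nonneg fun _ _ => sq_nonneg _
    unfold FF Z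
    linarith
  have hZ0 : 0 ≤ Z G b j P κ := by
    have h1 := hFZ 0 0 le_rfl
    have h2 := FF_nonneg (G := G) (κ := κ) (J := J) (P := P) b 0 0
    linarith
  have hps : ∀ x y : ℕ, x ≤ y → n + y ≤ (P + 2) * 2 ^ J →
      (ps G κ (n + y) - ps G κ (n + x)) ^ 2 ≤ FF G κ J P b (n + x) (n + y) := fun x y hxy hy =>
    ps_FF hG hκ (by omega) (hlo.trans (Nat.le_add_right _ _)) (Nat.add_le_add_left hxy n) hy
  constructor
  · intro H _ hH
    have h1 := hps 0 H (Nat.zero_le _) (hhi H hH)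
    have h2 := hFZ (n + 0) (n + H) (by omega)
    have e1 : G (n + H) - G n - κ * H = ps G κ (n + H) - ps G κ (n + 0) := by
      unfold ps
      push_cast
      rw [add_zero]
      ring
    rw [e1]
    linarith
  · rintro lam hlam k ⟨s, t, hst, hts⟩
    set g : ℕ → ℝ := fun H => ps G κ (n + H) - ps G κ n with hg
    set q : ℝ := 2 ^ j with hq
    have hq0 : 0 < q := by positivity
    have h4j : (4 : ℝ) ^ j = q ^ 2 := by
      rw [hq, ← pow_mul, mul_comm, pow_mul]
      norm_num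
    set M : ℝ := 18 * Z G b j P κ with hM
    have hM0 : 0 ≤ M := by positivity
    -- one pair
    have hone : ∀ i < k, lam ^ 2 * q ^ 2 ≤
        2 * (g (t i) - g (s i)) ^ 2 + 2 * M / q ^ 2 * ((t i : ℝ) - s i) ^ 2 := by
      intro i hi
      obtain ⟨h1, h2, h3, h4⟩ := hst i hi
      have hs : q ≤ s i := by
        rw [hq]
        exact_mod_cast h1
      have hst' : (s i : ℝ) < t i := by exact_mod_cast h2
      have hs0 : (0 : ℝ) < s i := by linarith
      have ht0 : (0 : ℝ) < t i := by linarith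
      have hav : ∀ H : ℕ, (0 : ℝ) < H → avg G n H = κ + g H / H := by
        intro H hH
        unfold avg
        rw [hg]
        unfold ps
        push_cast
        field_simp
        ring
      have hgs : g (s i) ^ 2 ≤ M := by
        have h5 := hps 0 (s i) (Nat.zero_le _) (hhi _ (by omega))
        have h6 := hFZ (n + 0) (n + s i) (by omega)
        exact h5.trans h6
      rw [hav _ ht0, hav _ hs0] at h4
      have e1 : κ + g (t i) / t i - (κ + g (s i) / s i) =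
          (g (t i) - g (s i)) / t i - g (s i) * ((t i : ℝ) - s i) / (s i * t i) := by
        field_simp
        ring
      rw [e1] at h4
      set α : ℝ := (g (t i) - g (s i)) / t i with hα
      set β : ℝ := g (s i) * ((t i : ℝ) - s i) / (s i * t i) with hβ
      have h7 : lam ^ 2 ≤ (α - β) ^ 2 := by
        rw [← sq_abs (α - β)]
        exact pow_le_pow_left₀ hlam.le h4 2
      have h8 : (α - β) ^ 2 ≤ 2 * α ^ 2 + 2 * β ^ 2 := by nlinarith [sq_nonneg (α + β)]
      have h9 : α ^ 2 * q ^ 2 ≤ (g (t i) - g (s i)) ^ 2 := by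
        rw [hα, div_pow, div_mul_eq_mul_div, div_le_iff₀ (by positivity)]
        refine mul_le_mul_of_nonneg_left ?_ (sq_nonneg _)
        exact pow_le_pow_left₀ hq0.le (by linarith) 2
      have h10 : β ^ 2 * q ^ 2 ≤ M / q ^ 2 * ((t i : ℝ) - s i) ^ 2 := by
        rw [hβ, div_pow, mul_pow, mul_pow, div_mul_eq_mul_div, div_le_iff₀ (by positivity)]
        have g1 : q ^ 2 ≤ (s i : ℝ) ^ 2 := pow_le_pow_left₀ hq0.le hs 2
        have g2 : q ^ 2 ≤ (t i : ℝ) ^ 2 := pow_le_pow_left₀ hq0.le (by linarith) 2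
        have g3 : 0 ≤ ((t i : ℝ) - s i) ^ 2 := sq_nonneg _
        calc g (s i) ^ 2 * ((t i : ℝ) - s i) ^ 2 * q ^ 2 ≤ M * ((t i : ℝ) - s i) ^ 2 * q ^ 2 := by
              gcongr
          _ = M / q ^ 2 * ((t i : ℝ) - s i) ^ 2 * (q ^ 2 * q ^ 2) := by
              field_simp
          _ ≤ M / q ^ 2 * ((t i : ℝ) - s i) ^ 2 * ((s i : ℝ) ^ 2 * (t i : ℝ) ^ 2) := by
              gcongr
      calc lam ^ 2 * q ^ 2 ≤ (2 * α ^ 2 + 2 * β ^ 2) * q ^ 2 :=
            mul_le_mul_of_nonneg_right (h7.trans h8) (sq_nonneg _)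
        _ = 2 * (α ^ 2 * q ^ 2) + 2 * (β ^ 2 * q ^ 2) := by ring
        _ ≤ 2 * (g (t i) - g (s i)) ^ 2 + 2 * (M / q ^ 2 * ((t i : ℝ) - s i) ^ 2) := by linarith
        _ = _ := by ring
    have hsum : ∑ i ∈ range k, lam ^ 2 * q ^ 2 ≤ ∑ i ∈ range k,
        (2 * (g (t i) - g (s i)) ^ 2 + 2 * M / q ^ 2 * ((t i : ℝ) - s i) ^ 2) :=
      Finset.sum_le_sum fun i hi => hone i (Finset.mem_range.1 hi)
    rw [Finset.sum_const, Finset.card_range, nsmul_eq_mul, Finset.sum_add_distrib,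
      ← Finset.mul_sum, ← Finset.mul_sum] at hsum
    have hA : ∑ i ∈ range k, (g (t i) - g (s i)) ^ 2 ≤ M := by
      have h1 : ∑ i ∈ range k, (g (t i) - g (s i)) ^ 2 ≤
          ∑ i ∈ range k, FF G κ J P b (n + s i) (n + t i) := by
        refine Finset.sum_le_sum fun i hi => ?_
        obtain ⟨h1, h2, h3, -⟩ := hst i (Finset.mem_range.1 hi)
        have e1 : g (t i) - g (s i) = ps G κ (n + t i) - ps G κ (n + s i) := by
          rw [hg]
          simp only
          ring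
        rw [e1]
        exact hps _ _ h2.le (hhi _ h3)
      refine h1.trans (pairs (F := FF G κ J P b) (FF_nonneg b)
        (fun x y z => FF_super hG hκ b) hFZ (fun i => n + s i) (fun i => n + t i) k ?_ ?_)
      · intro i hi
        have := (hst i hi).2.1
        show n + s i ≤ n + t i
        omega
      · intro i hi
        have := hts i hi
        show n + t i ≤ n + s (i + 1)
        omega
    have hB : ∑ i ∈ range k, ((t i : ℝ) - s i) ^ 2 ≤ q ^ 2 := by
      set cq : ℕ → ℝ := fun x => max q (min (x : ℝ) (2 * q)) with hcq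
      have hcm : ∀ x y : ℕ, x ≤ y → cq x ≤ cq y := fun x y hxy => by
        rw [hcq]
        exact max_le_max le_rfl (min_le_min (by exact_mod_cast hxy) le_rfl)
      have hc1 : ∀ x, q ≤ cq x := fun x => le_max_left _ _
      have hc2 : ∀ x, cq x ≤ 2 * q := fun x => max_le (by linarith) (min_le_right _ _)
      have hce : ∀ i < k, cq (s i) = s i ∧ cq (t i) = t i := by
        intro i hi
        obtain ⟨h1, h2, h3, -⟩ := hst i hi
        have g1 : q ≤ (s i : ℝ) := by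
          rw [hq]
          exact_mod_cast h1
        have g2 : (s i : ℝ) < t i := by exact_mod_cast h2
        have g3 : (t i : ℝ) ≤ 2 * q := by
          rw [hq, ← pow_succ']
          exact_mod_cast h3
        rw [hcq]
        constructor
        · show max q (min (s i : ℝ) (2 * q)) = s i
          rw [min_eq_left (by linarith), max_eq_right g1]
        · show max q (min (t i : ℝ) (2 * q)) = t i
          rw [min_eq_left g3, max_eq_right (by linarith)]
      have h1 := pairs (F := fun x y => (cq y - cq x) ^ 2) (M := q ^ 2)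
        (fun x y => sq_nonneg _) (fun x y z hxy hyz => by
          have g1 := hcm x y hxy
          have g2 := hcm y z hyz
          show (cq y - cq x) ^ 2 + (cq z - cq y) ^ 2 ≤ (cq z - cq x) ^ 2
          nlinarith [mul_nonneg (sub_nonneg.2 g1) (sub_nonneg.2 g2)])
        (fun x y hxy => by
          have g1 := hcm x y hxy
          have g2 := hc1 x
          have g3 := hc2 y
          show (cq y - cq x) ^ 2 ≤ q ^ 2
          exact pow_le_pow_left₀ (by linarith) (by linarith) 2)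
        s t k (fun i hi => (hst i hi).2.1.le) hts
      refine le_trans (le_of_eq (Finset.sum_congr rfl fun i hi => ?_)) h1
      obtain ⟨g1, g2⟩ := hce i (Finset.mem_range.1 hi)
      show _ = (cq (t i) - cq (s i)) ^ 2
      rw [g1, g2]
    have hC : 2 * M / q ^ 2 * ∑ i ∈ range k, ((t i : ℝ) - s i) ^ 2 ≤ 2 * M := by
      calc 2 * M / q ^ 2 * ∑ i ∈ range k, ((t i : ℝ) - s i) ^ 2 ≤ 2 * M / q ^ 2 * q ^ 2 :=
            mul_le_mul_of_nonneg_left hB (by positivity)
        _ = 2 * M := by field_simp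
    rw [h4j]
    calc lam ^ 2 * q ^ 2 * k = (k : ℝ) * (lam ^ 2 * q ^ 2) := by ring
      _ ≤ _ := hsum
      _ ≤ 2 * M + 2 * M := add_le_add (by linarith) hC
      _ = 72 * Z G b j P κ := by rw [hM]; ring

end Pool.Agent.N610.JV
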